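import Pool.Agent.H93.KR.Loc

/-!
# The reduction for abelian normal `p'`-subgroups
-/

set_option autoImplicit false
set_option linter.unusedSectionVars false
set_option linter.style.haveILetI false

open scoped Classical BigOperators

noncomputable section

namespace Pool.Agent.H93.KR

open Pool.Agent.Helper884 Pool.Agent.K3h3.KB Pool.Agent.K3h3.MK Pool.Agent.K3h83.IN
open Pool.Agent.H254R3.IN (IsIrr mem_Irr)
open Pool.Agent.Y63.AWC (numDefectZero)
open Pool.Agent.Y63.KR
open IC (Irr)
open Pool.Agent.K3h18.IN (irr_infl B_infl irr_of_infl exists_prod lin)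

/-- the error term of the relative conjecture -/
def DR (p : ℕ) {L T Q : Type} [Group L] [Finite L] [Group T] [Finite T] [Group Q] (r : T →* Q)
    (j : L →* T) (θ : L → ℂ) : ℚ := (Nat.card T : ℚ) * zo p j θ - RA p r j θ

/-- `|G|` times the error term of the conjecture -/
def DD (p : ℕ) (G : Type) [Group G] [Finite G] : ℚ := (Nat.card G : ℚ) * zz p G - AA p G

theorem krc_iff_DD {p : ℕ} [Fact p.Prime] (G : Type) [Group G] [Finite G] :
    KRC p G ↔ DD p G = 0 := by
  rw [krc_iff_AA, DD, sub_eq_zero]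

/-- coefficients of a Clifford sum -/
theorem zz_clifford {p : ℕ} {L G : Type} [Group L] [Fintype L] [Group G] [Finite G] (j : L →* G)
    (hj : Function.Injective j) (hn : j.range.Normal) :
    (Nat.card G : ℚ) * zz p G = ∑ θ ∈ Irr L, (Nat.card (stb j hj hn θ) : ℚ) * zo p j θ := by
  have h1 := congrArg (fun P => P.coeff ((Nat.card G).factorization p)) (cl_sum (wp p) j hj hn)
  simp only [Polynomial.coeff_natCast_mul, Polynomial.finsetSum_coeff] at h1
  exact h1

section

variable {L G : Type} [CommGroup L] [Group G] (j : L →* G) (hj : Function.Injective j)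
  (hn : j.range.Normal)

theorem mem_stb_comm (θ : L → ℂ) (l : L) : j l ∈ stb j hj hn θ :=
  range_le_stb j hj hn (fun a b => by rw [mul_comm b a, mul_inv_cancel_right]) ⟨l, rfl⟩

/-- the embedding into the stabiliser -/
def jS (θ : L → ℂ) : L →* stb j hj hn θ := j.codRestrict _ (mem_stb_comm j hj hn θ)

end

/-- **The error term is the sum of the relative error terms.** -/
theorem DD_clifford {p : ℕ} [Fact p.Prime] {L G Q : Type} [CommGroup L] [Fintype L] [Group G]
    [Finite G] [Group Q] (j : L →* G) (hj : Function.Injective j) (π : G →* Q)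
    (hπ : Function.Surjective π) (hk : π.ker = j.range) (hn : j.range.Normal)
    (hp : ¬ p ∣ Nat.card L) :
    DD p G = ∑ θ ∈ Irr L, DR p (π.subgroupMap (stb j hj hn θ)) (jS j hj hn θ) θ := by
  unfold DD DR
  rw [zz_clifford j hj hn, AA_clifford j hj π hπ hk hn hp
    (fun σ hσ => local_ab j hj π hπ hk hn hp σ hσ), ← Finset.sum_sub_distrib]
  refine Finset.sum_congr rfl fun θ hθ => ?_
  rw [RT_eq j hj hn π hπ θ (jS j hj hn θ) (fun _ => rfl),
    zo_stb j hj hn (mem_Irr.mp hθ) (stb j hj hn θ) (fun _ => Iff.rfl) (jS j hj hn θ) (fun _ => rfl)]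

theorem CS_mul {p : ℕ} {G : Type} [Group G] [Finite G] (c : ℚ) (F : Set (Subgroup G) → ℚ) :
    c * CS p F = CS p (fun σ => c * F σ) := by
  haveI : Fintype (Ch p G) := Fintype.ofFinite _
  rw [CS_eq, CS_eq, Finset.mul_sum]
  exact Finset.sum_congr rfl fun σ _ => by ring

/-- **Quotients by central subgroups.** -/
theorem quot_sum {p : ℕ} [hp : Fact p.Prime] {L T Q X : Type} [CommGroup L] [Fintype L] [Group T]
    [Finite T] [Group Q] [Group X] [Finite X] (j : L →* T) (hj : Function.Injective j)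
    (r : T →* Q) (hr : Function.Surjective r) (hk : r.ker = j.range) (hpL : ¬ p ∣ Nat.card L)
    (K : Subgroup L) (f : T →* X) (hf : Function.Surjective f) (hfk : f.ker = K.map j)
    (g : X →* Q) (hg : ∀ t, g (f t) = r t) (hc : ∀ t l, f (t * j l * t⁻¹) = f (j l)) :
    (Nat.card K : ℚ) * DD p X =
      ∑ μ ∈ (Irr L).filter (fun μ => ∀ k ∈ K, μ k = 1), DR p r j μ := by
  have hn : j.range.Normal := by
    rw [← hk]
    infer_instance
  have hfK : ∀ l, f (j l) = 1 ↔ l ∈ K := by
    intro l
    rw [← MonoidHom.mem_ker, hfk]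
    constructor
    · rintro ⟨k, hk', hkl⟩
      rw [← hj hkl]
      exact hk'
    · intro h
      exact ⟨l, h, rfl⟩
  have hfr : f.ker ≤ j.range := by
    rw [hfk]
    rintro _ ⟨l, -, rfl⟩
    exact ⟨l, rfl⟩
  have hfilt : (Irr L).filter (fun θ => ∀ l, f (j l) = 1 → θ l = 1) =
      (Irr L).filter (fun μ => ∀ k ∈ K, μ k = 1) := by
    ext θ
    simp only [Finset.mem_filter, hfK]
  have hgs : Function.Surjective g := by
    intro q
    obtain ⟨t, rfl⟩ := hr q
    exact ⟨f t, hg t⟩
  haveI : Finite Q := Finite.of_surjective r hr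
  have hgk : g.ker = (f.comp j).range := by
    ext x
    constructor
    · intro hx
      obtain ⟨t, rfl⟩ := hf x
      rw [MonoidHom.mem_ker, hg] at hx
      have ht : t ∈ j.range := by
        rw [← hk]
        exact hx
      obtain ⟨l, rfl⟩ := ht
      exact ⟨l, rfl⟩
    · rintro ⟨l, rfl⟩
      rw [MonoidHom.mem_ker, MonoidHom.comp_apply, hg]
      have : j l ∈ r.ker := by
        rw [hk]
        exact ⟨l, rfl⟩
      exact this
  have hcard : Nat.card K * Nat.card g.ker = Nat.card L := by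
    have h1 : (f.comp j).ker = K := by
      ext l
      exact hfK l
    rw [hgk, ← Subgroup.index_ker, h1, Subgroup.card_mul_index]
  have hpK : ¬ p ∣ Nat.card K := fun h => hpL (h.trans (Dvd.intro _ hcard))
  have hpg : ¬ p ∣ Nat.card g.ker := fun h => hpL (h.trans (Dvd.intro_left _ hcard))
  have hgc : ∀ x ∈ g.ker, ∀ y, y * x * y⁻¹ = x := by
    intro x hx y
    rw [hgk] at hx
    obtain ⟨l, rfl⟩ := hx
    obtain ⟨t, rfl⟩ := hf y
    rw [MonoidHom.comp_apply, ← map_mul, ← map_inv, ← map_mul]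
    exact hc t l
  have hst : ∀ σ : Set (Subgroup X), g.ker ≤ chainStabilizer σ := by
    intro σ x hx
    rw [mem_chainStabilizer]
    intro P _
    ext y
    rw [mem_conjSub]
    have h1 : x⁻¹ * y * x = y := by
      have h2 := hgc x hx y
      have h3 : y * x = x * y := by
        rw [mul_inv_eq_iff_eq_mul] at h2
        exact h2
      rw [mul_assoc, h3, inv_mul_cancel_left]
    rw [h1]
  have hkK : Nat.card f.ker = Nat.card K := by
    rw [hfk]
    exact Nat.card_congr (Subgroup.equivMapOfInjective K j hj).toEquiv.symm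
  have hTX : Nat.card T = Nat.card K * Nat.card X := by
    rw [← hkK, ← Subgroup.card_mul_index f.ker, Subgroup.index_ker,
      MonoidHom.range_eq_top.mpr hf, Subgroup.card_top]
  have hfix : ∀ θ ∈ (Irr L).filter (fun μ => ∀ k ∈ K, μ k = 1), ∀ t, fixes j θ t := by
    intro θ hθ t l l' hll
    rw [Finset.mem_filter] at hθ
    obtain ⟨μ, rfl⟩ := lin_of_comm (mem_Irr.mp hθ.1)
    have h1 : l' * l⁻¹ ∈ K := by
      rw [← hfK, map_mul, map_mul, map_inv, map_inv, ← hll, hc, mul_inv_cancel]
    have h2 : ((μ (l' * l⁻¹) : ℂˣ) : ℂ) = 1 := hθ.2 _ h1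
    rw [map_mul, map_inv, Units.val_mul, Units.val_inv_eq_inv_val] at h2
    have h3 : ((μ l : ℂˣ) : ℂ) ≠ 0 := Units.ne_zero _
    field_simp at h2
    exact h2
  have hfa : (Nat.card T).factorization p = (Nat.card X).factorization p := by
    rw [hTX, Nat.factorization_mul Nat.card_pos.ne' Nat.card_pos.ne', Finsupp.add_apply,
      Nat.factorization_eq_zero_of_not_dvd hpK, zero_add]
  -- the characters of defect zero
  have hz : (Nat.card T : ℚ) * zz p X = ∑ μ ∈ (Irr L).filter (fun μ => ∀ k ∈ K, μ k = 1),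
      (Nat.card T : ℚ) * zo p j μ := by
    have h1 := congrArg (fun P => P.coeff ((Nat.card X).factorization p))
      (cl_sum_infl (wp p) j hj hn f hf hfr)
    simp only [Polynomial.coeff_natCast_mul, Polynomial.finsetSum_coeff] at h1
    rw [hfilt] at h1
    refine h1.trans (Finset.sum_congr rfl fun μ hμ => ?_)
    unfold zo
    rw [hfa]
    congr 2
    exact Nat.card_congr (Equiv.subtypeUnivEquiv fun t => hfix μ hμ t)
  -- the alternating sum
  set F : Set (Subgroup Q) → ℚ := fun τ => ∑ μ ∈ (Irr L).filter (fun μ => ∀ k ∈ K, μ k = 1),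
    koS j μ ((chainStabilizer τ).comap r) with hF
  have hkk : ∀ σ : Set (Subgroup X), IsPChain p σ → kk (chainStabilizer σ) = F (mapC g σ) := by
    intro σ hσ
    set Y : Subgroup T := (chainStabilizer (mapC g σ)).comap r with hY
    have hstab : (chainStabilizer (mapC g σ)).comap g = chainStabilizer σ := by
      rw [stab_map hgs hpg hσ]
      exact sup_eq_right.mpr (hst σ)
    have hfY : ∀ t : T, t ∈ Y ↔ f t ∈ chainStabilizer σ := by
      intro t
      rw [← hstab]
      change r t ∈ chainStabilizer (mapC g σ) ↔ g (f t) ∈ chainStabilizer (mapC g σ)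
      rw [hg]
    have hjY : ∀ l, j l ∈ Y := by
      intro l
      rw [hY, Subgroup.mem_comap]
      have : j l ∈ r.ker := by
        rw [hk]
        exact ⟨l, rfl⟩
      rw [MonoidHom.mem_ker.mp this]
      exact one_mem _
    let fY : Y →* chainStabilizer σ := (f.comp Y.subtype).codRestrict _ fun y => (hfY y).mp y.2
    have hfYs : Function.Surjective fY := by
      rintro ⟨x, hx⟩
      obtain ⟨t, rfl⟩ := hf x
      exact ⟨⟨t, (hfY t).mpr hx⟩, rfl⟩
    have hjYi : Function.Injective (j.codRestrict Y hjY) := by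
      intro a b hab
      exact hj (congrArg Subtype.val hab)
    have hnY : (j.codRestrict Y hjY).range.Normal := by
      constructor
      rintro _ ⟨l, rfl⟩ y
      obtain ⟨m, hm⟩ := hn.conj_mem (j l) ⟨l, rfl⟩ (y : T)
      exact ⟨m, Subtype.ext hm⟩
    have hkY : fY.ker ≤ (j.codRestrict Y hjY).range := by
      intro y hy
      have h1 : f (y : T) = 1 := congrArg Subtype.val (MonoidHom.mem_ker.mp hy)
      obtain ⟨l, hl⟩ := hfr h1
      exact ⟨l, Subtype.ext hl⟩
    have h1 := cl_sum_infl (1 : ℕ →* ℚ) (j.codRestrict Y hjY) hjYi hnY fY hfYs hkY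
    have h0 : (Nat.card Y : ℚ) ≠ 0 := by exact_mod_cast Nat.card_pos.ne'
    have h3 : (Nat.card Y : ℚ) * kk (chainStabilizer σ) = (Nat.card Y : ℚ) * F (mapC g σ) := by
      refine h1.trans ?_
      rw [hF]
      simp only
      rw [Finset.mul_sum]
      refine Finset.sum_congr ?_ fun μ hμ => ?_
      · rw [← hfilt]
        ext θ
        simp only [Finset.mem_filter]
        refine and_congr_right fun _ => forall_congr' fun l => ?_
        have h2 : fY (j.codRestrict Y hjY l) = 1 ↔ f (j l) = 1 := by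
          rw [Subtype.ext_iff]
          rfl
        rw [h2]
      rw [koS_pos j μ hjY]
      unfold ko
      congr 2
      refine Nat.card_congr (Equiv.subtypeUnivEquiv fun t l l' hll => ?_)
      exact hfix μ hμ t l l' (congrArg Subtype.val hll)
    exact mul_left_cancel₀ h0 h3
  have ha : (Nat.card K : ℚ) * AA p X =
      ∑ μ ∈ (Irr L).filter (fun μ => ∀ k ∈ K, μ k = 1), RA p r j μ := by
    have h1 : AA p X = CS p (fun σ : Set (Subgroup X) =>
        (Nat.card (chainStabilizer σ) : ℚ) * F (mapC g σ)) := by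
      unfold AA
      exact CS_congr fun σ hσ => by rw [hkk σ hσ]
    rw [h1, CS_quot hgs hpg F, CS_mul]
    unfold RA
    rw [← CS_sum]
    refine CS_congr fun τ _ => ?_
    rw [hF]
    simp only
    rw [card_comap r hr, hk, ← Nat.card_congr (MonoidHom.ofInjective hj).toEquiv, ← hcard,
      Finset.mul_sum, Finset.mul_sum]
    refine Finset.sum_congr rfl fun μ _ => ?_
    push_cast
    ring
  unfold DD DR
  rw [Finset.sum_sub_distrib, ← hz, ← ha, hTX]
  push_cast
  ring

/-- Galois conjugate characters -/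
theorem DR_pow {p : ℕ} {L T Q : Type} [Group L] [Finite L] [Group T] [Finite T] [Group Q]
    (r : T →* Q) (j : L →* T) (nu : L →* ℂˣ) (m n : ℕ) (hm : 0 < m) (h : nu ^ m = 1)
    (hn : Nat.Coprime n m) :
    DR p r j (fun a => (((nu ^ n) a : ℂˣ) : ℂ)) = DR p r j (fun a => ((nu a : ℂˣ) : ℂ)) := by
  have h1 : zo p j (fun a => (((nu ^ n) a : ℂˣ) : ℂ)) = zo p j (fun a => ((nu a : ℂˣ) : ℂ)) := by
    unfold zo
    rw [K3h85.IN.t_S4b (Polynomial ℚ) (wp p) L T j nu m n hm h hn]
  have h2 : RA p r j (fun a => (((nu ^ n) a : ℂˣ) : ℂ)) =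
      RA p r j (fun a => ((nu a : ℂˣ) : ℂ)) := by
    unfold RA
    refine CS_congr fun τ _ => ?_
    congr 1
    unfold koS
    split_ifs with h1
    · exact K3h85.IN.t_S4b ℚ (1 : ℕ →* ℚ) L _ _ nu m n hm h hn
    · rfl
  unfold DR
  rw [h1, h2]

/-- **Central inversion.** -/
theorem DR_zero {p : ℕ} [hp : Fact p.Prime] {L T Q : Type} [CommGroup L] [Fintype L] [Group T]
    [Finite T] [Group Q] (j : L →* T) (hj : Function.Injective j) (r : T →* Q)
    (hr : Function.Surjective r) (hk : r.ker = j.range) (hpL : ¬ p ∣ Nat.card L)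
    (lam : L →* ℂˣ) (hinv : ∀ t, fixes j (fun l => ((lam l : ℂˣ) : ℂ)) t)
    (hyp : ∀ (K : Subgroup T) [K.Normal], K ≤ j.range → lam.ker.map j ≤ K → DD p (T ⧸ K) = 0) :
    DR p r j (fun l => ((lam l : ℂˣ) : ℂ)) = 0 := by
  have : Finite (L →* ℂˣ) := K3h3.IN.finite_hom L
  refine Cyc.t_S4c (L →* ℂˣ) ℚ (fun n q hn hq => ?_)
    (fun mu => DR p r j (fun l => ((mu l : ℂˣ) : ℂ))) ?_ lam ?_
  · rw [nsmul_eq_mul] at hq
    rcases mul_eq_zero.mp hq with h | h
    · exact absurd h (Nat.cast_ne_zero.mpr hn)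
    · exact h
  · intro x n hn
    exact DR_pow r j x (orderOf x) n (orderOf_pos x) (pow_orderOf_eq_one x) hn
  · intro x hx
    obtain ⟨k, rfl⟩ := Subgroup.mem_zpowers_iff.mp hx
    have hle : lam.ker ≤ (lam ^ k).ker := by
      intro a ha
      rw [MonoidHom.mem_ker] at ha ⊢
      change (lam a) ^ k = 1
      rw [ha, one_zpow]
    have hcj : ∀ (t : T) (l : L), ∃ m ∈ (lam ^ k).ker, t * j l * t⁻¹ = j (m * l) := by
      intro t l
      have hn : j.range.Normal := by
        rw [← hk]
        infer_instance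
      obtain ⟨l', hl'⟩ := hn.conj_mem (j l) ⟨l, rfl⟩ t
      refine ⟨l' * l⁻¹, ?_, by rw [inv_mul_cancel_right, hl']⟩
      have h1 : lam l' = lam l := Units.ext (hinv t l l' hl'.symm)
      rw [MonoidHom.mem_ker]
      change (lam (l' * l⁻¹)) ^ k = 1
      rw [map_mul, map_inv, h1, mul_inv_cancel, one_zpow]
    set K : Subgroup T := (lam ^ k).ker.map j with hK
    haveI hKn : K.Normal := by
      constructor
      rintro _ ⟨l, hl, rfl⟩ t
      obtain ⟨m, hm, hml⟩ := hcj t l
      exact ⟨m * l, (lam ^ k).ker.mul_mem hm hl, hml.symm⟩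
    have hKr : K ≤ j.range := by
      rintro _ ⟨l, -, rfl⟩
      exact ⟨l, rfl⟩
    have h1 := quot_sum (p := p) j hj r hr hk hpL (lam ^ k).ker (QuotientGroup.mk' K)
      (QuotientGroup.mk'_surjective K) (QuotientGroup.ker_mk' K)
      (QuotientGroup.lift K r (by rw [hk]; exact hKr)) (fun t => rfl) (by
        intro t l
        obtain ⟨m, hm, hml⟩ := hcj t l
        rw [hml, map_mul, map_mul]
        have h2 : QuotientGroup.mk' K (j m) = 1 := by
          rw [QuotientGroup.mk'_apply, QuotientGroup.eq_one_iff]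
          exact ⟨m, hm, rfl⟩
        rw [h2, one_mul])
    rw [hyp K hKr (Subgroup.map_mono hle), mul_zero] at h1
    rw [h1, ← finsum_mem_coe_finset]
    refine finsum_mem_eq_of_bijOn (fun (y : L →* ℂˣ) => fun a : L => ((y a : ℂˣ) : ℂ))
      ⟨?_, ?_, ?_⟩ (fun y _ => rfl)
    · intro y hy
      simp only [Finset.coe_filter, Set.mem_ofPred_eq]
      refine ⟨mem_Irr.mpr (lin_irr y), ?_⟩
      intro a ha
      obtain ⟨m, rfl⟩ := Subgroup.mem_zpowers_iff.mp hy
      rw [MonoidHom.mem_ker] at ha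
      have : ((lam ^ k) ^ m) a = ((lam ^ k) a) ^ m := rfl
      simp only [this, ha, one_zpow, Units.val_one]
    · intro y _ y' _ h
      ext a
      exact congrFun h a
    · intro θ hθ
      simp only [Finset.coe_filter, Set.mem_ofPred_eq] at hθ
      obtain ⟨hθ1, hθ2⟩ := hθ
      obtain ⟨l, rfl⟩ := lin_of_comm (mem_Irr.mp hθ1)
      refine ⟨l, K3h51.IN.t_S4d L (lam ^ k) l ?_, rfl⟩
      intro a ha
      rw [MonoidHom.mem_ker]
      exact Units.ext (hθ2 a ha)

/-- **The reduction for an abelian normal `p'`-subgroup.** -/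
theorem ab_reduction {p : ℕ} [hp : Fact p.Prime] {L G : Type} [CommGroup L] [Finite L] [Group G]
    [Finite G] (j : L →* G) (hj : Function.Injective j) (hn : j.range.Normal)
    (hpL : ¬ p ∣ Nat.card L)
    (hyp : ∀ (lam : L →* ℂˣ) (K : Subgroup (stb j hj hn (fun l => ((lam l : ℂˣ) : ℂ)))) [K.Normal],
      K ≤ (jS j hj hn (fun l => ((lam l : ℂˣ) : ℂ))).range →
      lam.ker.map (jS j hj hn (fun l => ((lam l : ℂˣ) : ℂ))) ≤ K →
      KRC p (stb j hj hn (fun l => ((lam l : ℂˣ) : ℂ)) ⧸ K)) : KRC p G := by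
  haveI := Fintype.ofFinite L
  haveI := hn
  rw [krc_iff_DD, DD_clifford j hj (QuotientGroup.mk' j.range) (QuotientGroup.mk'_surjective _)
    (QuotientGroup.ker_mk' _) hn hpL]
  refine Finset.sum_eq_zero fun θ hθ => ?_
  obtain ⟨lam, rfl⟩ := lin_of_comm (mem_Irr.mp hθ)
  set θ : L → ℂ := fun l => ((lam l : ℂˣ) : ℂ) with hθd
  have hjS : Function.Injective (jS j hj hn θ) := by
    intro a b hab
    exact hj (congrArg Subtype.val hab)
  refine DR_zero (jS j hj hn θ) hjS _ ((QuotientGroup.mk' j.range).subgroupMap_surjective _) ?_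
    hpL lam ?_ ?_
  · ext x
    rw [MonoidHom.mem_ker]
    constructor
    · intro hx
      have h1 : QuotientGroup.mk' j.range (x : G) = 1 := congrArg Subtype.val hx
      rw [QuotientGroup.mk'_apply, QuotientGroup.eq_one_iff] at h1
      obtain ⟨l, hl⟩ := h1
      exact ⟨l, Subtype.ext hl⟩
    · rintro ⟨l, rfl⟩
      apply Subtype.ext
      change QuotientGroup.mk' j.range (j l) = 1
      rw [QuotientGroup.mk'_apply, QuotientGroup.eq_one_iff]
      exact ⟨l, rfl⟩
  · intro t l l' hll
    exact t.2 l l' (congrArg Subtype.val hll)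
  · intro K _ hK1 hK2
    rw [← krc_iff_DD]
    exact hyp lam K hK1 hK2

end Pool.Agent.H93.KR
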