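import Pool.Agent.H93.KR.Min

/-!
# Reduction to affine primitive groups
-/

set_option autoImplicit false
set_option linter.unusedSectionVars false
set_option linter.style.haveILetI false

open scoped Classical BigOperators

noncomputable section

namespace Pool.Agent.H93.KR

open Pool.Agent.Y63.KR

/-- `X` acts faithfully and irreducibly on the nontrivial elementary abelian `l`-group `N` -/
structure Aff (l : ℕ) {N X : Type} [CommGroup N] [Group X] (φ : X →* MulAut N) : Prop where
  exp : ∀ n : N, n ^ l = 1
  nontriv : Nontrivial N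
  faithful : Function.Injective φ
  irred : ∀ M : Subgroup N, (∀ x, ∀ m ∈ M, φ x m ∈ M) → M = ⊥ ∨ M = ⊤

/-- the action on a submodule of the group algebra -/
def modAct {k : Type} [Field k] {G : Type} [Group G]
    (S : Submodule (MonoidAlgebra k G) (MonoidAlgebra k G)) : G →* MulAut (Multiplicative S) where
  toFun g :=
    { toFun := fun v => Multiplicative.ofAdd (MonoidAlgebra.of k G g • Multiplicative.toAdd v)
      invFun := fun v => Multiplicative.ofAdd (MonoidAlgebra.of k G g⁻¹ • Multiplicative.toAdd v)
      left_inv := fun v => by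
        change Multiplicative.ofAdd (MonoidAlgebra.of k G g⁻¹ • MonoidAlgebra.of k G g •
          Multiplicative.toAdd v) = v
        rw [smul_smul, ← map_mul, inv_mul_cancel, map_one, one_smul]
        rfl
      right_inv := fun v => by
        change Multiplicative.ofAdd (MonoidAlgebra.of k G g • MonoidAlgebra.of k G g⁻¹ •
          Multiplicative.toAdd v) = v
        rw [smul_smul, ← map_mul, mul_inv_cancel, map_one, one_smul]
        rfl
      map_mul' := fun v w => by
        change Multiplicative.ofAdd (MonoidAlgebra.of k G g •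
          (Multiplicative.toAdd v + Multiplicative.toAdd w)) = _
        rw [smul_add]
        rfl }
  map_one' := by
    refine MulEquiv.ext fun v => ?_
    change Multiplicative.ofAdd (MonoidAlgebra.of k G 1 • Multiplicative.toAdd v) = v
    rw [map_one, one_smul]
    rfl
  map_mul' a b := by
    refine MulEquiv.ext fun v => ?_
    change Multiplicative.ofAdd (MonoidAlgebra.of k G (a * b) • Multiplicative.toAdd v) =
      Multiplicative.ofAdd (MonoidAlgebra.of k G a • MonoidAlgebra.of k G b •
        Multiplicative.toAdd v)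
    rw [map_mul, mul_smul]

theorem modAct_apply {k : Type} [Field k] {G : Type} [Group G]
    (S : Submodule (MonoidAlgebra k G) (MonoidAlgebra k G)) (g : G) (v : Multiplicative S) :
    Multiplicative.toAdd (modAct S g v) = MonoidAlgebra.of k G g • Multiplicative.toAdd v := rfl

/-- **A faithful irreducible module gives an affine primitive group.** -/
theorem exists_aff {l : ℕ} [hl : Fact l.Prime] {G : Type} [Group G] [Finite G]
    (hlG : ¬ l ∣ Nat.card G)
    (hab : ∀ A : Subgroup G, A.Normal → (∀ a ∈ A, ∀ b ∈ A, a * b = b * a) →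
      A ≤ Subgroup.center G ∧ IsCyclic A) :
    ∃ (N : Type) (_ : CommGroup N) (_ : Finite N) (φ : G →* MulAut N), Aff l φ := by
  haveI : NeZero (Nat.card G : ZMod l) := ⟨by
    rw [Ne, ZMod.natCast_eq_zero_iff]
    exact hlG⟩
  obtain ⟨S, hS, hf⟩ := exists_faithful (k := ZMod l) hab
  haveI : Finite (MonoidAlgebra (ZMod l) G) := by
    haveI : NeZero l := ⟨hl.out.ne_zero⟩
    haveI : Finite (G →₀ ZMod l) := Finite.of_injective (fun f : G →₀ ZMod l => (f : G → ZMod l))
      DFunLike.coe_injective
    exact Finite.of_injective _ (MonoidAlgebra.coeff_injective (R := ZMod l) (M := G))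
  haveI : Finite (Multiplicative S) := inferInstanceAs (Finite S)
  refine ⟨Multiplicative S, inferInstance, inferInstance, modAct S, ?_, ?_, ?_, ?_⟩
  · intro v
    have h1 : l • Multiplicative.toAdd v = 0 := by
      apply Subtype.ext
      change l • ((Multiplicative.toAdd v : S) : MonoidAlgebra (ZMod l) G) = 0
      rw [← Nat.cast_smul_eq_nsmul (ZMod l), ZMod.natCast_self, zero_smul]
    exact h1
  · exact IsSimpleModule.nontrivial (MonoidAlgebra (ZMod l) G) S
  · rw [injective_iff_map_eq_one]
    intro g hg
    apply hf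
    intro v hv
    have h1 : modAct S g (Multiplicative.ofAdd ⟨v, hv⟩) = Multiplicative.ofAdd ⟨v, hv⟩ := by
      rw [hg]
      rfl
    exact congrArg Subtype.val h1
  · intro M hM
    let M' : Submodule (MonoidAlgebra (ZMod l) G) S :=
      { carrier := {v | Multiplicative.ofAdd v ∈ M}
        zero_mem' := M.one_mem
        add_mem' := fun {a b} ha hb => M.mul_mem ha hb
        smul_mem' := by
          intro c v hv
          induction c using MonoidAlgebra.induction_on with
          | of g => exact hM g _ hv
          | add a b ha hb =>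
            have h1 : (a + b) • v = a • v + b • v := add_smul a b v
            change Multiplicative.ofAdd ((a + b) • v) ∈ M
            rw [h1]
            exact M.mul_mem ha hb
          | smul r a ha =>
            have h1 : (r • a) • v = r.val • (a • v) := by
              apply Subtype.ext
              change (r • a) * (v : MonoidAlgebra (ZMod l) G) =
                r.val • (a * (v : MonoidAlgebra (ZMod l) G))
              rw [smul_mul_assoc]
              conv_lhs => rw [← ZMod.natCast_zmod_val r]
              rw [Nat.cast_smul_eq_nsmul]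
            change Multiplicative.ofAdd ((r • a) • v) ∈ M
            rw [h1]
            exact M.pow_mem ha _ }
    rcases (hS.toIsSimpleOrder.eq_bot_or_eq_top M') with h | h
    · left
      rw [eq_bot_iff]
      intro v hv
      have h1 : Multiplicative.toAdd v ∈ M' := hv
      rw [h, Submodule.mem_bot] at h1
      rw [Subgroup.mem_bot]
      exact h1
    · right
      rw [eq_top_iff]
      intro v _
      have h1 : Multiplicative.toAdd v ∈ M' := by
        rw [h]
        trivial
      exact h1

/-- **Reduction to affine primitive groups.** -/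
theorem affine {p : ℕ} [hp : Fact p.Prime]
    (H : ∀ (X : Type) [Group X] [Finite X],
      (∀ A : Subgroup X, A.Normal → (∀ a ∈ A, ∀ b ∈ A, a * b = b * a) →
        A ≤ Subgroup.center X ∧ IsCyclic A ∧ ¬ p ∣ Nat.card A) →
      (∀ K : Subgroup X, K.Normal → (∃ k, K.index = p ^ k) → K = ⊤) →
      ∃ (l : ℕ) (N : Type) (_ : CommGroup N) (_ : Finite N) (φ : X →* MulAut N),
        l.Prime ∧ p < l ∧ Aff l φ ∧ KRC p (N ⋊[φ] X)) :
    ∀ (n : ℕ) (G : Type) [Group G] [Finite G], Nat.card G = n → KRC p G := by
  intro n
  induction n using Nat.strong_induction_on with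
  | _ n ih =>
    intro G _ _ hn
    have hmin : ∀ (X : Type) [Group X] [Finite X], Nat.card X < Nat.card G → KRC p X :=
      fun X _ _ hX => ih _ (hn ▸ hX) X rfl
    by_cases hU : ∃ U : Subgroup G, U.Normal ∧ IsPGroup p U ∧ U ≠ ⊥
    · obtain ⟨U, h1, h2, h3⟩ := hU
      exact krc_normal h1 h2 h3
    by_cases hK : ∃ K : Subgroup G, K.Normal ∧ (∃ k, K.index = p ^ k) ∧ K ≠ ⊤
    · obtain ⟨K, h1, ⟨k, h2⟩, h3⟩ := hK
      exact index_case hmin h1 (IsPGroup.of_card (n := k) h2) h3
    by_cases hA : ∃ A : Subgroup G, A.Normal ∧ (∀ a ∈ A, ∀ b ∈ A, a * b = b * a) ∧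
        ¬ (A ≤ Subgroup.center G ∧ IsCyclic A)
    · obtain ⟨A, h1, h2, h3⟩ := hA
      exact ab_case hmin h1 h2 (fun h4 => hU (exists_pnormal h1 h2 h4)) h3
    push Not at hA
    have hab : ∀ A : Subgroup G, A.Normal → (∀ a ∈ A, ∀ b ∈ A, a * b = b * a) →
        A ≤ Subgroup.center G ∧ IsCyclic A ∧ ¬ p ∣ Nat.card A := by
      intro A h1 h2
      have h3 := hA A h1 h2
      exact ⟨h3.1, h3.2, fun h4 => hU (exists_pnormal h1 h2 h4)⟩
    obtain ⟨l, N, _, _, φ, hlp, hpl, hφ, hkrc⟩ := H G hab fun K h1 h2 => by
      by_contra h3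
      exact hK ⟨K, h1, h2, h3⟩
    refine semi_case hmin φ ?_ hkrc
    intro h
    obtain ⟨x, hx⟩ := exists_prime_orderOf_dvd_card' p h
    have h1 : orderOf x ∣ l := orderOf_dvd_of_pow_eq_one (hφ.exp x)
    rw [hx] at h1
    have := (Nat.prime_dvd_prime_iff_eq hp.out hlp).mp h1
    omega

/-- existence of large primes -/
theorem exists_aff_large {p : ℕ} {G : Type} [Group G] [Finite G]
    (hab : ∀ A : Subgroup G, A.Normal → (∀ a ∈ A, ∀ b ∈ A, a * b = b * a) →
      A ≤ Subgroup.center G ∧ IsCyclic A) :
    ∃ (l : ℕ) (N : Type) (_ : CommGroup N) (_ : Finite N) (φ : G →* MulAut N),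
      l.Prime ∧ p < l ∧ Nat.card G < l ∧ Aff l φ := by
  obtain ⟨l, hl, hlp⟩ := Nat.exists_infinite_primes (max (Nat.card G) p + 1)
  haveI : Fact l.Prime := ⟨hlp⟩
  have hlG : Nat.card G < l := by
    have := le_max_left (Nat.card G) p
    omega
  have hpl : p < l := by
    have := le_max_right (Nat.card G) p
    omega
  obtain ⟨N, i1, i2, φ, hφ⟩ := exists_aff (l := l) (G := G)
    (fun h => absurd (Nat.le_of_dvd Nat.card_pos h) (by omega)) hab
  exact ⟨l, N, i1, i2, φ, hlp, hpl, hlG, hφ⟩

end Pool.Agent.H93.KR
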