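import Pool.Agent.Y63.KR.Levels

/-!
# Sums over chains of `p`-subgroups and quotients by normal `p'`-subgroups
-/

set_option autoImplicit false
set_option linter.unusedSectionVars false

open scoped Classical BigOperators

noncomputable section

namespace Pool.Agent.H93.KR

open Pool.Agent.Y63.KR

/-- the chains of nontrivial `p`-subgroups -/
abbrev Ch (p : ℕ) (G : Type) [Group G] : Type := {σ : Set (Subgroup G) // IsPChain p σ}

/-- the alternating sum over all chains -/
def CS (p : ℕ) {G : Type} [Group G] (F : Set (Subgroup G) → ℚ) : ℚ :=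
  ∑ᶠ σ : Ch p G, (-1) ^ σ.1.ncard * F σ.1

theorem CS_eq {p : ℕ} {G : Type} [Group G] [Fintype (Ch p G)] (F : Set (Subgroup G) → ℚ) :
    CS p F = ∑ σ : Ch p G, (-1) ^ σ.1.ncard * F σ.1 := finsum_eq_sum_of_fintype _

theorem CS_congr {p : ℕ} {G : Type} [Group G] {F F' : Set (Subgroup G) → ℚ}
    (h : ∀ σ, IsPChain p σ → F σ = F' σ) : CS p F = CS p F' :=
  finsum_congr fun σ => by rw [h σ.1 σ.2]

section

variable {p : ℕ} {G Q : Type} [Group G] [Group Q]

/-- the image of a chain -/
def mapC (f : G →* Q) (σ : Set (Subgroup G)) : Set (Subgroup Q) := (Subgroup.map f) '' σ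

theorem mapC_empty (f : G →* Q) : mapC f ∅ = ∅ := Set.image_empty _

theorem map_conjSub (f : G →* Q) (g : G) (P : Subgroup G) :
    (conjSub g P).map f = conjSub (f g) (P.map f) := by
  unfold conjSub
  rw [Subgroup.map_map, Subgroup.map_map]
  congr 1
  ext x
  simp

theorem mapC_conj (f : G →* Q) (g : G) (σ : Set (Subgroup G)) :
    mapC f (conjSub g '' σ) = conjSub (f g) '' mapC f σ := by
  unfold mapC
  rw [← Set.image_comp, ← Set.image_comp]
  exact Set.image_congr fun P _ => map_conjSub f g P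

/-- elements of a chain stabiliser act trivially on the chain -/
theorem conj_image_of_mem {σ : Set (Subgroup G)} {g : G} (h : g ∈ chainStabilizer σ) :
    conjSub g '' σ = σ := by
  rw [mem_chainStabilizer] at h
  ext P
  constructor
  · rintro ⟨R, hR, rfl⟩
    rw [h R hR]
    exact hR
  · intro hP
    exact ⟨P, hP, h P hP⟩

theorem mem_of_conj_image [Finite G] {σ : Set (Subgroup G)} (hσ : IsChain (· ≤ ·) σ) {g : G}
    (h : conjSub g '' σ = σ) : g ∈ chainStabilizer σ := by
  rw [mem_chainStabilizer]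
  intro P hP
  have hgP : conjSub g P ∈ σ := by
    rw [← h]
    exact ⟨P, hP, rfl⟩
  have hcard : Nat.card (conjSub g P) = Nat.card P :=
    Nat.card_congr (Subgroup.equivMapOfInjective _ _ (MulAut.conj g).injective).toEquiv.symm
  rcases hσ.total hgP hP with h4 | h4
  · exact Subgroup.eq_of_le_of_card_ge h4 hcard.ge
  · exact (Subgroup.eq_of_le_of_card_ge h4 hcard.le).symm

theorem card_comap [Finite G] (f : G →* Q) (hf : Function.Surjective f) (H : Subgroup Q) :
    Nat.card (H.comap f) = Nat.card f.ker * Nat.card H := by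
  haveI : Finite Q := Finite.of_surjective f hf
  have h1 := Subgroup.index_comap_of_surjective H hf
  have h2 := (H.comap f).card_mul_index
  have h3 := H.card_mul_index
  have h4 : Nat.card f.ker * Nat.card Q = Nat.card G := by
    rw [← Subgroup.card_mul_index f.ker, Subgroup.index_ker, MonoidHom.range_eq_top.mpr hf,
      Subgroup.card_top]
  rw [h1, ← h4, ← h3, ← mul_assoc] at h2
  exact Nat.eq_of_mul_eq_mul_right (Nat.pos_of_ne_zero Subgroup.FiniteIndex.index_ne_zero) h2

end

section

variable {p : ℕ} [hp : Fact p.Prime] {G Q : Type} [Group G] [Finite G] [Group Q]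

theorem inf_ker {f : G →* Q} (hk : ¬ p ∣ Nat.card f.ker) {P : Subgroup G} (hP : IsPGroup p P) :
    P ⊓ f.ker = ⊥ := by
  apply Subgroup.inf_eq_bot_of_coprime
  obtain ⟨n, hn⟩ := IsPGroup.iff_card.mp hP
  rw [hn]
  exact Nat.Coprime.pow_left _ ((Nat.Prime.coprime_iff_not_dvd hp.out).mpr hk)

theorem injOn {f : G →* Q} (hk : ¬ p ∣ Nat.card f.ker) {P : Subgroup G} (hP : IsPGroup p P) :
    Set.InjOn f P := by
  intro x hx y hy hxy
  have h1 : x * y⁻¹ ∈ P ⊓ f.ker := by
    refine Subgroup.mem_inf.mpr ⟨P.mul_mem hx (P.inv_mem hy), ?_⟩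
    rw [MonoidHom.mem_ker, map_mul, map_inv, hxy, mul_inv_cancel]
  rw [inf_ker hk hP, Subgroup.mem_bot, mul_inv_eq_one] at h1
  exact h1

theorem card_map {f : G →* Q} (hk : ¬ p ∣ Nat.card f.ker) {P : Subgroup G} (hP : IsPGroup p P) :
    Nat.card (P.map f) = Nat.card P :=
  Nat.card_image_of_injOn (injOn hk hP)

theorem map_chain {f : G →* Q} (hk : ¬ p ∣ Nat.card f.ker) {σ : Set (Subgroup G)}
    (hσ : IsPChain p σ) : IsPChain p (mapC f σ) := by
  refine ⟨?_, ?_, ?_⟩
  · rintro _ ⟨P, hP, rfl⟩ _ ⟨R, hR, rfl⟩ _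
    rcases hσ.chain.total hP hR with h | h
    · exact Or.inl (Subgroup.map_mono h)
    · exact Or.inr (Subgroup.map_mono h)
  · rintro _ ⟨P, hP, rfl⟩
    exact (hσ.isPGroup P hP).map f
  · rintro _ ⟨P, hP, rfl⟩ h
    apply hσ.ne_bot P hP
    have h1 := card_map hk (hσ.isPGroup P hP)
    rw [h, Subgroup.card_bot] at h1
    exact Subgroup.eq_bot_of_card_eq P h1.symm

theorem map_injOn {f : G →* Q} (hk : ¬ p ∣ Nat.card f.ker) {σ : Set (Subgroup G)}
    (hσ : IsPChain p σ) : Set.InjOn (Subgroup.map f) σ := by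
  have key : ∀ P ∈ σ, ∀ R ∈ σ, P ≤ R → P.map f = R.map f → P = R := by
    intro P hP R hR h h1
    refine Subgroup.eq_of_le_of_card_ge h ?_
    rw [← card_map hk (hσ.isPGroup P hP), ← card_map hk (hσ.isPGroup R hR), h1]
  intro P hP R hR h
  rcases hσ.chain.total hP hR with h1 | h1
  · exact key P hP R hR h1 h
  · exact (key R hR P hP h1 h.symm).symm

theorem ncard_mapC {f : G →* Q} (hk : ¬ p ∣ Nat.card f.ker) {σ : Set (Subgroup G)}
    (hσ : IsPChain p σ) : (mapC f σ).ncard = σ.ncard :=
  Set.ncard_image_of_injOn (map_injOn hk hσ)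

theorem exists_greatest {σ : Set (Subgroup G)} (hσ : IsChain (· ≤ ·) σ) (hne : σ.Nonempty) :
    ∃ P ∈ σ, ∀ R ∈ σ, R ≤ P := by
  have : Finite (Subgroup G) := inferInstance
  obtain ⟨P, hP⟩ := (Set.toFinite σ).exists_maximal hne
  refine ⟨P, hP.1, fun R hR => ?_⟩
  rcases hσ.total hR hP.1 with h | h
  · exact h
  · exact hP.2 hR h

/-- subgroups of a `p`-group with equal images -/
theorem eq_of_map {f : G →* Q} (hk : ¬ p ∣ Nat.card f.ker) {P : Subgroup G} (hP : IsPGroup p P)
    {R S : Subgroup G} (hR : R ≤ P) (hS : S ≤ P) (h : R.map f = S.map f) : R = S := by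
  apply le_antisymm
  · intro x hx
    have h1 : f x ∈ S.map f := by rw [← h]; exact ⟨x, hx, rfl⟩
    obtain ⟨y, hy, hxy⟩ := h1
    rwa [← injOn hk hP (hS hy) (hR hx) hxy]
  · intro x hx
    have h1 : f x ∈ R.map f := by rw [h]; exact ⟨x, hx, rfl⟩
    obtain ⟨y, hy, hxy⟩ := h1
    rwa [← injOn hk hP (hR hy) (hS hx) hxy]

/-- a `p`-subgroup with the same image as `P₀` is conjugate to `P₀` under the kernel -/
theorem conj_ker {f : G →* Q} (hk : ¬ p ∣ Nat.card f.ker) {P₀ P : Subgroup G}
    (h0 : IsPGroup p P₀) (h : IsPGroup p P) (he : P₀.map f = P.map f) :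
    ∃ l ∈ f.ker, conjSub l P₀ = P := by
  set M : Subgroup G := (P.map f).comap f with hM
  have hPM : P ≤ M := Subgroup.le_comap_map f P
  have hP0M : P₀ ≤ M := by
    rw [hM, ← he]
    exact Subgroup.le_comap_map f P₀
  have hfr : Function.Surjective f.rangeRestrict := f.rangeRestrict_surjective
  have hcM : Nat.card M = Nat.card f.ker * Nat.card P := by
    have h1 : M = ((P.map f).subgroupOf f.range).comap f.rangeRestrict := by
      ext x
      rw [hM, Subgroup.mem_comap, Subgroup.mem_comap, Subgroup.mem_subgroupOf]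
      rfl
    rw [h1, card_comap f.rangeRestrict hfr, MonoidHom.ker_rangeRestrict,
      Nat.card_congr (Subgroup.subgroupOfEquivOfLe (Subgroup.map_le_range f P)).toEquiv,
      card_map hk h]
  have hcP0 : Nat.card P₀ = Nat.card P := by rw [← card_map hk h0, he, card_map hk h]
  obtain ⟨n, hn⟩ := IsPGroup.iff_card.mp h
  have hfac : (Nat.card M).factorization p = n := by
    rw [hcM, hn, Nat.factorization_mul Nat.card_pos.ne' (pow_ne_zero _ hp.out.ne_zero)]
    rw [Finsupp.add_apply, Nat.factorization_eq_zero_of_not_dvd hk, zero_add,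
      Nat.Prime.factorization_pow hp.out, Finsupp.single_eq_same]
  have c1 : Nat.card (P.subgroupOf M) = p ^ (Nat.card M).factorization p := by
    rw [hfac, ← hn]
    exact Nat.card_congr (Subgroup.subgroupOfEquivOfLe hPM).toEquiv
  have c2 : Nat.card (P₀.subgroupOf M) = p ^ (Nat.card M).factorization p := by
    rw [hfac, ← hn, ← hcP0]
    exact Nat.card_congr (Subgroup.subgroupOfEquivOfLe hP0M).toEquiv
  let S : Sylow p M := Sylow.ofCard (P.subgroupOf M) c1
  let S₀ : Sylow p M := Sylow.ofCard (P₀.subgroupOf M) c2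
  obtain ⟨m, hm⟩ := MulAction.exists_smul_eq M S₀ S
  -- the conjugating element
  have h2 : conjSub (m : G) P₀ = P := by
    have h3 : ∀ x : M, x ∈ P.subgroupOf M ↔ m⁻¹ * x * m ∈ P₀.subgroupOf M := by
      intro x
      have h4 : (S : Subgroup M) = P.subgroupOf M := rfl
      have h5 : (S₀ : Subgroup M) = P₀.subgroupOf M := rfl
      rw [← h4, ← hm, Sylow.coe_subgroup_smul, Subgroup.mem_pointwise_smul_iff_inv_smul_mem, h5]
      change (MulAut.conj m)⁻¹ • x ∈ _ ↔ _
      rw [← map_inv]
      change m⁻¹ * x * m⁻¹⁻¹ ∈ _ ↔ _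
      rw [inv_inv]
    ext x
    rw [mem_conjSub]
    constructor
    · intro hx
      have hxM : x ∈ M := by
        have h7 := M.mul_mem (M.mul_mem m.2 (hP0M hx)) (M.inv_mem m.2)
        have h8 : (m : G) * ((m : G)⁻¹ * x * m) * (m : G)⁻¹ = x := by group
        rwa [h8] at h7
      have := (h3 ⟨x, hxM⟩).mpr (by
        rw [Subgroup.mem_subgroupOf]
        exact hx)
      exact Subgroup.mem_subgroupOf.mp this
    · intro hx
      have := (h3 ⟨x, hPM hx⟩).mp (Subgroup.mem_subgroupOf.mpr hx)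
      exact Subgroup.mem_subgroupOf.mp this
  -- adjust by an element of `P₀`
  have h9 : f (m : G) ∈ P₀.map f := by
    rw [he]
    exact m.2
  obtain ⟨x, hx, hxm⟩ := h9
  refine ⟨m * x⁻¹, ?_, ?_⟩
  · rw [MonoidHom.mem_ker, map_mul, map_inv, hxm, mul_inv_cancel]
  · rw [conjSub_mul]
    have h10 : conjSub x⁻¹ P₀ = P₀ := by
      rw [conjSub_eq_iff]
      exact Subgroup.le_normalizer (P₀.inv_mem hx)
    rw [h10, h2]

/-- chains with the same image are conjugate under the kernel -/
theorem conj_ker_chain {f : G →* Q} (hk : ¬ p ∣ Nat.card f.ker) {σ₀ σ : Set (Subgroup G)}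
    (h0 : IsPChain p σ₀) (h : IsPChain p σ) (he : mapC f σ₀ = mapC f σ) :
    ∃ l ∈ f.ker, conjSub l '' σ₀ = σ := by
  rcases σ.eq_empty_or_nonempty with hem | hne
  · refine ⟨1, one_mem _, ?_⟩
    have : σ₀ = ∅ := by
      rw [hem, mapC_empty] at he
      exact Set.image_eq_empty.mp he
    rw [hem, this, Set.image_empty]
  · obtain ⟨P, hP, hPg⟩ := exists_greatest h.chain hne
    have h1 : P.map f ∈ mapC f σ₀ := by rw [he]; exact ⟨P, hP, rfl⟩
    obtain ⟨P₀, hP₀, hPP⟩ := h1
    have hg0 : ∀ R ∈ σ₀, R ≤ P₀ := by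
      intro R hR
      rcases h0.chain.total hR hP₀ with h2 | h2
      · exact h2
      · have h3 : R.map f ∈ mapC f σ := by rw [← he]; exact ⟨R, hR, rfl⟩
        obtain ⟨T, hT, hTR⟩ := h3
        have h4 : R.map f = P₀.map f := by
          apply le_antisymm
          · rw [hPP, ← hTR]
            exact Subgroup.map_mono (hPg T hT)
          · exact Subgroup.map_mono h2
        exact (map_injOn hk h0 hR hP₀ h4).le
    obtain ⟨l, hl, hlP⟩ := conj_ker hk (h0.isPGroup P₀ hP₀) (h.isPGroup P hP) hPP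
    refine ⟨l, hl, ?_⟩
    have hm : ∀ R : Subgroup G, (conjSub l R).map f = R.map f := by
      intro R
      rw [map_conjSub, MonoidHom.mem_ker.mp hl, conjSub_one]
    have hPp := h.isPGroup P hP
    apply Set.Subset.antisymm
    · rintro _ ⟨R, hR, rfl⟩
      have h3 : R.map f ∈ mapC f σ := by rw [← he]; exact ⟨R, hR, rfl⟩
      obtain ⟨T, hT, hTR⟩ := h3
      have h4 : conjSub l R = T := by
        refine eq_of_map hk hPp ?_ (hPg T hT) ?_
        · rw [← hlP]
          exact conjSub_le (hg0 R hR)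
        · rw [hm, hTR]
      rw [h4]
      exact hT
    · intro T hT
      have h3 : T.map f ∈ mapC f σ₀ := by rw [he]; exact ⟨T, hT, rfl⟩
      obtain ⟨R, hR, hRT⟩ := h3
      refine ⟨R, hR, ?_⟩
      refine eq_of_map hk hPp ?_ (hPg T hT) ?_
      · rw [← hlP]
        exact conjSub_le (hg0 R hR)
      · rw [hm, hRT]

/-- a `p`-subgroup of the image lifts -/
theorem exists_lift_sub {f : G →* Q} (hf : Function.Surjective f) (hk : ¬ p ∣ Nat.card f.ker)
    {R : Subgroup Q} (hR : IsPGroup p R) : ∃ P : Subgroup G, IsPGroup p P ∧ P.map f = R := by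
  haveI : Finite Q := Finite.of_surjective f hf
  set M : Subgroup G := R.comap f with hM
  have hcM : Nat.card M = Nat.card f.ker * Nat.card R := card_comap f hf R
  obtain ⟨n, hn⟩ := IsPGroup.iff_card.mp hR
  have hfac : (Nat.card M).factorization p = n := by
    rw [hcM, hn, Nat.factorization_mul Nat.card_pos.ne' (pow_ne_zero _ hp.out.ne_zero)]
    rw [Finsupp.add_apply, Nat.factorization_eq_zero_of_not_dvd hk, zero_add,
      Nat.Prime.factorization_pow hp.out, Finsupp.single_eq_same]
  obtain ⟨S⟩ : Nonempty (Sylow p M) := inferInstance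
  have hS : Nat.card S = p ^ n := by rw [S.card_eq_multiplicity, hfac]
  refine ⟨(S : Subgroup M).map M.subtype, S.isPGroup'.map _, ?_⟩
  have hSp : IsPGroup p ((S : Subgroup M).map M.subtype) := S.isPGroup'.map _
  refine Subgroup.eq_of_le_of_card_ge ?_ ?_
  · rintro _ ⟨_, ⟨x, _, rfl⟩, rfl⟩
    exact x.2
  · rw [card_map hk hSp, hn, ← hS]
    exact (Nat.card_congr (Subgroup.equivMapOfInjective _ _ M.subtype_injective).toEquiv).le

/-- chains lift -/
theorem exists_lift {f : G →* Q} (hf : Function.Surjective f) (hk : ¬ p ∣ Nat.card f.ker)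
    {τ : Set (Subgroup Q)} (hτ : IsPChain p τ) : ∃ σ, IsPChain p σ ∧ mapC f σ = τ := by
  haveI : Finite Q := Finite.of_surjective f hf
  rcases τ.eq_empty_or_nonempty with hem | hne
  · refine ⟨∅, ⟨Set.Subsingleton.isChain (by simp), by simp, by simp⟩, ?_⟩
    rw [hem, mapC_empty]
  · obtain ⟨P', hP', hPg⟩ := exists_greatest hτ.chain hne
    obtain ⟨P, hP, hPP⟩ := exists_lift_sub hf hk (hτ.isPGroup P' hP')
    have hm : ∀ R ∈ τ, (P ⊓ R.comap f).map f = R := by
      intro R hR
      apply le_antisymm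
      · rintro _ ⟨x, hx, rfl⟩
        exact hx.2
      · intro y hy
        have h1 : y ∈ P.map f := by rw [hPP]; exact hPg R hR hy
        obtain ⟨x, hx, rfl⟩ := h1
        exact ⟨x, ⟨hx, hy⟩, rfl⟩
    refine ⟨(fun R : Subgroup Q => P ⊓ R.comap f) '' τ, ⟨?_, ?_, ?_⟩, ?_⟩
    · rintro _ ⟨R, hR, rfl⟩ _ ⟨S, hS, rfl⟩ _
      rcases hτ.chain.total hR hS with h | h
      · exact Or.inl (inf_le_inf le_rfl (Subgroup.comap_mono h))
      · exact Or.inr (inf_le_inf le_rfl (Subgroup.comap_mono h))
    · rintro _ ⟨R, hR, rfl⟩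
      exact hP.to_le inf_le_left
    · rintro _ ⟨R, hR, rfl⟩ h
      apply hτ.ne_bot R hR
      rw [← hm R hR]
      change (P ⊓ R.comap f) = ⊥ at h
      rw [h, Subgroup.map_bot]
    · unfold mapC
      rw [← Set.image_comp]
      have : ((Subgroup.map f) ∘ fun R : Subgroup Q => P ⊓ R.comap f) '' τ = id '' τ :=
        Set.image_congr fun R hR => hm R hR
      rw [this, Set.image_id]

/-- the stabiliser of the image of a chain -/
theorem stab_map {f : G →* Q} (hf : Function.Surjective f) (hk : ¬ p ∣ Nat.card f.ker)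
    {σ : Set (Subgroup G)} (hσ : IsPChain p σ) :
    (chainStabilizer (mapC f σ)).comap f = f.ker ⊔ chainStabilizer σ := by
  haveI : Finite Q := Finite.of_surjective f hf
  apply le_antisymm
  · intro y hy
    have h1 : mapC f (conjSub y '' σ) = mapC f σ := by
      rw [mapC_conj]
      exact conj_image_of_mem hy
    obtain ⟨l, hl, hls⟩ := conj_ker_chain hk (hσ.conj y) hσ h1
    have h2 : conjSub (l * y) '' σ = σ := by
      have : conjSub (l * y) = conjSub l ∘ conjSub y := funext fun P => conjSub_mul l y P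
      rw [this, Set.image_comp, hls]
    have h3 := mem_of_conj_image hσ.chain h2
    have h4 : y = l⁻¹ * (l * y) := by group
    rw [h4]
    exact Subgroup.mul_mem_sup (f.ker.inv_mem hl) h3
  · refine sup_le ?_ ?_
    · intro x hx
      rw [Subgroup.mem_comap, MonoidHom.mem_ker.mp hx]
      exact one_mem _
    · intro x hx
      rw [Subgroup.mem_comap, mem_chainStabilizer]
      rintro _ ⟨P, hP, rfl⟩
      rw [← map_conjSub, mem_chainStabilizer.mp hx P hP]

/-- `∑ |G_σ|` over the chains with a given image -/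
theorem sum_fibre {f : G →* Q} (hf : Function.Surjective f) (hk : ¬ p ∣ Nat.card f.ker)
    [Fintype (Ch p G)] {τ : Set (Subgroup Q)} (hτ : IsPChain p τ) :
    ∑ σ ∈ (Finset.univ : Finset (Ch p G)).filter (fun σ => mapC f σ.1 = τ),
      (Nat.card (chainStabilizer σ.1) : ℚ) =
      (Nat.card f.ker : ℚ) * Nat.card (chainStabilizer τ) := by
  haveI : Fintype G := Fintype.ofFinite G
  obtain ⟨σ₀, h0, h0τ⟩ := exists_lift hf hk hτ
  have h1 : ∀ σ ∈ (Finset.univ : Finset (Ch p G)).filter (fun σ => mapC f σ.1 = τ),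
      Nat.card (chainStabilizer σ.1) =
        ((Finset.univ : Finset G).filter (fun y => conjSub y '' σ₀ = σ.1)).card := by
    intro σ hσ
    have hσ' : mapC f σ.1 = τ := (Finset.mem_filter.mp hσ).2
    obtain ⟨l, -, hl⟩ := conj_ker_chain hk h0 σ.2 (h0τ.trans hσ'.symm)
    rw [Nat.card_eq_fintype_card, ← Fintype.card_subtype]
    refine Fintype.card_congr
      { toFun := fun x => ⟨x.1 * l, ?_⟩
        invFun := fun y => ⟨y.1 * l⁻¹, ?_⟩
        left_inv := fun x => by simp
        right_inv := fun y => by simp }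
    · have : conjSub ((x : G) * l) = conjSub (x : G) ∘ conjSub l :=
        funext fun P => conjSub_mul _ l P
      rw [this, Set.image_comp, hl]
      exact conj_image_of_mem x.2
    · apply mem_of_conj_image σ.2.chain
      have : conjSub ((y : G) * l⁻¹) = conjSub (y : G) ∘ conjSub l⁻¹ :=
        funext fun P => conjSub_mul _ l⁻¹ P
      rw [this, Set.image_comp]
      have h3 : conjSub l⁻¹ '' σ.1 = σ₀ := by
        rw [← hl, ← Set.image_comp]
        have : (conjSub l⁻¹ ∘ conjSub l) = id := funext fun P => conjSub_inv_conjSub l P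
        rw [this, Set.image_id]
      rw [h3]
      exact y.2
  have h2 : ∑ σ ∈ (Finset.univ : Finset (Ch p G)).filter (fun σ => mapC f σ.1 = τ),
      Nat.card (chainStabilizer σ.1) =
      ((Finset.univ : Finset G).filter (fun y => f y ∈ chainStabilizer τ)).card := by
    rw [Finset.sum_congr rfl h1]
    rw [← Finset.card_biUnion]
    · congr 1
      ext y
      simp only [Finset.mem_biUnion, Finset.mem_filter, Finset.mem_univ, true_and]
      constructor
      · rintro ⟨σ, h3, h4⟩
        haveI : Finite Q := Finite.of_surjective f hf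
        apply mem_of_conj_image hτ.chain
        rw [← h0τ, ← mapC_conj, h4, h3, h0τ]
      · intro h3
        refine ⟨⟨conjSub y '' σ₀, h0.conj y⟩, ?_, rfl⟩
        change mapC f (conjSub y '' σ₀) = τ
        rw [mapC_conj, h0τ]
        exact conj_image_of_mem h3
    · intro σ _ σ' _ hne
      rw [Function.onFun, Finset.disjoint_left]
      intro y hy hy'
      rw [Finset.mem_filter] at hy hy'
      exact hne (Subtype.ext (hy.2.symm.trans hy'.2))
  have h3 : ((Finset.univ : Finset G).filter (fun y => f y ∈ chainStabilizer τ)).card =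
      Nat.card f.ker * Nat.card (chainStabilizer τ) := by
    rw [← card_comap f hf, Nat.card_eq_fintype_card, ← Fintype.card_subtype]
    exact Fintype.card_congr (Equiv.refl _)
  rw [← Nat.cast_sum, h2, h3]
  push_cast
  rfl

/-- **Chains in a quotient by a normal `p'`-subgroup.** -/
theorem CS_quot {f : G →* Q} (hf : Function.Surjective f) (hk : ¬ p ∣ Nat.card f.ker)
    (F : Set (Subgroup Q) → ℚ) :
    CS p (fun σ : Set (Subgroup G) => (Nat.card (chainStabilizer σ) : ℚ) * F (mapC f σ)) =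
      CS p (fun τ : Set (Subgroup Q) =>
        (Nat.card f.ker : ℚ) * Nat.card (chainStabilizer τ) * F τ) := by
  haveI : Finite Q := Finite.of_surjective f hf
  haveI : Fintype (Ch p G) := Fintype.ofFinite _
  haveI : Fintype (Ch p Q) := Fintype.ofFinite _
  rw [CS_eq, CS_eq, ← Finset.sum_fiberwise Finset.univ
    (fun σ : Ch p G => (⟨mapC f σ.1, map_chain hk σ.2⟩ : Ch p Q))]
  refine Finset.sum_congr rfl fun τ _ => ?_
  have h1 : (Finset.univ : Finset (Ch p G)).filter
      (fun σ => (⟨mapC f σ.1, map_chain hk σ.2⟩ : Ch p Q) = τ) =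
      (Finset.univ : Finset (Ch p G)).filter (fun σ => mapC f σ.1 = τ.1) := by
    ext σ
    simp only [Finset.mem_filter, Finset.mem_univ, true_and, Subtype.ext_iff]
  rw [h1]
  have h2 : ∀ σ ∈ (Finset.univ : Finset (Ch p G)).filter (fun σ => mapC f σ.1 = τ.1),
      (-1 : ℚ) ^ σ.1.ncard * ((Nat.card (chainStabilizer σ.1) : ℚ) * F (mapC f σ.1)) =
      (Nat.card (chainStabilizer σ.1) : ℚ) * ((-1) ^ τ.1.ncard * F τ.1) := by
    intro σ hσ
    have h3 : mapC f σ.1 = τ.1 := (Finset.mem_filter.mp hσ).2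
    rw [h3, ← h3, ncard_mapC hk σ.2, h3]
    ring
  rw [Finset.sum_congr rfl h2, ← Finset.sum_mul, sum_fibre hf hk τ.2]
  ring

end

/-! ### Chains in a subgroup -/

section

variable {p : ℕ} {G : Type} [Group G] [Finite G]

theorem sub_chain {H : Subgroup G} {σ : Set (Subgroup H)} (h : IsPChain p σ) :
    IsPChain p (mapC H.subtype σ) := by
  refine ⟨?_, ?_, ?_⟩
  · rintro _ ⟨P, hP, rfl⟩ _ ⟨R, hR, rfl⟩ _
    rcases h.chain.total hP hR with h | h
    · exact Or.inl (Subgroup.map_mono h)
    · exact Or.inr (Subgroup.map_mono h)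
  · rintro _ ⟨P, hP, rfl⟩
    exact (h.isPGroup P hP).map _
  · rintro _ ⟨P, hP, rfl⟩ h1
    apply h.ne_bot P hP
    exact (Subgroup.map_eq_bot_iff_of_injective _ H.subtype_injective).mp h1

theorem map_subtype_injective (H : Subgroup G) :
    Function.Injective (Subgroup.map H.subtype : Subgroup H → Subgroup G) :=
  Subgroup.map_injective H.subtype_injective

/-- the chains in a subgroup -/
theorem CS_sub (H : Subgroup G) (F : Set (Subgroup G) → ℚ) :
    CS p (fun σ : Set (Subgroup G) => if ∀ P ∈ σ, P ≤ H then F σ else 0) =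
      CS p (fun τ : Set (Subgroup H) => F (mapC H.subtype τ)) := by
  haveI : Fintype (Ch p G) := Fintype.ofFinite _
  haveI : Fintype (Ch p H) := Fintype.ofFinite _
  rw [CS_eq, CS_eq]
  have h1 : ∀ σ : Ch p G, (-1 : ℚ) ^ σ.1.ncard * (if ∀ P ∈ σ.1, P ≤ H then F σ.1 else 0) =
      if ∀ P ∈ σ.1, P ≤ H then (-1 : ℚ) ^ σ.1.ncard * F σ.1 else 0 := by
    intro σ
    split_ifs <;> simp
  rw [Finset.sum_congr rfl fun σ _ => h1 σ, ← Finset.sum_filter]
  symm
  refine Finset.sum_bij (fun τ _ => ⟨mapC H.subtype τ.1, sub_chain τ.2⟩) ?_ ?_ ?_ ?_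
  · intro τ _
    rw [Finset.mem_filter]
    refine ⟨Finset.mem_univ _, ?_⟩
    rintro _ ⟨P, hP, rfl⟩
    exact Subgroup.map_subtype_le P
  · intro τ _ τ' _ h
    apply Subtype.ext
    have h2 : mapC H.subtype τ.1 = mapC H.subtype τ'.1 := congrArg Subtype.val h
    exact (Set.image_injective.mpr (map_subtype_injective H)) h2
  · intro σ hσ
    have h2 := (Finset.mem_filter.mp hσ).2
    have h3 : mapC H.subtype ((fun P : Subgroup G => P.subgroupOf H) '' σ.1) = σ.1 := by
      unfold mapC
      rw [← Set.image_comp]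
      have : ((Subgroup.map H.subtype) ∘ fun P : Subgroup G => P.subgroupOf H) '' σ.1 =
          id '' σ.1 := Set.image_congr fun P hP => by
        change (P.subgroupOf H).map H.subtype = P
        rw [Subgroup.subgroupOf_map_subtype]
        exact inf_eq_left.mpr (h2 P hP)
      rw [this, Set.image_id]
    refine ⟨⟨(fun P : Subgroup G => P.subgroupOf H) '' σ.1, ?_, ?_, ?_⟩, Finset.mem_univ _, ?_⟩
    · rintro _ ⟨P, hP, rfl⟩ _ ⟨R, hR, rfl⟩ _
      rcases σ.2.chain.total hP hR with h | h
      · exact Or.inl (Subgroup.comap_mono h)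
      · exact Or.inr (Subgroup.comap_mono h)
    · rintro _ ⟨P, hP, rfl⟩
      exact (σ.2.isPGroup P hP).comap_subtype
    · rintro _ ⟨P, hP, rfl⟩ h
      apply σ.2.ne_bot P hP
      have h4 := Subgroup.subgroupOf_eq_bot.mp h
      rw [eq_bot_iff]
      intro x hx
      exact (disjoint_iff.mp h4).le ⟨hx, h2 P hP hx⟩
    · exact Subtype.ext h3
  · intro τ _
    change _ = (-1 : ℚ) ^ (mapC H.subtype τ.1).ncard * F (mapC H.subtype τ.1)
    unfold mapC
    rw [Set.ncard_image_of_injective _ (map_subtype_injective H)]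

/-- the stabiliser in a subgroup -/
theorem stab_sub (H : Subgroup G) (τ : Set (Subgroup H)) :
    chainStabilizer τ = (chainStabilizer (mapC H.subtype τ)).subgroupOf H := by
  ext x
  rw [Subgroup.mem_subgroupOf, mem_chainStabilizer, mem_chainStabilizer]
  constructor
  · rintro h _ ⟨P, hP, rfl⟩
    have := map_conjSub H.subtype x P
    rw [h P hP] at this
    exact this.symm
  · intro h P hP
    apply map_subtype_injective H
    rw [map_conjSub]
    exact h _ ⟨P, hP, rfl⟩

end

end Pool.Agent.H93.KR
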