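import Pool.Agent.H93.KR.Chn
import Pool.Agent.K3h83.IN.Asm
import Pool.Agent.Q90.WR.Krq
import Pool.Agent.Y63.KR.Chi

/-!
# Clifford sums for the number of characters and the number of characters of defect zero
-/

set_option autoImplicit false
set_option linter.unusedSectionVars false
set_option linter.style.haveILetI false

open scoped Classical BigOperators

noncomputable section

namespace Pool.Agent.H93.KR

open Pool.Agent.Helper884 Pool.Agent.K3h3.KB Pool.Agent.K3h3.MK Pool.Agent.K3h83.IN
open Pool.Agent.H254R3.IN (IsIrr mem_Irr)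
open Pool.Agent.Y63.AWC (numDefectZero)
open Pool.Agent.Y63.KR
open IC (Irr)

/-- `∑ |G_θ| = |G|` over the characters `θ` under `χ` -/
theorem cl_one {L G : Type} [Group L] [Fintype L] [Group G]
    [Finite G] (j : L →* G) (hj : Function.Injective j) (hn : j.range.Normal) {χ : G → ℂ}
    (hχ' : IsIrr χ) : ∑ θ ∈ (Irr L).filter (fun θ => ov j θ χ),
      Nat.card {x : G // fixes j θ x} = Nat.card G := by
  haveI := Fintype.ofFinite G
  obtain ⟨r, hr, hrp⟩ := Nat.exists_infinite_primes (Nat.card G + 1)
  haveI : Fact r.Prime := ⟨hrp⟩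
  have hrG : ¬ r ∣ Nat.card G := fun h => by
    have := Nat.le_of_dvd Nat.card_pos h
    omega
  obtain ⟨P⟩ : Nonempty (Sylow r G) := inferInstance
  have hP : (P : Subgroup G) = ⊥ := by
    have h2 := P.card_eq_multiplicity
    rw [Nat.factorization_eq_zero_of_not_dvd hrG, pow_zero] at h2
    exact Subgroup.card_eq_one.mp h2
  have hN : NN P = ⊤ := by
    unfold NN
    rw [hP, Subgroup.normalizer_eq_top_iff]
    infer_instance
  have hf1 : ∀ θ : L → ℂ, fixes j θ (1 : G) := by
    intro θ l l' h
    rw [one_mul, inv_one, mul_one] at h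
    rw [hj h]
  have hPf : ∀ θ : L → ℂ, ∀ x ∈ P, fixes j θ x := by
    intro θ x hx
    have : x ∈ (P : Subgroup G) := hx
    rw [hP, Subgroup.mem_bot] at this
    rw [this]
    exact hf1 θ
  have hdeg : ((ndeg χ : ℕ) : ZMod r) ≠ 0 := by
    rw [Ne, ZMod.natCast_eq_zero_iff]
    intro h
    exact hrG (h.trans (Pool.Agent.Y63.AWC.deg_dvd hχ' (ndeg_cast hχ').symm))
  have h1 := K3h51.IN.t_S2a r L G j hj hn P χ hχ' hdeg
  rw [hN, Subgroup.card_top] at h1
  rw [← h1]
  refine Finset.sum_congr ?_ fun θ _ => ?_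
  · ext θ
    simp only [Finset.mem_filter]
    exact ⟨fun h => ⟨h.1, hPf θ, h.2⟩, fun h => ⟨h.1, h.2.2⟩⟩
  exact Nat.card_congr (Equiv.subtypeEquivRight fun x => ⟨fun h => ⟨Subgroup.mem_top x, h⟩,
    fun h => h.2⟩)

/-- **Clifford sum**: `|G| ∑ w(χ(1)) = ∑_θ |G_θ| ∑_{χ over θ} w(χ(1))` -/
theorem cl_sum {R : Type} [CommRing R] (w : ℕ →* R) {L G : Type} [Group L] [Fintype L] [Group G]
    [Finite G] (j : L →* G) (hj : Function.Injective j) (hn : j.range.Normal) :
    (Nat.card G : R) * wt w G =
      ∑ θ ∈ Irr L, (Nat.card {x : G // fixes j θ x} : R) * wo w j θ := by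
  haveI := Fintype.ofFinite G
  simp_rw [wo_eq]
  rw [wt_eq, Finset.mul_sum]
  have h3 : ∀ θ ∈ Irr L, (Nat.card {x : G // fixes j θ x} : R) *
      ∑ χ ∈ (Irr G).filter (ov j θ), w (ndeg χ) =
      ∑ χ ∈ Irr G, if ov j θ χ then (Nat.card {x : G // fixes j θ x} : R) * w (ndeg χ) else 0 := by
    intro θ _
    rw [Finset.mul_sum, Finset.sum_filter]
  rw [Finset.sum_congr rfl h3, Finset.sum_comm]
  refine Finset.sum_congr rfl fun χ hχ => ?_
  rw [← Finset.sum_filter, ← Finset.sum_mul, ← Nat.cast_sum, cl_one j hj hn (mem_Irr.mp hχ)]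

/-- the stabiliser of `θ` -/
def stb {L G : Type} [Group L] [Group G] (j : L →* G) (hj : Function.Injective j)
    (hn : j.range.Normal) (θ : L → ℂ) : Subgroup G where
  carrier := {x | fixes j θ x}
  one_mem' := by
    intro l l' h
    rw [one_mul, inv_one, mul_one] at h
    rw [hj h]
  mul_mem' := by
    intro x y hx hy l l' h
    obtain ⟨m, hm⟩ := hn.conj_mem (j l) ⟨l, rfl⟩ y
    rw [← hy l m hm.symm]
    apply hx
    rw [hm, ← h]
    group
  inv_mem' := by
    intro x hx l l' h
    refine (hx l' l ?_).symm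
    rw [← h]
    group

theorem mem_stb {L G : Type} [Group L] [Group G] {j : L →* G} {hj : Function.Injective j}
    {hn : j.range.Normal} {θ : L → ℂ} {x : G} : x ∈ stb j hj hn θ ↔ fixes j θ x := Iff.rfl

/-- characters of abelian groups are fixed by the group -/
theorem range_le_stb {L G : Type} [Group L] [Group G] (j : L →* G) (hj : Function.Injective j)
    (hn : j.range.Normal) {θ : L → ℂ} (hθ : IC.IsClass θ) : j.range ≤ stb j hj hn θ := by
  rintro _ ⟨m, rfl⟩ l l' h
  rw [← map_mul, ← map_inv, ← map_mul] at h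
  rw [← hj h]
  exact hθ l m

/-- the weight with values powers of `X`, for the `p`-parts of the degrees -/
def wp (p : ℕ) : ℕ →* Polynomial ℚ where
  toFun n := if n = 0 then 0 else Polynomial.X ^ (n.factorization p)
  map_one' := by simp
  map_mul' a b := by
    by_cases ha : a = 0
    · simp [ha]
    · by_cases hb : b = 0
      · simp [hb]
      · rw [if_neg (Nat.mul_ne_zero ha hb), if_neg ha, if_neg hb, Nat.factorization_mul ha hb,
          Finsupp.add_apply, pow_add]

theorem wp_pos {p n : ℕ} (h : n ≠ 0) : wp p n = Polynomial.X ^ (n.factorization p) := if_neg h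

/-- the number of irreducible characters over `θ` -/
def ko {L G : Type} [Group L] [Finite L] [Group G] [Finite G] (j : L →* G) (θ : L → ℂ) : ℚ :=
  wo (1 : ℕ →* ℚ) j θ

/-- the number of irreducible characters of defect zero over `θ` -/
def zo (p : ℕ) {L G : Type} [Group L] [Finite L] [Group G] [Finite G] (j : L →* G) (θ : L → ℂ) : ℚ :=
  (wo (wp p) j θ).coeff ((Nat.card G).factorization p)

/-- the number of irreducible characters -/
def kk (G : Type) [Group G] [Finite G] : ℚ := wt (1 : ℕ →* ℚ) G

/-- the number of irreducible characters of defect zero -/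
def zz (p : ℕ) (G : Type) [Group G] [Finite G] : ℚ :=
  (wt (wp p) G).coeff ((Nat.card G).factorization p)

theorem kk_eq (G : Type) [Group G] [Finite G] : kk G = Nat.card (ConjClasses G) := by
  haveI := Fintype.ofFinite G
  unfold kk
  rw [wt_eq]
  simp only [MonoidHom.one_apply, Finset.sum_const, nsmul_eq_mul, mul_one]
  norm_cast
  have h1 := surfaceCount_eq (G := G) 0
  rw [zero_add, surfaceCount_one] at h1
  rw [h1]
  unfold zsum
  simp

theorem zz_eq (p : ℕ) (G : Type) [Group G] [Finite G] : zz p G = numDefectZero p G := by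
  haveI := Fintype.ofFinite G
  unfold zz
  rw [wt_eq, Polynomial.finsetSum_coeff, Q90.WR.numDefectZero_card, Finset.card_filter, Nat.cast_sum]
  refine Finset.sum_congr rfl fun χ hχ => ?_
  have hχ' := mem_Irr.mp hχ
  rw [wp_pos (ndeg_pos hχ').ne', Polynomial.coeff_X_pow]
  have h1 : Q90.WR.DefZero p χ ↔ (Nat.card G).factorization p = (ndeg χ).factorization p := by
    rw [Q90.WR.defZero_iff (ndeg_cast hχ').symm]
    exact eq_comm
  by_cases h : (Nat.card G).factorization p = (ndeg χ).factorization p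
  · rw [if_pos h, if_pos (h1.mpr h), Nat.cast_one]
  · rw [if_neg h, if_neg (fun h' => h (h1.mp h')), Nat.cast_zero]

end Pool.Agent.H93.KR
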