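import Pool.Agent.H93.KR.Min

/-!
# Cyclic quotients of order prime to `p`
-/

set_option autoImplicit false
set_option linter.unusedSectionVars false
set_option linter.style.haveILetI false

open scoped Classical BigOperators

noncomputable section

namespace Pool.Agent.H93.KR

open Pool.Agent.Helper884 Pool.Agent.K3h3.KB Pool.Agent.K3h3.MK Pool.Agent.K3h83.IN
open Pool.Agent.H254R3.IN (IsIrr mem_Irr)
open Pool.Agent.Y63.AWC (numDefectZero)
open Pool.Agent.Y63.KR
open IC (Irr)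

/-- the weighted number of characters of an abelian group -/
theorem wt_comm {R : Type} [CommRing R] (w : ℕ →* R) {Q : Type} [Group Q] [Finite Q]
    (hQ : ∀ a b : Q, a * b = b * a) : wt w Q = Nat.card Q := by
  haveI := Fintype.ofFinite Q
  letI : CommGroup Q := { (inferInstance : Group Q) with mul_comm := hQ }
  have h1 : ∀ χ ∈ Irr Q, ndeg χ = 1 := by
    intro χ hχ
    obtain ⟨μ, rfl⟩ := lin_of_comm (mem_Irr.mp hχ)
    have h2 := ndeg_cast (mem_Irr.mp hχ)
    rw [map_one, Units.val_one] at h2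
    exact_mod_cast h2
  have h2 : (Irr Q).card = Nat.card Q := by
    have h3 := kk_eq Q
    unfold kk at h3
    rw [wt_eq] at h3
    simp only [MonoidHom.one_apply, Finset.sum_const, nsmul_eq_mul, mul_one] at h3
    have h4 : Nat.card (ConjClasses Q) = Nat.card Q :=
      (Nat.card_congr (ConjClasses.mkEquiv (α := Q))).symm
    rw [h4] at h3
    exact_mod_cast h3
  rw [wt_eq, Finset.sum_congr rfl fun χ hχ => by rw [h1 χ hχ, map_one], Finset.sum_const,
    nsmul_eq_mul, mul_one, h2]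

/-- characters over an invariant character with cyclic quotient -/
theorem wo_cyc {R : Type} [CommRing R] (w : ℕ →* R) {L T Q : Type} [Group L] [Finite L] [Group T]
    [Finite T] [Group Q] [IsCyclic Q] (j : L →* T) (hj : Function.Injective j) (r : T →* Q)
    (hr : Function.Surjective r) (hk : r.ker = j.range) {θ : L → ℂ} (hθ : IsIrr θ)
    (hinv : ∀ x, fixes j θ x) : wo w j θ = w (ndeg θ) * Nat.card Q := by
  haveI : Finite Q := Finite.of_surjective r hr
  obtain ⟨S, _, _, q, lam, hq, hqc, -, key⟩ := a_S3 L T Q j hj θ hθ hinv r hr hk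
  have hcomm : ∀ a b : S, a * b = b * a :=
    (MonoidHom.isMulCommutative_of_isCyclic_of_ker_le_center q hqc).is_comm.comm
  have k1 := key R w ⊤ (j.codRestrict ⊤ fun _ => Subgroup.mem_top _) (fun _ => rfl)
  have e1 : wo w (j.codRestrict ⊤ fun _ => Subgroup.mem_top _) θ = wo w j θ :=
    wo_congr w (MulEquiv.refl L) Subgroup.topEquiv _ _ (fun l => rfl) _ _ fun l => rfl
  obtain ⟨f, hf⟩ := a_S17 S q.ker lam fun z hz => by
    have h1 : (z : S) = 1 := by
      have h2 : commutator S = ⊥ := by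
        rw [commutator_eq_bot_iff_center_eq_top, eq_top_iff]
        intro a _
        rw [Subgroup.mem_center_iff]
        exact fun b => hcomm b a
      rw [h2, Subgroup.mem_bot] at hz
      exact hz
    have h3 : z = 1 := Subtype.ext h1
    rw [h3, map_one]
  have htop : ((⊤ : Subgroup T).map r).comap q = ⊤ := by
    rw [Subgroup.map_top_of_surjective _ hr, Subgroup.comap_top]
  have e2 : wo w (Subgroup.inclusion (kle q ((⊤ : Subgroup T).map r)))
      (fun a => ((lam a : ℂˣ) : ℂ)) = wo w q.ker.subtype (fun a => ((lam a : ℂˣ) : ℂ)) :=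
    wo_congr w (MulEquiv.refl _) ((MulEquiv.subgroupCongr htop).trans Subgroup.topEquiv) _ _
      (fun l => rfl) _ _ fun l => rfl
  have hlam : IsIrr (fun a => ((lam a : ℂˣ) : ℂ)) := by
    haveI := Fintype.ofFinite q.ker
    exact lin_irr lam
  have e3 := wo_ext w q.ker.subtype q.ker.subtype_injective q hq (by rw [Subgroup.range_subtype]) ℂ
    (IC.oneRep f) hlam (fun l => by rw [IC.oneRep_char]; exact congrArg Units.val (hf l))
  have hd : ndeg (fun a => ((lam a : ℂˣ) : ℂ)) = 1 := by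
    have h2 := ndeg_cast hlam
    rw [map_one, Units.val_one] at h2
    exact_mod_cast h2
  rw [← e1, k1, e2, e3, hd, map_one, one_mul, wt_comm w (fun a b =>
    (IsCyclic.commGroup (α := Q)).mul_comm a b)]

section

variable {p : ℕ} [hp : Fact p.Prime] {Γ A : Type} [Group Γ] [Finite Γ] [Group A] [Finite A]
  (r : Γ →* A)

/-- the number of commuting pairs in `H` over `(s, t)` -/
def cp (H : Subgroup Γ) (s t : A) : ℕ :=
  Nat.card {q : Γ × Γ // (q.1 ∈ H ∧ q.2 ∈ H) ∧ q.1 * q.2 = q.2 * q.1 ∧ r q.1 = s ∧ r q.2 = t}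

theorem cp_swap (H : Subgroup Γ) (s t : A) : cp r H s t = cp r H t s := by
  unfold cp
  exact Nat.card_congr
    { toFun := fun q => ⟨(q.1.2, q.1.1), ⟨q.2.1.2, q.2.1.1⟩, q.2.2.1.symm, q.2.2.2.2, q.2.2.2.1⟩
      invFun := fun q => ⟨(q.1.2, q.1.1), ⟨q.2.1.2, q.2.1.1⟩, q.2.2.1.symm, q.2.2.2.2, q.2.2.2.1⟩
      left_inv := fun _ => rfl
      right_inv := fun _ => rfl }

theorem cp_mul (H : Subgroup Γ) (s t : A) (k : ℤ) : cp r H (s * t ^ k) t = cp r H s t := by
  unfold cp
  refine Nat.card_congr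
    { toFun := fun q => ⟨(q.1.1 * q.1.2 ^ (-k), q.1.2), ⟨H.mul_mem q.2.1.1 (H.zpow_mem q.2.1.2 _),
        q.2.1.2⟩, ?_, ?_, q.2.2.2.2⟩
      invFun := fun q => ⟨(q.1.1 * q.1.2 ^ k, q.1.2), ⟨H.mul_mem q.2.1.1 (H.zpow_mem q.2.1.2 _),
        q.2.1.2⟩, ?_, ?_, q.2.2.2.2⟩
      left_inv := fun q => ?_
      right_inv := fun q => ?_ }
  · have h1 : Commute q.1.1 q.1.2 := q.2.2.1
    exact (h1.mul_left ((Commute.refl q.1.2).zpow_left _)).eq
  · change r (q.1.1 * q.1.2 ^ (-k)) = s
    rw [map_mul, map_zpow, q.2.2.2.1, q.2.2.2.2, mul_assoc, ← zpow_add, add_neg_cancel, zpow_zero,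
      mul_one]
  · have h1 : Commute q.1.1 q.1.2 := q.2.2.1
    exact (h1.mul_left ((Commute.refl q.1.2).zpow_left _)).eq
  · change r (q.1.1 * q.1.2 ^ k) = s * t ^ k
    rw [map_mul, map_zpow, q.2.2.2.1, q.2.2.2.2]
  · apply Subtype.ext
    refine Prod.ext ?_ rfl
    change q.1.1 * q.1.2 ^ (-k) * q.1.2 ^ k = q.1.1
    rw [mul_assoc, ← zpow_add, neg_add_cancel, zpow_zero, mul_one]
  · apply Subtype.ext
    refine Prod.ext ?_ rfl
    change q.1.1 * q.1.2 ^ k * q.1.2 ^ (-k) = q.1.1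
    rw [mul_assoc, ← zpow_add, add_neg_cancel, zpow_zero, mul_one]

theorem cp_one_pow (H : Subgroup Γ) (u : A) (k : ℕ) (hk : k.Coprime (orderOf u)) :
    cp r H 1 (u ^ k) = cp r H 1 u := by
  obtain ⟨m, hm⟩ := exists_pow_eq_self_of_coprime hk
  have h1 : cp r H 1 u = cp r H (u ^ k) u := by
    have := cp_mul r H 1 u (k : ℤ)
    rw [one_mul, zpow_natCast] at this
    exact this.symm
  have h2 : cp r H u (u ^ k) = cp r H 1 (u ^ k) := by
    have := cp_mul r H u (u ^ k) (-(m : ℤ))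
    rw [zpow_neg, zpow_natCast, hm, mul_inv_cancel] at this
    exact this.symm
  rw [h1, cp_swap r H (u ^ k) u, h2]

theorem cp_gcd (H : Subgroup Γ) (g : A) (a b : ℕ) :
    cp r H (g ^ a) (g ^ b) = cp r H 1 (g ^ Nat.gcd a b) := by
  induction a, b using Nat.gcd.induction with
  | H0 n => rw [Nat.gcd_zero_left, pow_zero]
  | H1 m n _ ih =>
    rw [Nat.gcd_rec m n, ← ih, cp_swap r H (g ^ m) (g ^ n)]
    have h1 := cp_mul r H (g ^ n) (g ^ m) (-((n / m : ℕ) : ℤ))
    rw [← h1]
    congr 1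
    rw [zpow_neg, zpow_natCast, ← pow_mul, mul_inv_eq_iff_eq_mul, ← pow_add]
    congr 1
    rw [Nat.mod_add_div]

/-- the alternating sum of the numbers of commuting pairs over `(s, t)` -/
def TT (p : ℕ) (s t : A) : ℚ := CS p (fun σ : Set (Subgroup Γ) => (cp r (chainStabilizer σ) s t : ℚ))

/-- the number of commuting pairs of a subgroup -/
theorem cpr_sum (H Δ : Subgroup Γ) (hΔ : r.ker ≤ Δ) :
    Pool.Agent.R674.Ce.cpr (H ⊓ Δ) = ∑ᶠ s : A, ∑ᶠ t : A, if s ∈ Δ.map r ∧ t ∈ Δ.map r then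
      (cp r H s t : ℤ) else 0 := by
  haveI := Fintype.ofFinite A
  haveI := Fintype.ofFinite Γ
  have hmem : ∀ x : Γ, r x ∈ Δ.map r ↔ x ∈ Δ := by
    intro x
    constructor
    · rintro ⟨y, hy, hyx⟩
      have h1 : y⁻¹ * x ∈ r.ker := by
        rw [MonoidHom.mem_ker, map_mul, map_inv, hyx, inv_mul_cancel]
      have h2 : x = y * (y⁻¹ * x) := by group
      rw [h2]
      exact Δ.mul_mem hy (hΔ h1)
    · intro h
      exact ⟨x, h, rfl⟩
  simp only [finsum_eq_sum_of_fintype]
  unfold Pool.Agent.R674.Ce.cpr cp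
  simp only [Nat.card_eq_fintype_card, Fintype.card_subtype]
  rw [Finset.card_eq_sum_card_fiberwise (f := fun q : Γ × Γ => (r q.1, r q.2))
    (t := (Finset.univ : Finset (A × A))) (fun _ _ => Finset.mem_coe.mpr (Finset.mem_univ _))]
  push_cast
  rw [Fintype.sum_prod_type]
  refine Finset.sum_congr rfl fun s _ => Finset.sum_congr rfl fun t _ => ?_
  split_ifs with h
  · congr 1
    refine congrArg Finset.card ?_
    ext q
    simp only [Finset.mem_filter, Finset.mem_univ, true_and, Subgroup.mem_inf, Prod.mk.injEq]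
    constructor
    · rintro ⟨⟨⟨⟨h1, -⟩, h2, -⟩, h3⟩, h4, h5⟩
      exact ⟨⟨h1, h2⟩, h3, h4, h5⟩
    · rintro ⟨⟨h1, h2⟩, h3, h4, h5⟩
      refine ⟨⟨⟨⟨h1, ?_⟩, h2, ?_⟩, h3⟩, h4, h5⟩
      · rw [← hmem, h4]
        exact h.1
      · rw [← hmem, h5]
        exact h.2
  · norm_cast
    rw [Finset.card_eq_zero, Finset.filter_eq_empty_iff]
    rintro q hq ⟨⟩
    rw [Finset.mem_filter] at hq
    exact h ⟨(hmem _).mpr (Subgroup.mem_inf.mp hq.2.1.1).2, (hmem _).mpr
      (Subgroup.mem_inf.mp hq.2.1.2).2⟩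

theorem pgroup_le_ker (hpA : ¬ p ∣ Nat.card A) {P : Subgroup Γ} (hP : IsPGroup p P) :
    P ≤ r.ker := by
  intro x hx
  rw [MonoidHom.mem_ker]
  obtain ⟨n, hn⟩ := hP ⟨x, hx⟩
  have h1 : x ^ p ^ n = 1 := congrArg Subtype.val hn
  have h2 : (r x) ^ p ^ n = 1 := by rw [← map_pow, h1, map_one]
  have h3 : (r x) ^ Nat.card A = 1 := pow_card_eq_one'
  have h4 : Nat.Coprime (p ^ n) (Nat.card A) :=
    Nat.Coprime.pow_left _ ((Nat.Prime.coprime_iff_not_dvd hp.out).mpr hpA)
  exact orderOf_eq_one_iff.mp (Nat.eq_one_of_dvd_coprimes h4 (orderOf_dvd_of_pow_eq_one h2)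
    (orderOf_dvd_of_pow_eq_one h3))

/-- the alternating sum for the subgroups which contain the kernel -/
theorem AA_pairs (hpA : ¬ p ∣ Nat.card A) (Δ : Subgroup Γ) (hΔ : r.ker ≤ Δ) [Fintype A] :
    AA p Δ = ∑ s : A, ∑ t : A, if s ∈ Δ.map r ∧ t ∈ Δ.map r then TT r p s t else 0 := by
  have h1 : AA p Δ = CS p (fun σ : Set (Subgroup Γ) =>
      (Pool.Agent.R674.Ce.cpr (chainStabilizer σ ⊓ Δ) : ℚ)) := by
    have h2 := CS_sub (p := p) Δ (fun σ : Set (Subgroup Γ) =>
      (Pool.Agent.R674.Ce.cpr (chainStabilizer σ ⊓ Δ) : ℚ))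
    have h3 : CS p (fun σ : Set (Subgroup Γ) => if ∀ P ∈ σ, P ≤ Δ then
        (Pool.Agent.R674.Ce.cpr (chainStabilizer σ ⊓ Δ) : ℚ) else 0) =
        CS p (fun σ : Set (Subgroup Γ) =>
          (Pool.Agent.R674.Ce.cpr (chainStabilizer σ ⊓ Δ) : ℚ)) := by
      refine CS_congr fun σ hσ => ?_
      rw [if_pos fun P hP => (pgroup_le_ker r hpA (hσ.isPGroup P hP)).trans hΔ]
    rw [← h3, h2]
    unfold AA
    refine CS_congr fun τ _ => ?_
    have e : chainStabilizer τ ≃* (chainStabilizer (mapC Δ.subtype τ) ⊓ Δ : Subgroup Γ) :=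
      (MulEquiv.subgroupCongr (stab_sub Δ τ)).trans
        { toFun := fun x => ⟨x.1.1, x.2, x.1.2⟩
          invFun := fun x => ⟨⟨x.1, x.2.2⟩, x.2.1⟩
          left_inv := fun _ => rfl
          right_inv := fun _ => rfl
          map_mul' := fun _ _ => rfl }
    have h4 : kk (chainStabilizer τ) =
        kk (chainStabilizer (mapC Δ.subtype τ) ⊓ Δ : Subgroup Γ) := wt_congr _ e
    rw [Pool.Agent.R674.Ce.cpr_eq, h4, kk_eq, Nat.card_congr e.toEquiv]
    push_cast
    rfl
  rw [h1]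
  have h2 : ∀ σ : Set (Subgroup Γ), (Pool.Agent.R674.Ce.cpr (chainStabilizer σ ⊓ Δ) : ℚ) =
      ∑ s : A, ∑ t : A, if s ∈ Δ.map r ∧ t ∈ Δ.map r then
        (cp r (chainStabilizer σ) s t : ℚ) else 0 := by
    intro σ
    rw [cpr_sum r (chainStabilizer σ) Δ hΔ]
    simp only [finsum_eq_sum_of_fintype]
    push_cast
    rfl
  simp_rw [h2]
  rw [CS_sum]
  refine Finset.sum_congr rfl fun s _ => ?_
  rw [CS_sum]
  refine Finset.sum_congr rfl fun t _ => ?_
  split_ifs with h
  · rfl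
  · haveI : Fintype (Ch p Γ) := Fintype.ofFinite _
    rw [CS_eq]
    simp

theorem TT_gcd (g : A) (a b : ℕ) : TT r p (g ^ a) (g ^ b) = TT r p 1 (g ^ Nat.gcd a b) := by
  unfold TT
  exact CS_congr fun σ _ => by rw [cp_gcd]

theorem TT_one_pow (u : A) (k : ℕ) (hk : k.Coprime (orderOf u)) :
    TT r p 1 (u ^ k) = TT r p 1 u := by
  unfold TT
  exact CS_congr fun σ _ => by rw [cp_one_pow r _ u k hk]

theorem ker_normal : (r.ker.subtype).range.Normal := by
  rw [Subgroup.range_subtype]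
  infer_instance

/-- the stabiliser of a function on the kernel -/
def sK (θ : r.ker → ℂ) : Subgroup Γ := stb r.ker.subtype r.ker.subtype_injective (ker_normal r) θ

/-- `θ` has `p`-defect zero -/
def dz (p : ℕ) {L : Type} [Group L] (θ : L → ℂ) : Prop :=
  (ndeg θ).factorization p = (Nat.card L).factorization p

/-- the number of characters of defect zero of the kernel fixed by `s` and `t` -/
def zf (p : ℕ) (s t : A) : ℕ :=
  Nat.card {θ : r.ker → ℂ // IsIrr θ ∧ dz p θ ∧ s ∈ (sK r θ).map r ∧ t ∈ (sK r θ).map r}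

theorem zf_eq [Fintype r.ker] (p : ℕ) (s t : A) : zf r p s t =
    ((Irr r.ker).filter (fun θ => dz p θ ∧ s ∈ (sK r θ).map r ∧ t ∈ (sK r θ).map r)).card := by
  unfold zf
  rw [← Fintype.card_coe, ← Nat.card_eq_fintype_card]
  refine Nat.card_congr (Equiv.subtypeEquivRight fun θ => ?_)
  rw [Finset.mem_filter, mem_Irr]

/-- the characters of defect zero over a character of the kernel -/
theorem zo_cyc [IsCyclic A] (hpA : ¬ p ∣ Nat.card A) (Δ : Subgroup Γ) (hΔ : r.ker ≤ Δ)
    {θ : r.ker → ℂ} (hθ : IsIrr θ) (hn : (Subgroup.inclusion hΔ).range.Normal) :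
    (Nat.card (stb (Subgroup.inclusion hΔ) (Subgroup.inclusion_injective hΔ) hn θ) : ℚ) *
      zo p (Subgroup.inclusion hΔ) θ = if dz p θ then (Nat.card r.ker : ℚ) *
        Nat.card ((sK r θ).map r ⊓ Δ.map r : Subgroup A) ^ 2 else 0 := by
  haveI := Fintype.ofFinite r.ker
  set j : r.ker →* Δ := Subgroup.inclusion hΔ with hj
  set hji : Function.Injective j := Subgroup.inclusion_injective hΔ with hjid
  set T : Subgroup Δ := stb j hji hn θ with hT
  have hcl : IC.IsClass θ := IC.IsIrrChar.isClass hθ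
  have hjT : ∀ l, j l ∈ T := fun l => range_le_stb j hji hn hcl ⟨l, rfl⟩
  have hTm : ∀ t : Δ, t ∈ T ↔ (t : Γ) ∈ sK r θ := by
    intro t
    constructor
    · intro h l l' hll
      exact h l l' (Subtype.ext hll)
    · intro h l l' hll
      exact h l l' (congrArg Subtype.val hll)
  set Q : Subgroup A := T.map (r.comp Δ.subtype) with hQ
  have hQ' : Q = (sK r θ).map r ⊓ Δ.map r := by
    ext s
    constructor
    · rintro ⟨t, ht, rfl⟩
      exact ⟨⟨t, (hTm t).mp ht, rfl⟩, ⟨t, t.2, rfl⟩⟩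
    · rintro ⟨⟨x, hx, rfl⟩, ⟨y, hy, hyx⟩⟩
      have h1 : y⁻¹ * x ∈ r.ker := by
        rw [MonoidHom.mem_ker, map_mul, map_inv, hyx, inv_mul_cancel]
      have h2 : x ∈ Δ := by
        have h3 : x = y * (y⁻¹ * x) := by group
        rw [h3]
        exact Δ.mul_mem hy (hΔ h1)
      exact ⟨⟨x, h2⟩, (hTm _).mpr hx, rfl⟩
  let rT : T →* Q := (r.comp Δ.subtype).subgroupMap T
  have hrT : Function.Surjective rT := MonoidHom.subgroupMap_surjective _ _
  have hkT : rT.ker = (j.codRestrict T hjT).range := by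
    ext x
    rw [MonoidHom.mem_ker]
    constructor
    · intro hx
      have h1 : r ((x : Δ) : Γ) = 1 := congrArg Subtype.val hx
      exact ⟨⟨((x : Δ) : Γ), h1⟩, Subtype.ext (Subtype.ext rfl)⟩
    · rintro ⟨l, rfl⟩
      apply Subtype.ext
      exact l.2
  have hjTi : Function.Injective (j.codRestrict T hjT) := by
    intro a b hab
    exact hji (congrArg Subtype.val hab)
  have hinv : ∀ x, fixes (j.codRestrict T hjT) θ x := by
    intro x l l' hll
    exact x.2 l l' (congrArg Subtype.val hll)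
  have hcard : Nat.card T = Nat.card r.ker * Nat.card Q :=
    card_quot (j.codRestrict T hjT) hjTi rT hrT hkT
  have hpQ : ¬ p ∣ Nat.card Q := fun h => hpA (h.trans (Subgroup.card_subgroup_dvd_card Q))
  have hfac : (Nat.card T).factorization p = (Nat.card r.ker).factorization p := by
    rw [hcard, Nat.factorization_mul Nat.card_pos.ne' Nat.card_pos.ne', Finsupp.add_apply,
      Nat.factorization_eq_zero_of_not_dvd hpQ, add_zero]
  have hwo := wo_cyc (wp p) (j.codRestrict T hjT) hjTi rT hrT hkT hθ hinv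
  have hz : zo p j θ = if dz p θ then (Nat.card Q : ℚ) else 0 := by
    rw [zo_stb j hji hn hθ T (fun _ => Iff.rfl) (j.codRestrict T hjT) (fun _ => rfl)]
    unfold zo dz
    rw [hwo, hfac, wp_pos (ndeg_pos hθ).ne', mul_comm, Polynomial.coeff_natCast_mul,
      Polynomial.coeff_X_pow]
    by_cases h : (ndeg θ).factorization p = (Nat.card r.ker).factorization p
    · rw [if_pos h.symm, if_pos h, mul_one]
    · rw [if_neg (fun h' => h h'.symm), if_neg h, mul_zero]
  rw [hz, ← hQ', hcard]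
  split_ifs
  · push_cast
    ring
  · rw [mul_zero]

/-- the number of characters of defect zero -/
theorem zz_pairs [Fintype A] [IsCyclic A] (hpA : ¬ p ∣ Nat.card A) (Δ : Subgroup Γ)
    (hΔ : r.ker ≤ Δ) : (Nat.card Δ : ℚ) * zz p Δ =
      ∑ s : A, ∑ t : A, if s ∈ Δ.map r ∧ t ∈ Δ.map r then
        (Nat.card r.ker : ℚ) * zf r p s t else 0 := by
  haveI := Fintype.ofFinite r.ker
  have hn : (Subgroup.inclusion hΔ).range.Normal := by
    rw [Subgroup.inclusion_range]
    infer_instance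
  rw [zz_clifford (Subgroup.inclusion hΔ) (Subgroup.inclusion_injective hΔ) hn,
    Finset.sum_congr rfl fun θ hθ => zo_cyc r hpA Δ hΔ (mem_Irr.mp hθ) hn]
  have h1 : ∀ Q : Subgroup A, (Nat.card Q : ℚ) ^ 2 =
      ∑ s : A, ∑ t : A, if s ∈ Q ∧ t ∈ Q then (1 : ℚ) else 0 := by
    intro Q
    have h2 : (Nat.card Q : ℚ) = ∑ s : A, if s ∈ Q then (1 : ℚ) else 0 := by
      rw [Finset.sum_boole, Nat.card_eq_fintype_card, Fintype.card_subtype]
    rw [pow_two]
    nth_rewrite 1 [h2]
    rw [h2, Finset.sum_mul_sum]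
    refine Finset.sum_congr rfl fun s _ => Finset.sum_congr rfl fun t _ => ?_
    by_cases hs : s ∈ Q
    · by_cases ht : t ∈ Q
      · simp [hs, ht]
      · simp [hs, ht]
    · simp [hs]
  have h3 : ∀ θ : r.ker → ℂ, (if dz p θ then (Nat.card r.ker : ℚ) *
        Nat.card ((sK r θ).map r ⊓ Δ.map r : Subgroup A) ^ 2 else 0) =
      ∑ s : A, ∑ t : A, if s ∈ Δ.map r ∧ t ∈ Δ.map r then (Nat.card r.ker : ℚ) *
        (if dz p θ ∧ s ∈ (sK r θ).map r ∧ t ∈ (sK r θ).map r then (1 : ℚ) else 0) else 0 := by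
    intro θ
    by_cases hd : dz p θ
    · rw [if_pos hd, h1, Finset.mul_sum]
      refine Finset.sum_congr rfl fun s _ => ?_
      rw [Finset.mul_sum]
      refine Finset.sum_congr rfl fun t _ => ?_
      by_cases h4 : s ∈ Δ.map r ∧ t ∈ Δ.map r
      · rw [if_pos h4]
        congr 1
        by_cases h5 : s ∈ (sK r θ).map r ∧ t ∈ (sK r θ).map r
        · rw [if_pos ⟨⟨h5.1, h4.1⟩, h5.2, h4.2⟩, if_pos ⟨hd, h5⟩]
        · rw [if_neg (fun h => h5 ⟨h.1.1, h.2.1⟩), if_neg (fun h => h5 h.2)]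
      · rw [if_neg h4, if_neg (fun h => h4 ⟨h.1.2, h.2.2⟩), mul_zero]
    · rw [if_neg hd]
      symm
      refine Finset.sum_eq_zero fun s _ => Finset.sum_eq_zero fun t _ => ?_
      have h6 : (if dz p θ ∧ s ∈ (sK r θ).map r ∧ t ∈ (sK r θ).map r then (1 : ℚ) else 0) = 0 :=
        if_neg (fun h => hd h.1)
      rw [h6, mul_zero, ite_self]
  rw [Finset.sum_congr rfl fun θ _ => h3 θ, Finset.sum_comm]
  refine Finset.sum_congr rfl fun s _ => ?_
  rw [Finset.sum_comm]
  refine Finset.sum_congr rfl fun t _ => ?_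
  split_ifs with h
  · rw [← Finset.mul_sum, Finset.sum_boole, zf_eq]
  · exact Finset.sum_const_zero

/-- the error term over `(s, t)` -/
def EE (p : ℕ) (s t : A) : ℚ := (Nat.card r.ker : ℚ) * zf r p s t - TT r p s t

theorem DD_pairs [Fintype A] [IsCyclic A] (hpA : ¬ p ∣ Nat.card A) (Δ : Subgroup Γ)
    (hΔ : r.ker ≤ Δ) : DD p Δ =
      ∑ s : A, ∑ t : A, if s ∈ Δ.map r ∧ t ∈ Δ.map r then EE r p s t else 0 := by
  unfold DD
  rw [zz_pairs r hpA Δ hΔ, AA_pairs r hpA Δ hΔ, ← Finset.sum_sub_distrib]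
  refine Finset.sum_congr rfl fun s _ => ?_
  rw [← Finset.sum_sub_distrib]
  refine Finset.sum_congr rfl fun t _ => ?_
  unfold EE
  split_ifs
  · rfl
  · exact sub_zero 0

theorem mem_gcd (M : Subgroup A) (g : A) (a b : ℕ) :
    (g ^ a ∈ M ∧ g ^ b ∈ M) ↔ g ^ Nat.gcd a b ∈ M := by
  constructor
  · rintro ⟨h1, h2⟩
    have h3 : g ^ ((Nat.gcd a b : ℕ) : ℤ) ∈ M := by
      rw [Nat.gcd_eq_gcd_ab, zpow_add, zpow_mul, zpow_mul, zpow_natCast, zpow_natCast]
      exact M.mul_mem (M.zpow_mem h1 _) (M.zpow_mem h2 _)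
    rwa [zpow_natCast] at h3
  · intro h
    obtain ⟨x, hx⟩ := Nat.gcd_dvd_left a b
    obtain ⟨y, hy⟩ := Nat.gcd_dvd_right a b
    constructor
    · rw [hx, pow_mul]
      exact M.pow_mem h _
    · rw [hy, pow_mul]
      exact M.pow_mem h _

theorem zf_gcd (g : A) (a b : ℕ) : zf r p (g ^ a) (g ^ b) = zf r p 1 (g ^ Nat.gcd a b) := by
  unfold zf
  refine Nat.card_congr (Equiv.subtypeEquivRight fun θ => ?_)
  rw [mem_gcd]
  exact and_congr_right fun _ => and_congr_right fun _ =>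
    ⟨fun h => ⟨one_mem _, h⟩, fun h => h.2⟩

theorem zf_one_pow (u : A) (k : ℕ) (hk : k.Coprime (orderOf u)) :
    zf r p 1 (u ^ k) = zf r p 1 u := by
  unfold zf
  refine Nat.card_congr (Equiv.subtypeEquivRight fun θ => ?_)
  refine and_congr_right fun _ => and_congr_right fun _ => and_congr_right fun _ => ?_
  obtain ⟨m, hm⟩ := exists_pow_eq_self_of_coprime hk
  constructor
  · intro h
    rw [← hm]
    exact Subgroup.pow_mem _ h _
  · intro h
    exact Subgroup.pow_mem _ h _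

theorem EE_gcd (g : A) (a b : ℕ) : EE r p (g ^ a) (g ^ b) = EE r p 1 (g ^ Nat.gcd a b) := by
  unfold EE
  rw [zf_gcd, TT_gcd]

theorem EE_one_pow (u : A) (k : ℕ) (hk : k.Coprime (orderOf u)) :
    EE r p 1 (u ^ k) = EE r p 1 u := by
  unfold EE
  rw [zf_one_pow r u k hk, TT_one_pow r u k hk]

/-- all error terms vanish if and only if those over `(1, u)` do -/
theorem EE_zero [IsCyclic A] (hr : Function.Surjective r) (hpA : ¬ p ∣ Nat.card A) :
    (∀ Δ : Subgroup Γ, r.ker ≤ Δ → DD p Δ = 0) ↔ ∀ u : A, EE r p 1 u = 0 := by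
  haveI := Fintype.ofFinite A
  constructor
  · intro h
    suffices H : ∀ n : ℕ, ∀ u : A, orderOf u = n → EE r p 1 u = 0 from fun u => H _ u rfl
    intro n
    induction n using Nat.strong_induction_on with
    | _ n ih =>
      intro u hu
      by_contra hne
      have h1 := h ((Subgroup.zpowers u).comap r) (fun x hx => by
        rw [Subgroup.mem_comap, MonoidHom.mem_ker.mp hx]
        exact one_mem _)
      rw [DD_pairs r hpA _ (fun x hx => by
        rw [Subgroup.mem_comap, MonoidHom.mem_ker.mp hx]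
        exact one_mem _), Subgroup.map_comap_eq_self_of_surjective hr] at h1
      have key : ∀ s t : A, s ∈ Subgroup.zpowers u ∧ t ∈ Subgroup.zpowers u →
          EE r p s t = 0 ∨ EE r p s t = EE r p 1 u := by
        rintro s t ⟨hs, ht⟩
        obtain ⟨a, rfl⟩ := (mem_powers_iff_mem_zpowers.mpr hs)
        obtain ⟨b, rfl⟩ := (mem_powers_iff_mem_zpowers.mpr ht)
        simp only
        rw [EE_gcd]
        by_cases hc : (Nat.gcd a b).Coprime (orderOf u)
        · exact Or.inr (EE_one_pow r u _ hc)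
        · left
          refine ih (orderOf (u ^ Nat.gcd a b)) ?_ _ rfl
          rw [orderOf_pow, hu]
          have h3 : 0 < n := by
            rw [← hu]
            exact orderOf_pos u
          refine Nat.div_lt_self h3 ?_
          have h4 : 0 < Nat.gcd n (Nat.gcd a b) := Nat.gcd_pos_of_pos_left _ h3
          have h5 : Nat.gcd n (Nat.gcd a b) ≠ 1 := by
            rw [hu] at hc
            exact fun h6 => hc (by rw [Nat.Coprime, Nat.gcd_comm]; exact h6)
          omega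
      have h2 : ∑ s : A, ∑ t : A, (if s ∈ Subgroup.zpowers u ∧ t ∈ Subgroup.zpowers u then
          EE r p s t else 0) / EE r p 1 u = 0 := by
        simp_rw [← Finset.sum_div]
        rw [h1, zero_div]
      have hnn : ∀ s t : A, 0 ≤ (if s ∈ Subgroup.zpowers u ∧ t ∈ Subgroup.zpowers u then
          EE r p s t else 0) / EE r p 1 u := by
        intro s t
        split_ifs with h3
        · rcases key s t h3 with h4 | h4
          · rw [h4, zero_div]
          · rw [h4, div_self hne]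
            exact zero_le_one
        · rw [zero_div]
      have h3 := (Finset.sum_eq_zero_iff_of_nonneg fun s _ =>
        Finset.sum_nonneg fun t _ => hnn s t).mp h2 1 (Finset.mem_univ _)
      have h4 := (Finset.sum_eq_zero_iff_of_nonneg fun t _ => hnn 1 t).mp h3 u (Finset.mem_univ _)
      rw [if_pos ⟨one_mem _, Subgroup.mem_zpowers u⟩, div_self hne] at h4
      exact one_ne_zero h4
  · intro h Δ hΔ
    rw [DD_pairs r hpA Δ hΔ]
    refine Finset.sum_eq_zero fun s _ => Finset.sum_eq_zero fun t _ => ?_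
    split_ifs
    · obtain ⟨g, hg⟩ := IsCyclic.exists_generator (α := A)
      obtain ⟨a, rfl⟩ := (mem_powers_iff_mem_zpowers.mpr (hg s))
      obtain ⟨b, rfl⟩ := (mem_powers_iff_mem_zpowers.mpr (hg t))
      simp only
      rw [EE_gcd]
      exact h _
    · rfl

end

end Pool.Agent.H93.KR
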