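import Pool.Agent.H93.KR.Cyq

/-!
# The equivariant form of the Knörr-Robinson conjecture
-/

set_option autoImplicit false
set_option linter.unusedSectionVars false
set_option linter.style.haveILetI false

open scoped Classical BigOperators

noncomputable section

namespace Pool.Agent.H93.KR

open Pool.Agent.Helper884 Pool.Agent.K3h3.KB Pool.Agent.K3h3.MK Pool.Agent.K3h83.IN
open Pool.Agent.H254R3.IN (IsIrr mem_Irr)
open Pool.Agent.Y63.AWC (numDefectZero IsIrreducibleCharacter)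
open Pool.Agent.Y63.KR
open IC (Irr)

/-- The number of irreducible complex characters of `G` of `p`-defect zero which are invariant under
conjugation with `γ`. -/
def invDZ (p : ℕ) {Γ : Type} [Group Γ] (G : Subgroup Γ) (γ : Γ) : ℕ :=
  Nat.card {χ : G → ℂ // IsIrreducibleCharacter χ ∧
    (∃ n : ℕ, χ 1 = (n : ℂ) ∧ n.factorization p = (Nat.card G).factorization p) ∧
    ∀ g h : G, (h : Γ) = γ * g * γ⁻¹ → χ h = χ g}

/-- The sum of `-χ̃(S^⟨x, y⟩) = 1 - χ(S^⟨x, y⟩)` over the commuting pairs `(x, y)` with `x ∈ G` and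
`y ∈ Gγ`, where `S` is the poset of nontrivial `p`-subgroups of `Γ`. -/
def twSum (p : ℕ) {Γ : Type} [Group Γ] (G : Subgroup Γ) (γ : Γ) : ℤ :=
  ∑ᶠ q : {q : Γ × Γ // q.1 ∈ G ∧ q.2 * γ⁻¹ ∈ G ∧ q.1 * q.2 = q.2 * q.1},
    (1 - eulerChar (fixedPoset p ({q.1.1, q.1.2} : Set Γ)))

theorem TT_eq {p : ℕ} [Fact p.Prime] {Γ A : Type} [Group Γ] [Finite Γ] [Group A] [Finite A]
    (r : Γ →* A) (γ : Γ) : TT r p 1 (r γ) = (twSum p r.ker γ : ℚ) := by
  haveI : Fintype (Ch p Γ) := Fintype.ofFinite _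
  haveI := Fintype.ofFinite Γ
  set PS := {q : Γ × Γ // q.1 ∈ r.ker ∧ q.2 * γ⁻¹ ∈ r.ker ∧ q.1 * q.2 = q.2 * q.1} with hPS
  haveI : Fintype PS := Fintype.ofFinite _
  have h1 : ∀ H : Subgroup Γ, (cp r H 1 (r γ) : ℚ) =
      ∑ q : PS, if q.1.1 ∈ H ∧ q.1.2 ∈ H then (1 : ℚ) else 0 := by
    intro H
    rw [Finset.sum_boole, ← Fintype.card_subtype, ← Nat.card_eq_fintype_card]
    unfold cp
    norm_cast
    refine Nat.card_congr
      { toFun := fun q => ⟨⟨q.1, q.2.2.2.1, ?_, q.2.2.1⟩, q.2.1⟩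
        invFun := fun q => ⟨q.1.1, q.2, q.1.2.2.2, q.1.2.1, ?_⟩
        left_inv := fun _ => rfl
        right_inv := fun _ => rfl }
    · rw [MonoidHom.mem_ker, map_mul, map_inv, q.2.2.2.2, mul_inv_cancel]
    · have h2 := q.1.2.2.1
      rw [MonoidHom.mem_ker, map_mul, map_inv, mul_inv_eq_one] at h2
      exact h2
  have h2 : TT r p 1 (r γ) = ∑ q : PS, (W p ({q.1.1, q.1.2} : Set Γ) : ℚ) := by
    unfold TT
    rw [CS_eq]
    simp_rw [h1, Finset.mul_sum]
    rw [Finset.sum_comm]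
    refine Finset.sum_congr rfl fun q _ => ?_
    unfold W
    rw [finsum_eq_sum_of_fintype, Int.cast_sum]
    refine Finset.sum_congr rfl fun σ _ => ?_
    push_cast
    congr 1
    refine if_congr ?_ rfl rfl
    rw [mem_chainStabilizer, mem_chainStabilizer]
    constructor
    · rintro ⟨h3, h4⟩ P hP x (rfl | rfl)
      · exact h3 P hP
      · exact h4 P hP
    · intro h3
      exact ⟨fun P hP => h3 P hP _ (Or.inl rfl), fun P hP => h3 P hP _ (Or.inr rfl)⟩
  rw [h2]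
  unfold twSum
  rw [finsum_eq_sum_of_fintype, Int.cast_sum]
  exact Finset.sum_congr rfl fun q _ => by rw [W_eq]

theorem zf_inv {p : ℕ} {Γ A : Type} [Group Γ] [Finite Γ] [Group A] [Finite A]
    (r : Γ →* A) (γ : Γ) : zf r p 1 (r γ) = invDZ p r.ker γ := by
  unfold zf invDZ
  refine Nat.card_congr (Equiv.subtypeEquivRight fun θ => ?_)
  refine and_congr_right fun hθ => ?_
  refine and_congr ?_ ?_
  · unfold dz
    constructor
    · intro h
      exact ⟨ndeg θ, (ndeg_cast hθ).symm, h⟩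
    · rintro ⟨n, hn, h⟩
      rw [ndeg_eq hn.symm]
      exact h
  · constructor
    · rintro ⟨-, x, hx, hxγ⟩ g h hgh
      have h1 : x⁻¹ * γ ∈ r.ker := by
        rw [MonoidHom.mem_ker, map_mul, map_inv, hxγ, inv_mul_cancel]
      haveI := Fintype.ofFinite r.ker
      have h2 : x⁻¹ * γ ∈ sK r θ :=
        range_le_stb _ _ _ (IC.IsIrrChar.isClass hθ) ⟨⟨_, h1⟩, rfl⟩
      have h3 : γ ∈ sK r θ := by
        have h4 : γ = x * (x⁻¹ * γ) := by group
        rw [h4]
        exact (sK r θ).mul_mem hx h2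
      exact h3 g h hgh.symm
    · intro h
      refine ⟨one_mem _, γ, fun l l' hll => ?_, rfl⟩
      exact h l l' hll.symm

/-- **The equivariant form.** -/
theorem equivariant {p : ℕ} [Fact p.Prime] {Γ A : Type} [Group Γ] [Finite Γ] [Group A]
    [IsCyclic A] (r : Γ →* A) (hr : Function.Surjective r) (hp : ¬ p ∣ Nat.card A)
    (G : Subgroup Γ) (hG : r.ker = G) :
    (∀ Δ : Subgroup Γ, G ≤ Δ → KRC p Δ) ↔
      ∀ γ : Γ, twSum p G γ = Nat.card G * invDZ p G γ := by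
  subst hG
  haveI : Finite A := Finite.of_surjective r hr
  have h1 := EE_zero (p := p) r hr hp
  have h2 : (∀ Δ : Subgroup Γ, r.ker ≤ Δ → KRC p Δ) ↔
      ∀ Δ : Subgroup Γ, r.ker ≤ Δ → DD p Δ = 0 :=
    forall₂_congr fun Δ _ => krc_iff_DD Δ
  rw [h2, h1]
  have h3 : ∀ γ : Γ, EE r p 1 (r γ) = 0 ↔ twSum p r.ker γ = Nat.card r.ker * invDZ p r.ker γ := by
    intro γ
    unfold EE
    rw [TT_eq, zf_inv, sub_eq_zero, eq_comm]
    norm_cast
  constructor
  · intro h γ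
    exact (h3 γ).mp (h (r γ))
  · intro h u
    obtain ⟨γ, rfl⟩ := hr u
    exact (h3 γ).mpr (h γ)

end Pool.Agent.H93.KR
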