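import Pool.Agent.H93.KR.Op
import Pool.Agent.R674.Ce.Congr

/-!
# Characters which extend to their stabilisers
-/

set_option autoImplicit false
set_option linter.unusedSectionVars false
set_option linter.style.haveILetI false

open scoped Classical BigOperators

noncomputable section

namespace Pool.Agent.H93.KR

open Pool.Agent.Helper884 Pool.Agent.K3h3.KB Pool.Agent.K3h3.MK Pool.Agent.K3h83.IN
open Pool.Agent.H254R3.IN (IsIrr mem_Irr)
open Pool.Agent.Y63.AWC (numDefectZero)
open Pool.Agent.Y63.KR
open IC (Irr)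
open Pool.Agent.K3h18.IN (irr_infl B_infl irr_of_infl exists_prod lin)

/-- **Gallagher**: the characters over a character which extends -/
theorem wo_ext {R : Type} [CommRing R] (w : ℕ →* R) {L E Q : Type} [Group L] [Finite L] [Group E]
    [Finite E] [Group Q] [Finite Q] (s : L →* E) (hs : Function.Injective s) (t : E →* Q)
    (ht : Function.Surjective t) (hk : t.ker = s.range) (V : Type) [AddCommGroup V] [Module ℂ V]
    [FiniteDimensional ℂ V] (ρ : Representation ℂ E V) {θ : L → ℂ} (hθ : IsIrr θ)
    (h : ∀ l, ρ.character (s l) = θ l) : wo w s θ = w (ndeg θ) * wt w Q := by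
  have hbot : (MonoidHom.id E).ker = ⊥ := by
    rw [MonoidHom.ker_eq_bot_iff]
    exact Function.injective_id
  have h1 := Pool.Agent.K3h18.IN.t_S3b R w L E E Q (MonoidHom.id E) Function.surjective_id
    (by rw [hbot]; exact bot_le) s hs t ht hk V ρ θ hθ h 1 (by
      rintro ⟨a, ha⟩ v
      have ha' : a = 1 := ha
      subst ha'
      change ρ 1 v = (((1 : ℂˣ)⁻¹ : ℂˣ) : ℂ) • v
      rw [map_one, inv_one, Units.val_one, one_smul]
      rfl)
  have h2 : (MonoidHom.id E).comp s = s := MonoidHom.id_comp s
  rw [h2] at h1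
  rw [h1]
  congr 1
  have h3 := a_S8 R w (MonoidHom.id E).ker Q Q (t.comp (MonoidHom.id E).ker.subtype) (by
    rintro ⟨a, ha⟩ ⟨b, hb⟩ _
    have ha' : a = 1 := ha
    have hb' : b = 1 := hb
    subst ha'
    subst hb'
    rfl) (MonoidHom.id Q) Function.surjective_id (by
      ext x
      constructor
      · intro hx
        have hx' : x = 1 := hx
        subst hx'
        exact one_mem _
      · rintro ⟨⟨a, ha⟩, rfl⟩
        have ha' : a = 1 := ha
        subst ha'
        change t 1 = 1
        exact map_one t)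
  exact h3

/-- the relative error term over a character which extends -/
theorem DR_ext {p : ℕ} [Fact p.Prime] {L T Q : Type} [Group L] [Finite L] [Group T] [Finite T]
    [Group Q] [Finite Q] (j : L →* T) (hj : Function.Injective j) (r : T →* Q)
    (hr : Function.Surjective r) (hk : r.ker = j.range) (hpL : ¬ p ∣ Nat.card L) (V : Type)
    [AddCommGroup V] [Module ℂ V] [FiniteDimensional ℂ V] (ρ : Representation ℂ T V) {θ : L → ℂ}
    (hθ : IsIrr θ) (h : ∀ l, ρ.character (j l) = θ l) :
    DR p r j θ = (Nat.card L : ℚ) * DD p Q := by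
  haveI := Fintype.ofFinite L
  have hkL : Nat.card r.ker = Nat.card L := by
    rw [hk]
    exact (Nat.card_congr (MonoidHom.ofInjective hj).toEquiv).symm
  have hTQ : Nat.card T = Nat.card L * Nat.card Q := by
    rw [← hkL, ← Subgroup.card_mul_index r.ker, Subgroup.index_ker,
      MonoidHom.range_eq_top.mpr hr, Subgroup.card_top]
  have hd : ndeg θ ∣ Nat.card L := Pool.Agent.Y63.AWC.deg_dvd hθ (ndeg_cast hθ).symm
  have hpd : ¬ p ∣ ndeg θ := fun h' => hpL (h'.trans hd)
  have hz : zo p j θ = zz p Q := by
    unfold zo zz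
    rw [wo_ext (wp p) j hj r hr hk V ρ hθ h, wp_pos (ndeg_pos hθ).ne',
      Nat.factorization_eq_zero_of_not_dvd hpd, pow_zero, one_mul, hTQ,
      Nat.factorization_mul Nat.card_pos.ne' Nat.card_pos.ne', Finsupp.add_apply,
      Nat.factorization_eq_zero_of_not_dvd hpL, zero_add]
  have ha : RA p r j θ = (Nat.card L : ℚ) * AA p Q := by
    unfold RA AA
    rw [CS_mul]
    refine CS_congr fun τ _ => ?_
    set Y : Subgroup T := (chainStabilizer τ).comap r with hY
    have hjY : ∀ l, j l ∈ Y := by
      intro l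
      rw [hY, Subgroup.mem_comap]
      have : j l ∈ r.ker := by
        rw [hk]
        exact ⟨l, rfl⟩
      rw [MonoidHom.mem_ker.mp this]
      exact one_mem _
    let rY : Y →* chainStabilizer τ := (r.comp Y.subtype).codRestrict _ fun y => y.2
    have hrY : Function.Surjective rY := by
      rintro ⟨x, hx⟩
      obtain ⟨t, rfl⟩ := hr x
      exact ⟨⟨t, hx⟩, rfl⟩
    have hjYi : Function.Injective (j.codRestrict Y hjY) := by
      intro a b hab
      exact hj (congrArg Subtype.val hab)
    have hkY : rY.ker = (j.codRestrict Y hjY).range := by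
      ext y
      constructor
      · intro hy
        have h1 : r (y : T) = 1 := congrArg Subtype.val (MonoidHom.mem_ker.mp hy)
        have h2 : (y : T) ∈ j.range := by
          rw [← hk]
          exact h1
        obtain ⟨l, hl⟩ := h2
        exact ⟨l, Subtype.ext hl⟩
      · rintro ⟨l, rfl⟩
        rw [MonoidHom.mem_ker]
        apply Subtype.ext
        change r (j l) = 1
        have : j l ∈ r.ker := by
          rw [hk]
          exact ⟨l, rfl⟩
        exact this
    have h1 := wo_ext (1 : ℕ →* ℚ) (j.codRestrict Y hjY) hjYi rY hrY hkY V (ρ.comp Y.subtype) hθ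
      (fun l => h l)
    rw [koS_pos j θ hjY]
    unfold ko kk
    rw [h1, MonoidHom.one_apply, one_mul, hY, card_comap r hr, hkL]
    push_cast
    ring
  unfold DR DD
  rw [hz, ha, hTQ]
  push_cast
  ring

theorem card_quot {L T Q : Type} [Group L] [Finite L] [Group T] [Finite T]
    [Group Q] (j : L →* T) (hj : Function.Injective j) (r : T →* Q)
    (hr : Function.Surjective r) (hk : r.ker = j.range) : Nat.card T = Nat.card L * Nat.card Q := by
  have hkL : Nat.card r.ker = Nat.card L := by
    rw [hk]
    exact (Nat.card_congr (MonoidHom.ofInjective hj).toEquiv).symm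
  rw [← hkL, ← Subgroup.card_mul_index r.ker, Subgroup.index_ker,
    MonoidHom.range_eq_top.mpr hr, Subgroup.card_top]

/-- the kernel of the projection of the stabiliser -/
theorem ker_subgroupMap {L G Q : Type} [CommGroup L] [Group G] [Group Q] (j : L →* G)
    (hj : Function.Injective j) (π : G →* Q) (hk : π.ker = j.range) (hn : j.range.Normal)
    (θ : L → ℂ) : (π.subgroupMap (stb j hj hn θ)).ker = (jS j hj hn θ).range := by
  ext x
  rw [MonoidHom.mem_ker]
  constructor
  · intro hx
    have h1 : π (x : G) = 1 := congrArg Subtype.val hx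
    have h2 : (x : G) ∈ j.range := by
      rw [← hk]
      exact h1
    obtain ⟨l, hl⟩ := h2
    exact ⟨l, Subtype.ext hl⟩
  · rintro ⟨l, rfl⟩
    apply Subtype.ext
    change π (j l) = 1
    have : j l ∈ π.ker := by
      rw [hk]
      exact ⟨l, rfl⟩
    exact this

theorem jS_injective {L G : Type} [CommGroup L] [Group G] (j : L →* G)
    (hj : Function.Injective j) (hn : j.range.Normal) (θ : L → ℂ) :
    Function.Injective (jS j hj hn θ) := by
  intro a b hab
  exact hj (congrArg Subtype.val hab)

/-- **The error term if all characters of the abelian normal `p'`-subgroup extend.** -/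
theorem DD_extend {p : ℕ} [Fact p.Prime] {L G Q : Type} [CommGroup L] [Fintype L] [Group G]
    [Finite G] [Group Q] [Finite Q] (j : L →* G) (hj : Function.Injective j) (π : G →* Q)
    (hπ : Function.Surjective π) (hk : π.ker = j.range) (hn : j.range.Normal)
    (hp : ¬ p ∣ Nat.card L)
    (hext : ∀ lam : L →* ℂˣ, ∃ f : stb j hj hn (fun l => ((lam l : ℂˣ) : ℂ)) →* ℂˣ,
      ∀ l, f (jS j hj hn (fun l => ((lam l : ℂˣ) : ℂ)) l) = lam l) :
    DD p G = (Nat.card L : ℚ) * ∑ θ ∈ Irr L, DD p ((stb j hj hn θ).map π) := by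
  rw [DD_clifford j hj π hπ hk hn hp, Finset.mul_sum]
  refine Finset.sum_congr rfl fun θ hθ => ?_
  obtain ⟨lam, rfl⟩ := lin_of_comm (mem_Irr.mp hθ)
  obtain ⟨f, hf⟩ := hext lam
  refine DR_ext _ (jS_injective j hj hn _) _ (π.subgroupMap_surjective _)
    (ker_subgroupMap j hj π hk hn _) hp ℂ (IC.oneRep f) (mem_Irr.mp hθ) fun l => ?_
  rw [IC.oneRep_char, hf]

/-- the stabiliser in `H` of a function on `N` -/
def stH {N H : Type} [Group N] [Group H] (φ : H →* MulAut N) (θ : N → ℂ) : Subgroup H where
  carrier := {h | ∀ n, θ (φ h n) = θ n}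
  one_mem' := by
    intro n
    rw [map_one, MulAut.one_apply]
  mul_mem' := by
    intro a b ha hb n
    rw [map_mul, MulAut.mul_apply, ha, hb]
  inv_mem' := by
    intro a ha n
    rw [← ha (φ a⁻¹ n), ← MulAut.mul_apply, ← map_mul, mul_inv_cancel, map_one, MulAut.one_apply]

theorem mem_stH {N H : Type} [Group N] [Group H] {φ : H →* MulAut N} {θ : N → ℂ} {h : H} :
    h ∈ stH φ θ ↔ ∀ n, θ (φ h n) = θ n := Iff.rfl

theorem inl_normal {N H : Type} [Group N] [Group H] (φ : H →* MulAut N) :
    (SemidirectProduct.inl : N →* N ⋊[φ] H).range.Normal := by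
  rw [SemidirectProduct.range_inl_eq_ker_rightHom]
  infer_instance

theorem fixes_inl {N H : Type} [CommGroup N] [Group H] (φ : H →* MulAut N) (θ : N → ℂ)
    (x : N ⋊[φ] H) : fixes (SemidirectProduct.inl : N →* N ⋊[φ] H) θ x ↔ x.right ∈ stH φ θ := by
  have key : ∀ n : N, x * SemidirectProduct.inl n * x⁻¹ =
      (SemidirectProduct.inl (φ x.right n) : N ⋊[φ] H) := by
    intro n
    rw [mul_inv_eq_iff_eq_mul]
    ext
    · simp only [SemidirectProduct.mul_left, SemidirectProduct.left_inl, SemidirectProduct.right_inl,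
        map_one, MulAut.one_apply]
      exact mul_comm _ _
    · simp
  constructor
  · intro h n
    exact h n _ (key n)
  · intro h n n' hnn
    rw [key] at hnn
    rw [← SemidirectProduct.inl_injective hnn]
    exact h n

theorem map_stb {N H : Type} [CommGroup N] [Group H] (φ : H →* MulAut N) (θ : N → ℂ) :
    (stb (SemidirectProduct.inl : N →* N ⋊[φ] H) SemidirectProduct.inl_injective
      (inl_normal φ) θ).map SemidirectProduct.rightHom = stH φ θ := by
  ext h
  constructor
  · rintro ⟨x, hx, rfl⟩
    exact (fixes_inl φ θ x).mp hx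
  · intro hh
    exact ⟨SemidirectProduct.inr h, (fixes_inl φ θ _).mpr (by simpa using hh), by simp⟩

theorem DD_sub_congr {p : ℕ} {G : Type} [Group G] [Finite G] {H K : Subgroup G} (h : H = K) :
    DD p H = DD p K := by
  subst h
  rfl

/-- **The error term of a semidirect product.** -/
theorem DD_semidirect {p : ℕ} [Fact p.Prime] {N H : Type} [CommGroup N] [Fintype N] [Group H]
    [Finite H] (φ : H →* MulAut N) [Finite (N ⋊[φ] H)] (hp : ¬ p ∣ Nat.card N) :
    DD p (N ⋊[φ] H) = (Nat.card N : ℚ) * ∑ θ ∈ Irr N, DD p (stH φ θ) := by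
  have h1 := DD_extend (p := p) (SemidirectProduct.inl : N →* N ⋊[φ] H)
    SemidirectProduct.inl_injective (SemidirectProduct.rightHom : N ⋊[φ] H →* H)
    SemidirectProduct.rightHom_surjective SemidirectProduct.range_inl_eq_ker_rightHom.symm
    (inl_normal φ) hp (by
      intro lam
      refine ⟨{ toFun := fun x => lam x.1.left
                map_one' := by
                  change lam (1 : N ⋊[φ] H).left = 1
                  rw [SemidirectProduct.one_left, map_one]
                map_mul' := ?_ }, fun l => ?_⟩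
      · intro x y
        change lam (x.1 * y.1).left = lam x.1.left * lam y.1.left
        rw [SemidirectProduct.mul_left, map_mul]
        congr 1
        exact Units.ext ((fixes_inl φ _ x.1).mp x.2 y.1.left)
      · rfl)
  rw [h1]
  congr 1
  exact Finset.sum_congr rfl fun θ _ => DD_sub_congr (map_stb φ θ)

/-- the error term in terms of the sums of the starting files -/
theorem DD_eq {p : ℕ} [Fact p.Prime] (G : Type) [Group G] [Finite G] :
    DD p G = -(Pool.Agent.R674.Ce.defK p G : ℚ) := by
  haveI : Fintype (Ch p G) := Fintype.ofFinite _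
  have h1 : AA p G = (Pool.Agent.R674.Ce.AK p G : ℚ) := by
    rw [Pool.Agent.R674.Ce.AK_eq]
    unfold AA CS
    rw [finsum_eq_sum_of_fintype, finsum_eq_sum_of_fintype, Int.cast_sum]
    refine Finset.sum_congr rfl fun σ _ => ?_
    simp only
    rw [Pool.Agent.R674.Ce.cpr_eq, kk_eq]
    push_cast
    rfl
  unfold DD Pool.Agent.R674.Ce.defK Pool.Agent.R674.Ce.DK
  rw [h1, zz_eq]
  push_cast
  ring

theorem DD_congr {p : ℕ} [Fact p.Prime] {G H : Type} [Group G] [Finite G] [Group H] [Finite H]
    (e : G ≃* H) : DD p G = DD p H := by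
  rw [DD_eq, DD_eq]
  unfold Pool.Agent.R674.Ce.defK
  rw [Pool.Agent.R674.Ce.AK_congr e, Pool.Agent.R674.Ce.DK_congr e]

/-- the error term `|G| (χ₂ - (k - z))` -/
theorem DD_chi {p : ℕ} [Fact p.Prime] (G : Type) [Group G] [Finite G] :
    DD p G = (Nat.card G : ℚ) * (chi2 p G - ((Nat.card (ConjClasses G) : ℚ) - numDefectZero p G)) := by
  rw [DD_eq]
  have h := altSum_classes (p := p) (G := G)
  unfold Pool.Agent.R674.Ce.defK Pool.Agent.R674.Ce.DK Pool.Agent.R674.Ce.AK
  push_cast
  rw [h]
  ring

end Pool.Agent.H93.KR
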