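import Pool.Agent.H93.KR.Cl

/-!
# Inflation
-/

set_option autoImplicit false
set_option linter.unusedSectionVars false
set_option linter.style.haveILetI false

open scoped Classical BigOperators

noncomputable section

namespace Pool.Agent.H93.KR

open Pool.Agent.Helper884 Pool.Agent.K3h3.KB Pool.Agent.K3h3.MK Pool.Agent.K3h83.IN
open Pool.Agent.H254R3.IN (IsIrr mem_Irr)
open Pool.Agent.Y63.AWC (numDefectZero)
open Pool.Agent.Y63.KR
open IC (Irr)
open Pool.Agent.K3h18.IN (irr_infl B_infl irr_of_infl exists_prod lin)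

/-- transitivity of `lies over` -/
theorem ov_trans {M L E : Type} [Group M] [Finite M] [Group L] [Finite L] [Group E]
    (i : M →* L) (j : L →* E) {φ : M → ℂ} {ψ : L → ℂ} {χ : E → ℂ} (hφ : IsIrr φ) (hψ : IsIrr ψ)
    (hχ : IsIrr χ) (h1 : ov j ψ χ) (h2 : ov i φ ψ) : ov (j.comp i) φ χ := by
  haveI := Fintype.ofFinite M
  haveI := Fintype.ofFinite L
  rw [ov_iff] at h1 h2 ⊢
  obtain ⟨V, _, _, _, ρ, _, rfl⟩ := hχ
  obtain ⟨U, _, _, _, σ, _, hσ⟩ := hφ
  have hn : ∀ ψ' : L → ℂ, IsIrr ψ' → ∃ n : ℕ, IC.B (fun l => ρ.character (j l)) ψ' = n := by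
    rintro ψ' ⟨W, _, _, _, τ, _, rfl⟩
    exact Q90.WR.B_nat (ρ.comp j) τ
  have hm : ∀ ψ' : L → ℂ, IsIrr ψ' → ∃ n : ℕ, IC.B (fun m => ψ' (i m)) φ = n := by
    rintro ψ' ⟨W, _, _, _, τ, _, rfl⟩
    rw [hσ]
    exact Q90.WR.B_nat (τ.comp i) σ
  have hcl : IC.IsClass (fun l => ρ.character (j l)) := IC.isClass_char (ρ.comp j)
  have he : (fun m => ρ.character ((j.comp i) m)) =
      ∑ ψ' ∈ Irr L, IC.B (fun l => ρ.character (j l)) ψ' • fun m => ψ' (i m) := by
    funext m
    have h3 := congrFun (IC.expand _ hcl) (i m)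
    simp only [Finset.sum_apply, Pi.smul_apply] at h3 ⊢
    exact h3
  rw [he, IC.B_sum_left]
  choose n hn using hn
  choose k hk using hm
  have h4 : ∑ ψ' ∈ Irr L, IC.B (IC.B (fun l => ρ.character (j l)) ψ' • fun m => ψ' (i m)) φ =
      ((∑ ψ' ∈ (Irr L).attach, n ψ'.1 (mem_Irr.mp ψ'.2) * k ψ'.1 (mem_Irr.mp ψ'.2) : ℕ) : ℂ) := by
    rw [← Finset.sum_attach, Nat.cast_sum]
    refine Finset.sum_congr rfl fun ψ' _ => ?_
    rw [IC.B_smul_left, hn _ (mem_Irr.mp ψ'.2), hk _ (mem_Irr.mp ψ'.2), Nat.cast_mul]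
  rw [h4, Nat.cast_ne_zero]
  intro h5
  rw [Finset.sum_eq_zero_iff] at h5
  have h6 := h5 ⟨ψ, mem_Irr.mpr hψ⟩ (Finset.mem_attach _ _)
  rcases Nat.mul_eq_zero.mp h6 with h7 | h7
  · apply h1
    rw [hn ψ hψ, h7, Nat.cast_zero]
  · apply h2
    rw [hk ψ hψ, h7, Nat.cast_zero]

/-- a character over a character which is trivial on `M` is inflated -/
theorem infl_of_ov {M E X : Type} [Group M] [Finite M] [Group E] [Finite E] [Group X] [Finite X]
    (i : M →* E) (hi : Function.Injective i) (f : E →* X) (hf : Function.Surjective f)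
    (hk : f.ker = i.range) {χ : E → ℂ} (hχ : IsIrr χ) (h : ov i (fun _ => 1) χ) :
    ∃ β : X → ℂ, IsIrr β ∧ χ = fun x => β (f x) := by
  haveI := Fintype.ofFinite M
  haveI := Fintype.ofFinite E
  haveI := Fintype.ofFinite X
  have h2 := (ov_iff i _ χ).mp h
  let ρ : Representation ℂ E ℂ := 1
  have hρ : ∀ g, ρ.character g = 1 := by
    intro g
    change LinearMap.trace ℂ ℂ 1 = 1
    rw [LinearMap.trace_one]
    simp
  have h1L : IsIrr (fun _ : M => (1 : ℂ)) := by simpa using lin (1 : M →* ℂˣ)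
  have h3 : IsIrr fun l => ρ.character (i l) := by
    simp only [hρ]
    exact h1L
  obtain ⟨β, hβ, he⟩ := exists_prod i hi f hf hk ρ h3 hχ (by
    simp only [hρ]
    exact h2)
  refine ⟨β, hβ, ?_⟩
  rw [he]
  funext x
  rw [hρ, one_mul]

theorem one_ne {G : Type} [Group G] {χ : G → ℂ} (h : IsIrr χ) : χ 1 ≠ 0 := by
  rw [← ndeg_cast h]
  exact_mod_cast (ndeg_pos h).ne'

/-- the trivial character lies under an irreducible character which is trivial on `M` -/
theorem ov_one_of {M L : Type} [Group M] [Finite M] [Group L] (i : M →* L) {θ : L → ℂ}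
    (hθ : IsIrr θ) (h : ∀ m, θ (i m) = θ 1) : ov i (fun _ => 1) θ := by
  haveI := Fintype.ofFinite M
  rw [ov_iff]
  have h1L : IsIrr (fun _ : M => (1 : ℂ)) := by simpa using lin (1 : M →* ℂˣ)
  have : (fun m => θ (i m)) = (θ 1) • fun _ : M => (1 : ℂ) := by
    funext m
    rw [h m]
    simp
  rw [this, IC.B_smul_left, IC.B_irr h1L h1L, if_pos rfl, mul_one]
  exact one_ne hθ

/-- **Inflation.** -/
theorem wo_infl {R : Type} [CommRing R] (w : ℕ →* R) {L L' E X : Type} [Group L] [Finite L]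
    [Group L'] [Finite L'] [Group E] [Finite E] [Group X] [Finite X] (q : E →* X)
    (hq : Function.Surjective q) (j : L →* E) (hj : Function.Injective j) (j' : L' →* X)
    (s : L →* L') (hs : Function.Surjective s) (hc : ∀ l, q (j l) = j' (s l))
    (hk : q.ker = s.ker.map j) {θ' : L' → ℂ} (hθ' : IsIrr θ') :
    wo w j (fun l => θ' (s l)) = wo w j' θ' := by
  haveI := Fintype.ofFinite L
  haveI := Fintype.ofFinite L'
  haveI := Fintype.ofFinite E
  haveI := Fintype.ofFinite X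
  rw [wo_eq, wo_eq]
  have hov : ∀ χ' : X → ℂ, ov j (fun l => θ' (s l)) (fun x => χ' (q x)) ↔ ov j' θ' χ' := by
    intro χ'
    rw [ov_iff, ov_iff]
    have : (fun l => χ' (q (j l))) = fun l => (fun l' => χ' (j' l')) (s l) := by
      funext l
      rw [hc]
    rw [this, B_infl s hs (fun l' => χ' (j' l')) θ']
  symm
  refine Finset.sum_bij (fun χ' _ => fun x => χ' (q x)) ?_ ?_ ?_ ?_
  · intro χ' hχ'
    rw [Finset.mem_filter] at hχ' ⊢
    exact ⟨mem_Irr.mpr (irr_infl q hq (mem_Irr.mp hχ'.1)), (hov χ').mpr hχ'.2⟩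
  · intro β _ β' _ he
    funext y
    obtain ⟨x, rfl⟩ := hq y
    exact congrFun he x
  · intro χ hχ
    rw [Finset.mem_filter] at hχ
    have hχ' := mem_Irr.mp hχ.1
    have hθ : IsIrr (fun l => θ' (s l)) := irr_infl s hs hθ'
    have h1 : ov (j.comp s.ker.subtype) (fun _ => 1) χ := by
      refine ov_trans s.ker.subtype j ?_ hθ hχ' hχ.2 (ov_one_of _ hθ fun m => ?_)
      · simpa using lin (1 : s.ker →* ℂˣ)
      · change θ' (s m) = θ' (s 1)
        rw [MonoidHom.mem_ker.mp m.2, map_one]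
    obtain ⟨β, hβ, he⟩ := infl_of_ov (j.comp s.ker.subtype) (hj.comp Subtype.coe_injective) q hq
      (by rw [hk, MonoidHom.range_comp, Subgroup.range_subtype]) hχ' h1
    refine ⟨β, ?_, he.symm⟩
    rw [Finset.mem_filter]
    refine ⟨mem_Irr.mpr hβ, ?_⟩
    rw [← hov, ← he]
    exact hχ.2
  · intro β _
    unfold ndeg
    simp only [map_one]

/-- `|E| ∑ w(χ(1))` over the irreducible characters of the quotient `E / ker f` -/
theorem cl_sum_infl {R : Type} [CommRing R] (w : ℕ →* R) {L E X : Type} [CommGroup L] [Fintype L]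
    [Group E] [Finite E] [Group X] [Finite X] (j : L →* E) (hj : Function.Injective j)
    (hn : j.range.Normal) (f : E →* X) (hf : Function.Surjective f) (hk : f.ker ≤ j.range) :
    (Nat.card E : R) * wt w X =
      ∑ θ ∈ (Irr L).filter (fun θ => ∀ l, f (j l) = 1 → θ l = 1),
        (Nat.card {x : E // fixes j θ x} : R) * wo w j θ := by
  haveI := Fintype.ofFinite E
  haveI := Fintype.ofFinite X
  haveI := Fintype.ofFinite (f.comp j).ker
  set M : Subgroup L := (f.comp j).ker with hM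
  have hkM : f.ker = (j.comp M.subtype).range := by
    rw [MonoidHom.range_comp, Subgroup.range_subtype]
    ext x
    constructor
    · intro hx
      obtain ⟨l, rfl⟩ := hk hx
      exact ⟨l, hx, rfl⟩
    · rintro ⟨l, hl, rfl⟩
      exact hl
  have h1M : IsIrr (fun _ : M => (1 : ℂ)) := by simpa using lin (1 : M →* ℂˣ)
  -- the inflated characters
  have key : ∀ χ ∈ Irr E, (∑ θ ∈ (Irr L).filter (fun θ => ∀ l, f (j l) = 1 → θ l = 1),
      (if ov j θ χ then (Nat.card {x : E // fixes j θ x} : R) * w (ndeg χ) else (0 : R))) =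
      (if (∃ β : X → ℂ, IsIrr β ∧ χ = fun x => β (f x)) then (Nat.card E : R) * w (ndeg χ)
        else (0 : R)) := by
    intro χ hχ
    have hχ' := mem_Irr.mp hχ
    by_cases hinf : ∃ β : X → ℂ, IsIrr β ∧ χ = fun x => β (f x)
    · rw [if_pos hinf]
      obtain ⟨β, hβ, he⟩ := hinf
      -- all characters under `χ` are trivial on `M`
      have h1 : ∀ θ ∈ Irr L, ov j θ χ → ∀ l, f (j l) = 1 → θ l = 1 := by
        intro θ hθ ho l hl
        obtain ⟨μ, rfl⟩ := lin_of_comm (mem_Irr.mp hθ)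
        rw [ov_iff] at ho
        have h5 : ∑ a : L, χ (j a) * ((μ a⁻¹ : ℂˣ) : ℂ) =
            (((μ l)⁻¹ : ℂˣ) : ℂ) * ∑ a : L, χ (j a) * ((μ a⁻¹ : ℂˣ) : ℂ) := by
          conv_lhs => rw [← Equiv.sum_comp (Equiv.mulLeft l)]
          rw [Finset.mul_sum]
          refine Finset.sum_congr rfl fun a _ => ?_
          have h3 : χ (j (l * a)) = χ (j a) := by
            rw [he]
            simp only [map_mul, hl, one_mul]
          rw [Equiv.coe_mulLeft, mul_inv_rev, map_mul μ, map_inv μ l, Units.val_mul, h3]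
          ring
        have h2 : IC.B (fun l => χ (j l)) (fun l => ((μ l : ℂˣ) : ℂ)) =
            (((μ l)⁻¹ : ℂˣ) : ℂ) * IC.B (fun l => χ (j l)) (fun l => ((μ l : ℂˣ) : ℂ)) := by
          unfold IC.B
          conv_lhs => rw [h5]
          ring
        by_contra hne
        apply ho
        have h3 : ((((μ l)⁻¹ : ℂˣ) : ℂ) - 1) *
            IC.B (fun l => χ (j l)) (fun l => ((μ l : ℂˣ) : ℂ)) = 0 := by
          linear_combination -h2
        refine (mul_eq_zero.mp h3).resolve_left (sub_ne_zero.mpr fun h6 => hne ?_)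
        have h7 : (μ l)⁻¹ = 1 := Units.ext h6
        have h8 : μ l = 1 := inv_eq_one.mp h7
        change ((μ l : ℂˣ) : ℂ) = 1
        rw [h8, Units.val_one]
      have h2 := cl_sum (R := ℚ) (1 : ℕ →* ℚ) j hj hn
      rw [← Finset.sum_filter, ← Finset.sum_mul, ← Nat.cast_sum]
      have h3 : ∑ θ ∈ ((Irr L).filter (fun θ => ∀ l, f (j l) = 1 → θ l = 1)).filter
          (fun θ => ov j θ χ), Nat.card {x : E // fixes j θ x} = Nat.card E := by
        rw [← cl_one j hj hn hχ']
        refine Finset.sum_congr ?_ fun _ _ => rfl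
        ext θ
        simp only [Finset.mem_filter]
        exact ⟨fun h => ⟨h.1.1, h.2⟩, fun h => ⟨⟨h.1, h1 θ h.1 h.2⟩, h.2⟩⟩
      rw [h3]
    · rw [if_neg hinf]
      refine Finset.sum_eq_zero fun θ hθ => ?_
      rw [Finset.mem_filter] at hθ
      rw [if_neg]
      intro ho
      apply hinf
      have hθ' := mem_Irr.mp hθ.1
      refine infl_of_ov (j.comp M.subtype) (hj.comp Subtype.coe_injective) f hf hkM hχ' ?_
      refine ov_trans M.subtype j h1M hθ' hχ' ho (ov_one_of _ hθ' fun m => ?_)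
      rw [M.subtype_apply, hθ.2 m m.2, hθ.2 1 (by rw [map_one, map_one])]
  simp_rw [wo_eq]
  have h3 : ∀ θ ∈ (Irr L).filter (fun θ => ∀ l, f (j l) = 1 → θ l = 1),
      (Nat.card {x : E // fixes j θ x} : R) * ∑ χ ∈ (Irr E).filter (ov j θ), w (ndeg χ) =
      ∑ χ ∈ Irr E, if ov j θ χ then (Nat.card {x : E // fixes j θ x} : R) * w (ndeg χ) else 0 := by
    intro θ _
    rw [Finset.mul_sum, Finset.sum_filter]
  rw [Finset.sum_congr rfl h3, Finset.sum_comm, Finset.sum_congr rfl key, ← Finset.sum_filter,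
    ← Finset.mul_sum, wt_eq]
  congr 1
  refine Finset.sum_bij (fun β _ => fun x => β (f x)) ?_ ?_ ?_ ?_
  · intro β hβ
    rw [Finset.mem_filter]
    exact ⟨mem_Irr.mpr (irr_infl f hf (mem_Irr.mp hβ)), β, mem_Irr.mp hβ, rfl⟩
  · intro β _ β' _ he
    funext y
    obtain ⟨x, rfl⟩ := hf y
    exact congrFun he x
  · intro χ hχ
    rw [Finset.mem_filter] at hχ
    obtain ⟨-, β, hβ, he⟩ := hχ
    exact ⟨β, mem_Irr.mpr hβ, he.symm⟩
  · intro β _
    unfold ndeg
    simp only [map_one]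

end Pool.Agent.H93.KR
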