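import Pool.Agent.H93.KR.Rel

/-!
# The local condition for abelian normal `p'`-subgroups
-/

set_option autoImplicit false
set_option linter.unusedSectionVars false
set_option linter.style.haveILetI false

open scoped Classical BigOperators

noncomputable section

namespace Pool.Agent.H93.KR

open Pool.Agent.Helper884 Pool.Agent.K3h3.KB Pool.Agent.K3h3.MK Pool.Agent.K3h83.IN
open Pool.Agent.H254R3.IN (IsIrr mem_Irr)
open Pool.Agent.Y63.AWC (numDefectZero)
open Pool.Agent.Y63.KR
open IC (Irr)
open Pool.Agent.K3h18.IN (irr_infl B_infl irr_of_infl exists_prod lin)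

section

variable {L G : Type} [Group L] [Group G] (j : L →* G) (hj : Function.Injective j)
  (hn : j.range.Normal)

include hn in
theorem cact_ex (x : G) (l : L) : ∃ m : L, j m = x * j l * x⁻¹ := hn.conj_mem (j l) ⟨l, rfl⟩ x

/-- the conjugation action on `L` -/
def cact (x : G) : L →* L where
  toFun l := (cact_ex j hn x l).choose
  map_one' := hj (by rw [(cact_ex j hn x 1).choose_spec, map_one]; group)
  map_mul' a b := hj (by
    refine (cact_ex j hn x (a * b)).choose_spec.trans ?_
    refine Eq.trans ?_ (map_mul j _ _).symm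
    rw [(cact_ex j hn x a).choose_spec, (cact_ex j hn x b).choose_spec, map_mul]
    group)

theorem cact_spec (x : G) (l : L) : j (cact j hj hn x l) = x * j l * x⁻¹ :=
  (cact_ex j hn x l).choose_spec

theorem cact_mul (x y : G) (l : L) : cact j hj hn (x * y) l = cact j hj hn x (cact j hj hn y l) := by
  apply hj
  rw [cact_spec, cact_spec, cact_spec]
  group

theorem cact_one (l : L) : cact j hj hn 1 l = l := by
  apply hj
  rw [cact_spec]
  group

theorem fixes_iff_cact (θ : L → ℂ) (x : G) : fixes j θ x ↔ ∀ l, θ (cact j hj hn x l) = θ l := by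
  constructor
  · intro h l
    exact h l _ (cact_spec j hj hn x l).symm
  · intro h l l' hll
    rw [← cact_spec j hj hn] at hll
    rw [← hj hll]
    exact h l

end

section

variable {L G : Type} [CommGroup L] [Group G] [Finite G] (j : L →* G) (hj : Function.Injective j)
  (hn : j.range.Normal)

/-- the norm map of `P` on `L` -/
def nm (P : Subgroup G) : L →* L :=
  letI := Fintype.ofFinite P
  ∏ x : P, cact j hj hn (x : G)

theorem nm_apply (P : Subgroup G) [Fintype P] (l : L) :
    nm j hj hn P l = ∏ x : P, cact j hj hn (x : G) l := by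
  unfold nm
  rw [MonoidHom.finsetProd_apply]
  congr 1
  exact congrArg (fun i => @Finset.univ P i) (Subsingleton.elim _ _)

theorem nm_conj (P : Subgroup G) {x : G} (hx : conjSub x P = P) (l : L) :
    nm j hj hn P (cact j hj hn x l) = cact j hj hn x (nm j hj hn P l) := by
  haveI := Fintype.ofFinite P
  rw [nm_apply, nm_apply, map_prod]
  have h1 : ∀ y : P, x⁻¹ * (y : G) * x ∈ P := by
    intro y
    have h0 : (y : G) ∈ conjSub x P := by
      rw [hx]
      exact y.2
    rwa [mem_conjSub] at h0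
  have h2 : ∀ y : P, x * (y : G) * x⁻¹ ∈ P := by
    intro y
    have := conj_mem_conjSub (g := x) y.2
    rwa [hx] at this
  let e : P ≃ P :=
    { toFun := fun y => ⟨x⁻¹ * (y : G) * x, h1 y⟩
      invFun := fun y => ⟨x * (y : G) * x⁻¹, h2 y⟩
      left_inv := fun y => Subtype.ext (by simp only; group)
      right_inv := fun y => Subtype.ext (by simp only; group) }
  refine Fintype.prod_equiv e _ _ fun y => ?_
  rw [← cact_mul, ← cact_mul]
  have h3 : (y : G) * x = x * ((e y : P) : G) := by
    change (y : G) * x = x * (x⁻¹ * (y : G) * x)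
    group
  rw [h3]

theorem nm_self (P : Subgroup G) {x : G} (hx : x ∈ P) (l : L) :
    nm j hj hn P (cact j hj hn x l) = nm j hj hn P l := by
  haveI := Fintype.ofFinite P
  rw [nm_apply, nm_apply]
  refine Fintype.prod_equiv (Equiv.mulRight ⟨x, hx⟩) _ _ fun y => ?_
  rw [← cact_mul]
  rfl

theorem nm_fixed (P : Subgroup G) {x : G} (hx : x ∈ P) (l : L) :
    cact j hj hn x (nm j hj hn P l) = nm j hj hn P l := by
  rw [← nm_conj j hj hn P (by rw [conjSub_eq_iff]; exact Subgroup.le_normalizer hx), nm_self _ _ _ _ hx]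

theorem nm_of_fixed (P : Subgroup G) {l : L} (h : ∀ x ∈ P, cact j hj hn x l = l) :
    nm j hj hn P l = l ^ Nat.card P := by
  haveI := Fintype.ofFinite P
  have h0 : ∀ x : P, cact j hj hn (x : G) l = l := fun x => h x x.2
  rw [nm_apply, Finset.prod_congr rfl fun x _ => h0 x, Finset.prod_const, Finset.card_univ,
    Nat.card_eq_fintype_card]

/-- invariant linear characters -/
theorem fixes_iff_nm {p : ℕ} [hp : Fact p.Prime] [Finite L] (hpL : ¬ p ∣ Nat.card L)
    {P : Subgroup G} (hP : IsPGroup p P) (μ : L →* ℂˣ) :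
    (∀ x ∈ P, fixes j (fun l => ((μ l : ℂˣ) : ℂ)) x) ↔
      ∀ l, nm j hj hn P l = 1 → ((μ l : ℂˣ) : ℂ) = 1 := by
  haveI := Fintype.ofFinite P
  constructor
  · intro h l hl
    have h1 : ∀ x ∈ P, μ (cact j hj hn x l) = μ l := fun x hx =>
      Units.ext ((fixes_iff_cact j hj hn _ x).mp (h x hx) l)
    have h2 : μ (nm j hj hn P l) = μ l ^ Nat.card P := by
      have h0 : ∀ x : P, μ (cact j hj hn (x : G) l) = μ l := fun x => h1 x x.2
      rw [nm_apply, map_prod, Finset.prod_congr rfl fun x _ => h0 x, Finset.prod_const,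
        Finset.card_univ, Nat.card_eq_fintype_card]
    rw [hl, map_one] at h2
    have h3 : μ l ^ Nat.card L = 1 := by rw [← map_pow, pow_card_eq_one', map_one]
    obtain ⟨n, hn'⟩ := IsPGroup.iff_card.mp hP
    have h4 : Nat.Coprime (Nat.card P) (Nat.card L) := by
      rw [hn']
      exact Nat.Coprime.pow_left _ ((Nat.Prime.coprime_iff_not_dvd hp.out).mpr hpL)
    have h5 : μ l = 1 := by
      have h6 := orderOf_dvd_of_pow_eq_one h2.symm
      have h7 := orderOf_dvd_of_pow_eq_one h3
      exact orderOf_eq_one_iff.mp (Nat.eq_one_of_dvd_coprimes h4 h6 h7)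
    rw [h5, Units.val_one]
  · intro h x hx
    rw [fixes_iff_cact j hj hn]
    intro l
    have h1 : nm j hj hn P (cact j hj hn x l * l⁻¹) = 1 := by
      rw [map_mul, map_inv, nm_self _ _ _ _ hx, mul_inv_cancel]
    have h2 := h _ h1
    rw [map_mul, map_inv, Units.val_mul, Units.val_inv_eq_inv_val] at h2
    have h3 : ((μ l : ℂˣ) : ℂ) ≠ 0 := Units.ne_zero _
    field_simp at h2
    exact h2

end

/-- the top member of a chain -/
theorem exists_top {p : ℕ} {G : Type} [Group G] [Finite G] {σ : Set (Subgroup G)}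
    (hσ : IsPChain p σ) : ∃ P : Subgroup G, IsPGroup p P ∧
      (∀ x ∈ chainStabilizer σ, conjSub x P = P) ∧ (∀ R ∈ σ, R ≤ P) ∧
      ∀ T : Subgroup G, (∀ R ∈ σ, R ≤ T) → P ≤ T := by
  rcases σ.eq_empty_or_nonempty with h | h
  · refine ⟨⊥, IsPGroup.of_bot, fun x _ => Q90.WR.conjSub_bot x, ?_, fun T _ => bot_le⟩
    rw [h]
    simp
  · obtain ⟨P, hP, hg⟩ := exists_greatest hσ.chain h
    exact ⟨P, hσ.isPGroup P hP, fun x hx => mem_chainStabilizer.mp hx P hP, hg, fun T hT => hT P hP⟩

section

variable {p : ℕ} [hp : Fact p.Prime] {L G Q : Type} [CommGroup L] [Fintype L] [Group G] [Finite G]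
  [Group Q]

/-- **The local condition.** -/
theorem local_ab (j : L →* G) (hj : Function.Injective j) (π : G →* Q)
    (hπ : Function.Surjective π) (hk : π.ker = j.range) (hn : j.range.Normal)
    (hpL : ¬ p ∣ Nat.card L) (σ : Set (Subgroup G)) (hσ : IsPChain p σ) :
    (Nat.card ((chainStabilizer (mapC π σ)).comap π) : ℚ) * kk (chainStabilizer σ) =
      ∑ θ ∈ Irr L, if ∀ P ∈ mapC π σ, P ≤ (stb j hj hn θ).map π then
        (Nat.card ((chainStabilizer (mapC π σ)).comap π ⊓ stb j hj hn θ : Subgroup G) : ℚ) *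
          koS j θ ((chainStabilizer (mapC π σ)).comap π ⊓ stb j hj hn θ) else 0 := by
  have hkp : ¬ p ∣ Nat.card π.ker := by
    rw [hk, ← Nat.card_congr (MonoidHom.ofInjective hj).toEquiv]
    exact hpL
  obtain ⟨P, hP, hPX, hPg, hPl⟩ := exists_top hσ
  set X : Subgroup G := chainStabilizer σ with hX
  set Y : Subgroup G := (chainStabilizer (mapC π σ)).comap π with hY
  have hYs : Y = j.range ⊔ X := by
    rw [hY, stab_map hπ hkp hσ, hk]
  have hjY : ∀ l, j l ∈ Y := fun l => by
    rw [hYs]
    exact Subgroup.mem_sup_left ⟨l, rfl⟩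
  have hXY : X ≤ Y := by
    rw [hYs]
    exact le_sup_right
  -- the fixed points
  have hfix : ∀ l, j l ∈ X → ∀ x ∈ P, cact j hj hn x l = l := by
    intro l hl x hx
    apply hj
    rw [cact_spec]
    have h1 : j l * x * (j l)⁻¹ ∈ P := by
      have := conj_mem_conjSub (g := j l) hx
      rwa [hPX _ hl] at this
    have h2 : x * (j l * x⁻¹ * (j l)⁻¹) ∈ P ⊓ π.ker := by
      refine Subgroup.mem_inf.mpr ⟨P.mul_mem hx ?_, ?_⟩
      · have h3 := P.inv_mem h1
        have h4 : (j l * x * (j l)⁻¹)⁻¹ = j l * x⁻¹ * (j l)⁻¹ := by group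
        rwa [h4] at h3
      · have h5 : π (j l) = 1 := by
          have : j l ∈ π.ker := by rw [hk]; exact ⟨l, rfl⟩
          exact this
        rw [MonoidHom.mem_ker]
        simp [h5]
    rw [inf_ker hkp hP, Subgroup.mem_bot] at h2
    have h6 : x * j l * x⁻¹ = (x * (j l * x⁻¹ * (j l)⁻¹)) * j l := by group
    rw [h6, h2, one_mul]
  have hfix' : ∀ l, (∀ x ∈ P, cact j hj hn x l = l) → j l ∈ X := by
    intro l hl
    rw [hX, mem_chainStabilizer]
    intro R hR
    have h1 : ∀ x ∈ R, j l * x * (j l)⁻¹ = x := by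
      intro x hx
      have h2 := cact_spec j hj hn x l
      rw [hl x (hPg R hR hx)] at h2
      have h3 : j l * x = x * j l := by
        rw [eq_mul_inv_iff_mul_eq] at h2
        exact h2
      rw [h3, mul_inv_cancel_right]
    ext y
    rw [mem_conjSub]
    constructor
    · intro hy
      have h2 := h1 _ hy
      have h3 : j l * ((j l)⁻¹ * y * j l) * (j l)⁻¹ = y := by group
      rw [h3] at h2
      rw [h2]
      exact hy
    · intro hy
      have h2 := h1 y hy
      have h3 : (j l)⁻¹ * y * j l = y := by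
        conv_lhs => rw [← h2]
        group
      rw [h3]
      exact hy
  have hcop : Nat.Coprime (Nat.card P) (Nat.card L) := by
    obtain ⟨n, hn'⟩ := IsPGroup.iff_card.mp hP
    rw [hn']
    exact Nat.Coprime.pow_left _ ((Nat.Prime.coprime_iff_not_dvd hp.out).mpr hpL)
  -- the kernel of the norm map
  set K : Subgroup L := (nm j hj hn P).ker with hK
  set KY : Subgroup Y := (K.map j).subgroupOf Y with hKY
  have hKn : KY.Normal := by
    constructor
    intro k hk' y
    rw [hKY, Subgroup.mem_subgroupOf] at hk' ⊢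
    obtain ⟨l, hl, hlk⟩ := hk'
    have hy : (y : G) ∈ j.range ⊔ X := by
      rw [← hYs]
      exact y.2
    obtain ⟨a, ha, x, hx, hax⟩ := Subgroup.mem_sup_of_normal_left.mp hy
    obtain ⟨m, rfl⟩ := ha
    refine ⟨cact j hj hn x l, ?_, ?_⟩
    · rw [SetLike.mem_coe, hK, MonoidHom.mem_ker, nm_conj _ _ _ _ (hPX x hx),
        MonoidHom.mem_ker.mp hl, map_one]
    · have h1 : ((y * k * y⁻¹ : Y) : G) = j m * (x * j l * x⁻¹) * (j m)⁻¹ := by
        rw [Subgroup.coe_mul, Subgroup.coe_mul, Subgroup.coe_inv, ← hax, ← hlk]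
        group
      rw [h1, ← cact_spec j hj hn, ← map_mul, ← map_inv, ← map_mul]
      congr 1
      rw [mul_comm m, mul_inv_cancel_right]
  haveI := hKn
  -- `Y / K` is isomorphic to `X`
  have hiso : kk X = kk (Y ⧸ KY) := by
    refine wt_congr _ (MulEquiv.ofBijective
      ((QuotientGroup.mk' KY).comp (Subgroup.inclusion hXY)) ⟨?_, ?_⟩)
    · rw [injective_iff_map_eq_one]
      intro x hx
      have h1 : Subgroup.inclusion hXY x ∈ KY := (QuotientGroup.eq_one_iff _).mp hx
      rw [hKY, Subgroup.mem_subgroupOf] at h1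
      obtain ⟨l, hl, hlx⟩ := h1
      have hlX : j l ∈ X := by
        rw [hlx]
        exact x.2
      have h2 := nm_of_fixed j hj hn P (hfix l hlX)
      rw [MonoidHom.mem_ker.mp hl] at h2
      have h3 : l = 1 := by
        have h6 := orderOf_dvd_of_pow_eq_one h2.symm
        have h7 : orderOf l ∣ Nat.card L := orderOf_dvd_natCard l
        exact orderOf_eq_one_iff.mp (Nat.eq_one_of_dvd_coprimes hcop h6 h7)
      apply Subtype.ext
      have h4 : (x : G) = j l := hlx.symm
      rw [h4, h3, map_one]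
      rfl
    · intro z
      obtain ⟨y, rfl⟩ := QuotientGroup.mk'_surjective KY z
      have hy : (y : G) ∈ j.range ⊔ X := by
        rw [← hYs]
        exact y.2
      obtain ⟨a, ha, x, hx, hax⟩ := Subgroup.mem_sup_of_normal_left.mp hy
      obtain ⟨m, rfl⟩ := ha
      -- `m = k c` with `c` fixed by `P`
      obtain ⟨c, hc⟩ : ∃ c : L, c ^ Nat.card P = nm j hj hn P m :=
        ⟨_, (powCoprime (G := L) hcop.symm).apply_symm_apply _⟩
      have hcf : ∀ x ∈ P, cact j hj hn x c = c := by
        intro x hx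
        apply (powCoprime (G := L) hcop.symm).injective
        rw [powCoprime_apply, powCoprime_apply, ← map_pow, hc, nm_fixed _ _ _ _ hx]
      have hcX : j c ∈ X := hfix' c hcf
      refine ⟨⟨j c * x, X.mul_mem hcX hx⟩, ?_⟩
      rw [MonoidHom.comp_apply, QuotientGroup.mk'_apply, QuotientGroup.mk'_apply, QuotientGroup.eq,
        hKY, Subgroup.mem_subgroupOf]
      have h1 : (((Subgroup.inclusion hXY ⟨j c * x, X.mul_mem hcX hx⟩)⁻¹ * y : Y) : G) =
          x⁻¹ * j (c⁻¹ * m) * x⁻¹⁻¹ := by
        rw [Subgroup.coe_mul, Subgroup.coe_inv, ← hax, map_mul, map_inv]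
        change (j c * x)⁻¹ * (j m * x) = _
        group
      rw [h1, ← cact_spec j hj hn]
      refine ⟨_, ?_, rfl⟩
      rw [SetLike.mem_coe, hK, MonoidHom.mem_ker, nm_conj _ _ _ _ (hPX _ (X.inv_mem hx)), map_mul,
        map_inv, nm_of_fixed j hj hn P hcf, hc, inv_mul_cancel, map_one]
  have hjYi : Function.Injective (j.codRestrict Y hjY) := by
    intro a b hab
    exact hj (congrArg Subtype.val hab)
  have hnY : (j.codRestrict Y hjY).range.Normal := by
    constructor
    rintro _ ⟨l, rfl⟩ y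
    obtain ⟨m, hm⟩ := hn.conj_mem (j l) ⟨l, rfl⟩ (y : G)
    exact ⟨m, Subtype.ext hm⟩
  have h1 := cl_sum_infl (R := ℚ) (1 : ℕ →* ℚ) (j.codRestrict Y hjY) hjYi hnY
    (QuotientGroup.mk' KY) (QuotientGroup.mk'_surjective KY) (by
      rw [QuotientGroup.ker_mk']
      intro y hy
      rw [hKY, Subgroup.mem_subgroupOf] at hy
      obtain ⟨l, -, hl⟩ := hy
      exact ⟨l, Subtype.ext hl⟩)
  rw [hiso]
  unfold kk
  rw [h1, ← Finset.sum_filter]
  refine Finset.sum_congr ?_ fun θ hθ => ?_
  · ext θ
    simp only [Finset.mem_filter]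
    refine and_congr_right fun hθ => ?_
    obtain ⟨μ, rfl⟩ := lin_of_comm (mem_Irr.mp hθ)
    have hcl : IC.IsClass (fun l => ((μ l : ℂˣ) : ℂ)) := IC.IsIrrChar.isClass (mem_Irr.mp hθ)
    have e1 : (∀ R ∈ mapC π σ, R ≤ (stb j hj hn (fun l => ((μ l : ℂˣ) : ℂ))).map π) ↔
        ∀ x ∈ P, fixes j (fun l => ((μ l : ℂˣ) : ℂ)) x := by
      constructor
      · intro h
        have h2 : P ≤ stb j hj hn (fun l => ((μ l : ℂˣ) : ℂ)) := by
          refine hPl _ fun R hR x hx => ?_
          obtain ⟨y, hy, hyx⟩ := h (R.map π) ⟨R, hR, rfl⟩ ⟨x, hx, rfl⟩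
          have h3 : y⁻¹ * x ∈ j.range := by
            rw [← hk, MonoidHom.mem_ker, map_mul, map_inv, hyx, inv_mul_cancel]
          have h4 : x = y * (y⁻¹ * x) := by group
          rw [h4]
          exact (stb j hj hn _).mul_mem hy (range_le_stb j hj hn hcl h3)
        exact fun x hx => h2 hx
      · rintro h _ ⟨R, hR, rfl⟩
        exact Subgroup.map_mono fun x hx => h x (hPg R hR hx)
    rw [e1, fixes_iff_nm j hj hn hpL hP]
    refine forall_congr' fun l => ?_
    have e2 : (QuotientGroup.mk' KY) (j.codRestrict Y hjY l) = 1 ↔ nm j hj hn P l = 1 := by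
      rw [QuotientGroup.mk'_apply, QuotientGroup.eq_one_iff, hKY, Subgroup.mem_subgroupOf]
      constructor
      · rintro ⟨m, hm, hml⟩
        have : m = l := hj hml
        rw [← this]
        exact hm
      · intro h
        exact ⟨l, h, rfl⟩
    rw [e2]
  · exact koS_inf j hj hn (mem_Irr.mp (Finset.mem_filter.mp hθ).1) Y hjY

end

end Pool.Agent.H93.KR
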