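import Mathlib

/-!
# Faithful simple modules
-/

set_option autoImplicit false
set_option linter.unusedSectionVars false
set_option linter.style.haveILetI false

open scoped Classical BigOperators

noncomputable section

namespace Pool.Agent.H93.KR

/-- a minimal normal subgroup -/
def MinN {G : Type} [Group G] (N : Subgroup G) : Prop :=
  N.Normal ∧ N ≠ ⊥ ∧ ∀ K : Subgroup G, K.Normal → K ≤ N → K = ⊥ ∨ K = N

theorem exists_minN {G : Type} [Group G] [Finite G] {K : Subgroup G} (hK : K.Normal)
    (h : K ≠ ⊥) : ∃ N, MinN N ∧ N ≤ K := by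
  have : Finite (Subgroup G) := inferInstance
  obtain ⟨N, hN⟩ := (Set.toFinite {N : Subgroup G | N.Normal ∧ N ≠ ⊥ ∧ N ≤ K}).exists_minimal
    ⟨K, hK, h, le_rfl⟩
  refine ⟨N, ⟨hN.1.1, hN.1.2.1, fun M hM hMN => ?_⟩, hN.1.2.2⟩
  by_cases hb : M = ⊥
  · exact Or.inl hb
  · exact Or.inr (le_antisymm hMN (hN.2 ⟨hM, hb, hMN.trans hN.1.2.2⟩ hMN))

theorem minN_disj {G : Type} [Group G] {N N' : Subgroup G} (h : MinN N) (h' : MinN N')
    (hne : N ≠ N') : N ⊓ N' = ⊥ := by
  haveI := h.1
  haveI := h'.1
  rcases h.2.2 (N ⊓ N') inferInstance inf_le_left with h1 | h1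
  · exact h1
  · rcases h'.2.2 N h.1 (by rw [← h1]; exact inf_le_right) with h2 | h2
    · exact absurd h2 h.2.1
    · exact absurd h2 hne

theorem minN_comm {G : Type} [Group G] {N N' : Subgroup G} (h : MinN N) (h' : MinN N')
    (hne : N ≠ N') {x y : G} (hx : x ∈ N) (hy : y ∈ N') : x * y = y * x := by
  haveI := h.1
  haveI := h'.1
  exact Subgroup.commute_of_normal_of_disjoint N N' h.1 h'.1
    (disjoint_iff.mpr (minN_disj h h' hne)) x y hx hy

/-- in a cyclic group subgroups with trivial intersection have coprime orders -/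
theorem coprime_of_disj {Z : Type} [Group Z] [Finite Z] [IsCyclic Z] {A B : Subgroup Z}
    (h : A ⊓ B = ⊥) : Nat.Coprime (Nat.card A) (Nat.card B) := by
  haveI := Fintype.ofFinite Z
  refine Nat.Coprime.symm (Nat.coprime_of_dvd fun q hq h1 h2 => ?_)
  haveI : Fact q.Prime := ⟨hq⟩
  obtain ⟨b, hb⟩ := exists_prime_orderOf_dvd_card' q h1
  obtain ⟨a, ha⟩ := exists_prime_orderOf_dvd_card' q h2
  have ha' : orderOf (a : Z) = q := by rw [← ha, Subgroup.orderOf_coe]
  have hb' : orderOf (b : Z) = q := by rw [← hb, Subgroup.orderOf_coe]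
  have hle := IsCyclic.card_pow_eq_one_le (α := Z) hq.pos
  have hsub : (Finset.univ.filter fun z : Z => z ∈ Subgroup.zpowers (a : Z)) ⊆
      Finset.univ.filter fun z : Z => z ^ q = 1 := by
    intro z hz
    rw [Finset.mem_filter] at hz ⊢
    refine ⟨Finset.mem_univ _, ?_⟩
    rw [← ha']
    exact orderOf_dvd_iff_pow_eq_one.mp (orderOf_dvd_of_mem_zpowers hz.2)
  have hcard : (Finset.univ.filter fun z : Z => z ∈ Subgroup.zpowers (a : Z)).card = q := by
    rw [← Fintype.card_subtype]
    have h3 : Fintype.card (Subgroup.zpowers (a : Z)) = q := by rw [Fintype.card_zpowers, ha']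
    rw [← h3]
  have heq := Finset.eq_of_subset_of_card_le hsub (by rw [hcard]; exact hle)
  have hbm : (b : Z) ∈ Subgroup.zpowers (a : Z) := by
    have : (b : Z) ∈ Finset.univ.filter fun z : Z => z ^ q = 1 := by
      rw [Finset.mem_filter]
      exact ⟨Finset.mem_univ _, by rw [← hb', pow_orderOf_eq_one]⟩
    rw [← heq, Finset.mem_filter] at this
    exact this.2
  have hbA : (b : Z) ∈ A := (Subgroup.zpowers_le.mpr a.2) hbm
  have hbB : (b : Z) ∈ A ⊓ B := ⟨hbA, b.2⟩
  rw [h, Subgroup.mem_bot] at hbB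
  rw [hbB, orderOf_one] at hb'
  exact hq.one_lt.ne hb'

section

variable {G : Type} [Group G] [Finite G]

/-- the key property of a choice of elements of the minimal normal subgroups -/
theorem prod_ne_one (hab : ∀ A : Subgroup G, A.Normal → (∀ a ∈ A, ∀ b ∈ A, a * b = b * a) →
      A ≤ Subgroup.center G ∧ IsCyclic A)
    {A : Type} [CommGroup A] (f : A →* G) (hf : Function.Injective f)
    (x : {N : Subgroup G // MinN N} → A) (hx : ∀ N, f (x N) ∈ N.1) (hx1 : ∀ N, x N ≠ 1)
    (t : Finset {N : Subgroup G // MinN N}) (ht : t.Nonempty) : ∏ N ∈ t, x N ≠ 1 := by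
  intro hprod
  -- the members of `t` are central
  have hN : ∀ N ∈ t, N.1 ≤ Subgroup.center G := by
    intro N hNt
    have h1 : x N = (∏ M ∈ t.erase N, x M)⁻¹ := by
      rw [eq_inv_iff_mul_eq_one, Finset.mul_prod_erase t x hNt]
      exact hprod
    have h2 : ∀ n ∈ N.1, f (x N) * n = n * f (x N) := by
      intro n hn
      have h3 : ∀ s : Finset {N : Subgroup G // MinN N}, N ∉ s →
          Commute (f (∏ M ∈ s, x M)) n := by
        intro s
        induction s using Finset.induction_on with
        | empty =>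
          intro _
          rw [Finset.prod_empty, map_one]
          exact Commute.one_left n
        | insert M s hM ih =>
          intro hNs
          rw [Finset.mem_insert, not_or] at hNs
          rw [Finset.prod_insert hM, map_mul]
          refine Commute.mul_left ?_ (ih hNs.2)
          exact minN_comm M.2 N.2 (fun h => hNs.1 (Subtype.ext h).symm) (hx M) hn
      have h4 := h3 (t.erase N) (Finset.notMem_erase N t)
      rw [h1, map_inv]
      exact h4.inv_left
    -- the center of `N`
    haveI := N.2.1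
    have hZn : (N.1 ⊓ Subgroup.centralizer (N.1 : Set G)).Normal := by infer_instance
    rcases N.2.2.2 _ hZn inf_le_left with h3 | h3
    · exfalso
      have h4 : f (x N) ∈ N.1 ⊓ Subgroup.centralizer (N.1 : Set G) := by
        refine Subgroup.mem_inf.mpr ⟨hx N, ?_⟩
        rw [Subgroup.mem_centralizer_iff]
        intro n hn
        exact (h2 n hn).symm
      rw [h3, Subgroup.mem_bot] at h4
      exact hx1 N (hf (by rw [h4, map_one]))
    · refine (hab N.1 N.2.1 fun a ha b hb => ?_).1
      have h4 : b ∈ N.1 ⊓ Subgroup.centralizer (N.1 : Set G) := by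
        rw [h3]
        exact hb
      exact (Subgroup.mem_centralizer_iff.mp h4.2) a ha
  have hZc : IsCyclic (Subgroup.center G) :=
    (hab (Subgroup.center G) inferInstance fun a ha b _ => (Subgroup.mem_center_iff.mp ha b).symm).2
  obtain ⟨N, hNt⟩ := ht
  have hcop : ∀ M ∈ t.erase N, Nat.Coprime (Nat.card N.1) (Nat.card M.1) := by
    intro M hM
    have hMt := Finset.mem_of_mem_erase hM
    have hMN : N ≠ M := (Finset.ne_of_mem_erase hM).symm
    have h1 := coprime_of_disj (Z := Subgroup.center G) (A := N.1.subgroupOf (Subgroup.center G))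
      (B := M.1.subgroupOf (Subgroup.center G)) (by
        rw [eq_bot_iff]
        intro z hz
        rw [Subgroup.mem_bot]
        have h2 : (z : G) ∈ N.1 ⊓ M.1 := by
          rw [Subgroup.mem_inf] at hz ⊢
          exact ⟨(Subgroup.mem_subgroupOf.mp hz.1), Subgroup.mem_subgroupOf.mp hz.2⟩
        rw [minN_disj N.2 M.2 (fun h => hMN (Subtype.ext h)), Subgroup.mem_bot] at h2
        exact Subtype.ext h2)
    rw [Nat.card_congr (Subgroup.subgroupOfEquivOfLe (hN N hNt)).toEquiv,
      Nat.card_congr (Subgroup.subgroupOfEquivOfLe (hN M hMt)).toEquiv] at h1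
    exact h1
  have hpow : ∀ M : {N : Subgroup G // MinN N}, x M ^ Nat.card M.1 = 1 := by
    intro M
    apply hf
    rw [map_pow, map_one]
    have h1 : (⟨f (x M), hx M⟩ : M.1) ^ Nat.card M.1 = 1 := pow_card_eq_one'
    exact congrArg Subtype.val h1
  -- raise to the power `m`
  have h1 : x N ^ ∏ M ∈ t.erase N, Nat.card M.1 = 1 := by
    have h2 : (∏ M ∈ t, x M) ^ ∏ M ∈ t.erase N, Nat.card M.1 = 1 := by rw [hprod, one_pow]
    rw [← Finset.mul_prod_erase t x hNt, mul_pow] at h2
    have h3 : (∏ M ∈ t.erase N, x M) ^ ∏ M ∈ t.erase N, Nat.card M.1 = 1 := by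
      rw [← Finset.prod_pow]
      refine Finset.prod_eq_one fun M hM => ?_
      obtain ⟨c, hc⟩ := Finset.dvd_prod_of_mem (fun M : {N : Subgroup G // MinN N} =>
        Nat.card M.1) hM
      rw [hc, pow_mul, hpow, one_pow]
    rwa [h3, mul_one] at h2
  have h2 : Nat.Coprime (Nat.card N.1) (∏ M ∈ t.erase N, Nat.card M.1) :=
    Nat.Coprime.prod_right fun M hM => hcop M hM
  apply hx1 N
  have h3 := orderOf_dvd_of_pow_eq_one (hpow N)
  have h4 := orderOf_dvd_of_pow_eq_one h1
  exact orderOf_eq_one_iff.mp (Nat.eq_one_of_dvd_coprimes h2 h3 h4)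

end

section

variable {k : Type} [Field k]

/-- the product of the elements `1 - x` -/
theorem prod_ne_zero {A : Type} [CommGroup A] {ι : Type} [Fintype ι] (x : ι → A)
    (hx : ∀ t : Finset ι, t.Nonempty → ∏ i ∈ t, x i ≠ 1) :
    ∏ i : ι, (1 - MonoidAlgebra.of k A (x i)) ≠ 0 := by
  intro h
  have h1 : (∏ i : ι, (1 - MonoidAlgebra.of k A (x i))) =
      ∑ t ∈ (Finset.univ : Finset ι).powerset, ((-1 : k) ^ t.card) •
        MonoidAlgebra.of k A (∏ i ∈ t, x i) := by
    rw [Finset.prod_sub]
    refine Finset.sum_congr rfl fun t _ => ?_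
    rw [Finset.prod_const_one, mul_one, ← map_prod, Algebra.smul_def, map_pow, map_neg, map_one]
  rw [h1] at h
  have h2 := congrArg (fun z : MonoidAlgebra k A => z.coeff 1) h
  simp only [MonoidAlgebra.coeff_sum, MonoidAlgebra.coeff_zero, Finsupp.finsetSum_apply,
    Finsupp.coe_zero, Pi.zero_apply] at h2
  rw [Finset.sum_eq_single ∅] at h2
  · rw [Finset.card_empty, pow_zero, one_smul, Finset.prod_empty] at h2
    simp at h2
  · intro t _ ht
    have h3 := hx t (Finset.nonempty_iff_ne_empty.mpr ht)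
    rw [MonoidAlgebra.coeff_smul_apply, MonoidAlgebra.of_apply, MonoidAlgebra.coeff_single,
      Finsupp.single_apply, if_neg h3, smul_zero]
  · intro h3
    exact absurd (Finset.mem_powerset.mpr (Finset.empty_subset _)) h3

theorem exists_faithful_aux {G : Type} [Group G] [Finite G] [NeZero (Nat.card G : k)]
    (hab : ∀ A : Subgroup G, A.Normal → (∀ a ∈ A, ∀ b ∈ A, a * b = b * a) →
      A ≤ Subgroup.center G ∧ IsCyclic A)
    {A : Type} [CommGroup A] (f : A →* G) (hf : Function.Injective f)
    (x : {N : Subgroup G // MinN N} → A) (hx : ∀ N, f (x N) ∈ N.1) (hx1 : ∀ N, x N ≠ 1) :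
    ∃ S : Submodule (MonoidAlgebra k G) (MonoidAlgebra k G),
      IsSimpleModule (MonoidAlgebra k G) S ∧
      ∀ g : G, (∀ v ∈ S, MonoidAlgebra.of k G g * v = v) → g = 1 := by
  by_contra hcon
  push Not at hcon
  haveI : Fintype {N : Subgroup G // MinN N} := Fintype.ofFinite _
  have hne := prod_ne_zero (k := k) x (prod_ne_one hab f hf x hx hx1)
  set F : MonoidAlgebra k A →ₐ[k] MonoidAlgebra k G :=
    MonoidAlgebra.mapDomainAlgHom k k f with hF
  have hFi : Function.Injective F := by
    intro a b hab'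
    exact MonoidAlgebra.mapDomain_injective (R := k) hf hab'
  have hFof : ∀ a : A, F (MonoidAlgebra.of k A a) = MonoidAlgebra.of k G (f a) := by
    intro a
    rw [hF]
    simp
  set u := ∏ N : {N : Subgroup G // MinN N}, (1 - MonoidAlgebra.of k A (x N)) with hu
  have hu' : F u ≠ 0 := fun h => hne (hFi (by rw [h, map_zero]))
  have hkill : ∀ S : Submodule (MonoidAlgebra k G) (MonoidAlgebra k G),
      IsSimpleModule (MonoidAlgebra k G) S → ∀ v ∈ S, F u * v = 0 := by
    intro S hS v hv
    obtain ⟨g, hg, hg1⟩ := hcon S hS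
    -- the kernel of the action
    let K : Subgroup G :=
      { carrier := {g | ∀ v ∈ S, MonoidAlgebra.of k G g * v = v}
        one_mem' := by
          intro v _
          rw [map_one, one_mul]
        mul_mem' := by
          intro a b ha hb v hv
          rw [map_mul, mul_assoc, hb v hv, ha v hv]
        inv_mem' := by
          intro a ha v hv
          conv_lhs => rw [← ha v hv]
          rw [← mul_assoc, ← map_mul, inv_mul_cancel, map_one, one_mul] }
    have hKn : K.Normal := by
      constructor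
      intro n hn c v hv
      have h1 : MonoidAlgebra.of k G c⁻¹ * v ∈ S := S.smul_mem _ hv
      rw [map_mul, map_mul, mul_assoc, mul_assoc, hn _ h1, ← mul_assoc, ← map_mul, mul_inv_cancel,
        map_one, one_mul]
    obtain ⟨N, hN, hNK⟩ := exists_minN hKn (by
      intro h
      have h1 : g ∈ K := hg
      rw [h, Subgroup.mem_bot] at h1
      exact hg1 h1)
    have h2 : MonoidAlgebra.of k G (f (x ⟨N, hN⟩)) * v = v := hNK (hx ⟨N, hN⟩) v hv
    have h3 : u = (∏ M ∈ Finset.univ.erase ⟨N, hN⟩, (1 - MonoidAlgebra.of k A (x M))) *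
        (1 - MonoidAlgebra.of k A (x ⟨N, hN⟩)) := by
      rw [hu, Finset.prod_erase_mul _ _ (Finset.mem_univ _)]
    rw [h3, map_mul, map_sub, map_one, hFof, mul_assoc, sub_mul, one_mul, h2, sub_self, mul_zero]
  have htop := IsSemisimpleModule.sSup_simples_eq_top (MonoidAlgebra k G) (MonoidAlgebra k G)
  have hall : ∀ v : MonoidAlgebra k G, F u * v = 0 := by
    intro v
    have hv : v ∈ (⊤ : Submodule (MonoidAlgebra k G) (MonoidAlgebra k G)) := Submodule.mem_top
    rw [← htop, sSup_eq_iSup'] at hv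
    refine Submodule.iSup_induction _ (motive := fun v => F u * v = 0) hv ?_ ?_ ?_
    · intro S v hv
      exact hkill S.1 S.2 v hv
    · exact mul_zero _
    · intro a b ha hb
      rw [mul_add, ha, hb, add_zero]
  exact hu' (by rw [← mul_one (F u)]; exact hall 1)

/-- **A faithful simple module.** -/
theorem exists_faithful {G : Type} [Group G] [Finite G] [NeZero (Nat.card G : k)]
    (hab : ∀ A : Subgroup G, A.Normal → (∀ a ∈ A, ∀ b ∈ A, a * b = b * a) →
      A ≤ Subgroup.center G ∧ IsCyclic A) :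
    ∃ S : Submodule (MonoidAlgebra k G) (MonoidAlgebra k G),
      IsSimpleModule (MonoidAlgebra k G) S ∧
      ∀ g : G, (∀ v ∈ S, MonoidAlgebra.of k G g * v = v) → g = 1 := by
  have hx0 : ∀ N : {N : Subgroup G // MinN N}, ∃ x ∈ N.1, x ≠ 1 := by
    intro N
    obtain ⟨x, hx⟩ := Subgroup.ne_bot_iff_exists_ne_one.mp N.2.2.1
    exact ⟨x, x.2, fun h => hx (Subtype.ext h)⟩
  choose x0 hx0N hx01 using hx0
  have hcomm : ∀ N M, x0 N * x0 M = x0 M * x0 N := by
    intro N M
    by_cases h : N = M
    · rw [h]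
    · exact minN_comm N.2 M.2 (fun h' => h (Subtype.ext h')) (hx0N N) (hx0N M)
  have hmc : IsMulCommutative (Subgroup.closure (Set.range x0)) :=
    Subgroup.isMulCommutative_closure (by
      rintro _ ⟨N, rfl⟩ _ ⟨M, rfl⟩
      exact hcomm N M)
  letI cg : CommGroup (Subgroup.closure (Set.range x0)) :=
    { (inferInstance : Group (Subgroup.closure (Set.range x0))) with
      mul_comm := hmc.is_comm.comm }
  exact exists_faithful_aux hab (Subgroup.closure (Set.range x0)).subtype Subtype.coe_injective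
    (fun N => ⟨x0 N, Subgroup.subset_closure ⟨N, rfl⟩⟩) hx0N
    fun N h => hx01 N (congrArg Subtype.val h)

end

end Pool.Agent.H93.KR
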