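import Pool.Agent.H93.KR.Ext
import Pool.Agent.H93.KR.Mod

/-!
# The minimal counterexample
-/

set_option autoImplicit false
set_option linter.unusedSectionVars false
set_option linter.style.haveILetI false

open scoped Classical BigOperators

noncomputable section

namespace Pool.Agent.H93.KR

open Pool.Agent.Helper884 Pool.Agent.K3h3.KB Pool.Agent.K3h3.MK Pool.Agent.K3h83.IN
open Pool.Agent.H254R3.IN (IsIrr mem_Irr)
open Pool.Agent.Y63.AWC (numDefectZero)
open Pool.Agent.Y63.KR
open IC (Irr)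

section

variable {p : ℕ} [hp : Fact p.Prime] {G : Type} [Group G] [Finite G]

theorem krc_normal {U : Subgroup G} (hUn : U.Normal) (hU : IsPGroup p U) (hU1 : U ≠ ⊥) :
    KRC p G := by
  rw [krc_iff_DD]
  exact DD_normal hUn hU hU1

/-- an abelian normal subgroup of order divisible by `p` gives a normal `p`-subgroup -/
theorem exists_pnormal {A : Subgroup G} (hA : A.Normal) (hab : ∀ a ∈ A, ∀ b ∈ A, a * b = b * a)
    (hpA : p ∣ Nat.card A) : ∃ U : Subgroup G, U.Normal ∧ IsPGroup p U ∧ U ≠ ⊥ := by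
  let U : Subgroup G :=
    { carrier := {a | a ∈ A ∧ a ^ p = 1}
      one_mem' := ⟨A.one_mem, one_pow p⟩
      mul_mem' := by
        rintro a b ⟨ha, ha1⟩ ⟨hb, hb1⟩
        refine ⟨A.mul_mem ha hb, ?_⟩
        have : Commute a b := hab a ha b hb
        rw [this.mul_pow, ha1, hb1, one_mul]
      inv_mem' := by
        rintro a ⟨ha, ha1⟩
        exact ⟨A.inv_mem ha, by rw [inv_pow, ha1, inv_one]⟩ }
  refine ⟨U, ⟨?_⟩, ?_, ?_⟩
  · rintro a ⟨ha, ha1⟩ g
    exact ⟨hA.conj_mem a ha g, by rw [conj_pow, ha1, mul_one, mul_inv_cancel]⟩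
  · rintro ⟨a, ha⟩
    refine ⟨1, Subtype.ext ?_⟩
    rw [pow_one]
    exact ha.2
  · intro h
    obtain ⟨a, ha⟩ := exists_prime_orderOf_dvd_card' p hpA
    have h1 : (a : G) ∈ U := ⟨a.2, by
      have h2 : a ^ p = 1 := by rw [← ha, pow_orderOf_eq_one]
      exact congrArg Subtype.val h2⟩
    rw [h, Subgroup.mem_bot] at h1
    have h3 : a = 1 := Subtype.ext h1
    rw [h3, orderOf_one] at ha
    exact hp.out.one_lt.ne ha

theorem card_case {T : Subgroup G} {K : Subgroup T} (hlt : Nat.card G ≤ Nat.card (T ⧸ K)) :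
    T = ⊤ ∧ K = ⊥ := by
  have h1 := K.card_eq_card_quotient_mul_card_subgroup
  have h2 : Nat.card T ≤ Nat.card G := Subgroup.card_le_card_group T
  have h3 : 0 < Nat.card K := Nat.card_pos
  have h4 : Nat.card (T ⧸ K) ≤ Nat.card T := by
    rw [h1]
    exact Nat.le_mul_of_pos_right _ h3
  have h5 : Nat.card T = Nat.card G := le_antisymm h2 (hlt.trans h4)
  have h6 : Nat.card K = 1 := by
    have h7 : Nat.card (T ⧸ K) = Nat.card T := le_antisymm h4 (h2.trans hlt)
    rw [h7] at h1
    have h8 : 0 < Nat.card T := Nat.card_pos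
    exact Nat.eq_of_mul_eq_mul_left h8 (by rw [← h1, mul_one])
  exact ⟨Subgroup.eq_top_of_card_eq T h5, Subgroup.card_eq_one.mp h6⟩

/-- the abelian normal `p'`-subgroups of a minimal counterexample -/
theorem ab_case (hmin : ∀ (X : Type) [Group X] [Finite X], Nat.card X < Nat.card G → KRC p X)
    {A : Subgroup G} (hA : A.Normal) (hab : ∀ a ∈ A, ∀ b ∈ A, a * b = b * a)
    (hpA : ¬ p ∣ Nat.card A) (h : ¬ (A ≤ Subgroup.center G ∧ IsCyclic A)) : KRC p G := by
  letI : CommGroup A := { (inferInstance : Group A) with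
    mul_comm := fun a b => Subtype.ext (hab a a.2 b b.2) }
  have hn : A.subtype.range.Normal := by
    rw [Subgroup.range_subtype]
    exact hA
  refine ab_reduction A.subtype A.subtype_injective hn hpA fun lam K _ hK1 hK2 => ?_
  apply hmin
  by_contra hlt
  rw [not_lt] at hlt
  obtain ⟨hTtop, hKb⟩ := card_case hlt
  have hinj : Function.Injective lam := by
    rw [← MonoidHom.ker_eq_bot_iff, eq_bot_iff]
    intro a ha
    have h9 : jS A.subtype A.subtype_injective hn (fun l => ((lam l : ℂˣ) : ℂ)) a ∈ K :=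
      hK2 ⟨a, ha, rfl⟩
    rw [hKb, Subgroup.mem_bot] at h9
    rw [Subgroup.mem_bot]
    exact jS_injective A.subtype A.subtype_injective hn _ (h9.trans (map_one _).symm)
  apply h
  constructor
  · intro a ha
    rw [Subgroup.mem_center_iff]
    intro g
    have hg : g ∈ stb A.subtype A.subtype_injective hn (fun l => ((lam l : ℂˣ) : ℂ)) := by
      rw [hTtop]
      trivial
    have h9 := hg ⟨a, ha⟩ ⟨g * a * g⁻¹, hA.conj_mem a ha g⟩ rfl
    have h10 := hinj (Units.ext h9)
    have h11 : g * a * g⁻¹ = a := congrArg Subtype.val h10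
    rwa [mul_inv_eq_iff_eq_mul] at h11
  · exact isCyclic_of_injective_ringHom ((Units.coeHom ℂ).comp lam)
      (Units.val_injective.comp hinj)

/-- a minimal counterexample has no proper normal subgroup of `p`-power index -/
theorem index_case (hmin : ∀ (X : Type) [Group X] [Finite X], Nat.card X < Nat.card G → KRC p X)
    {K : Subgroup G} (hK : K.Normal) (hpK : IsPGroup p (G ⧸ K)) (hne : K ≠ ⊤) : KRC p G := by
  haveI := hK
  refine Pool.Agent.R674.Ce.krc_ext K.index G K le_rfl hpK fun R _ _ => ?_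
  apply hmin
  have h1 : K ⊓ Subgroup.centralizer (R : Set G) ≤ K := inf_le_left
  refine lt_of_le_of_lt (Subgroup.card_le_of_le h1) ?_
  refine lt_of_le_of_ne (Subgroup.card_le_card_group K) fun h2 => hne ?_
  exact Subgroup.eq_top_of_card_eq K h2

/-- the error term of the extension by a module -/
theorem semi_case (hmin : ∀ (X : Type) [Group X] [Finite X], Nat.card X < Nat.card G → KRC p X)
    {N : Type} [CommGroup N] [Finite N] (φ : G →* MulAut N) (hpN : ¬ p ∣ Nat.card N)
    (h : KRC p (N ⋊[φ] G)) : KRC p G := by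
  haveI := Fintype.ofFinite N
  haveI : Finite (N ⋊[φ] G) := Finite.of_equiv _ SemidirectProduct.equivProd.symm
  rw [krc_iff_DD, DD_semidirect φ hpN] at h
  rw [krc_iff_DD]
  have h0 : (Nat.card N : ℚ) ≠ 0 := by exact_mod_cast Nat.card_pos.ne'
  have h1 := (mul_eq_zero.mp h).resolve_left h0
  have h2 : ∀ θ ∈ Irr N, DD p (stH φ θ) = if stH φ θ = ⊤ then DD p G else 0 := by
    intro θ _
    split_ifs with h3
    · exact DD_congr ((MulEquiv.subgroupCongr h3).trans Subgroup.topEquiv)
    · rw [← krc_iff_DD]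
      apply hmin
      exact lt_of_le_of_ne (Subgroup.card_le_card_group _) fun h4 =>
        h3 (Subgroup.eq_top_of_card_eq _ h4)
  rw [Finset.sum_congr rfl h2, ← Finset.sum_filter, Finset.sum_const, nsmul_eq_mul] at h1
  refine (mul_eq_zero.mp h1).resolve_left ?_
  rw [Nat.cast_eq_zero, ← Ne, ← Nat.pos_iff_ne_zero, Finset.card_pos]
  refine ⟨fun _ => 1, ?_⟩
  rw [Finset.mem_filter]
  refine ⟨mem_Irr.mpr (by simpa using Pool.Agent.K3h18.IN.lin (1 : N →* ℂˣ)), ?_⟩
  rw [eq_top_iff]
  intro x _ n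
  rfl

end

end Pool.Agent.H93.KR
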