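import Pool.Agent.H93.KR.Ab

/-!
# Groups with a nontrivial normal `p`-subgroup
-/

set_option autoImplicit false
set_option linter.unusedSectionVars false
set_option linter.style.haveILetI false

open scoped Classical BigOperators

noncomputable section

namespace Pool.Agent.H93.KR

open Pool.Agent.Helper884 Pool.Agent.K3h3.KB Pool.Agent.K3h3.MK Pool.Agent.K3h83.IN
open Pool.Agent.H254R3.IN (IsIrr mem_Irr)
open Pool.Agent.Y63.AWC (numDefectZero)
open Pool.Agent.Y63.KR
open IC (Irr)

section

variable {p : ℕ} [hp : Fact p.Prime] {G : Type} [Group G] [Finite G]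

theorem toggle_chain {U : Subgroup G} (hUn : U.Normal) (hU : IsPGroup p U) (hU1 : U ≠ ⊥)
    {σ : Set (Subgroup G)} (hσ : IsPChain p σ) : IsPChain p (toggle U σ) := by
  have hL := lower_cases hσ.chain U
  have hLp : IsPGroup p (lower U σ) := by
    rcases hL with h | h
    · rw [h]; exact IsPGroup.of_bot
    · exact hσ.isPGroup _ h.1
  have hTp : IsPGroup p (toggled U σ) := IsPGroup.to_sup_of_normal_right hLp hU
  have hT1 : toggled U σ ≠ ⊥ := fun h => hU1 (le_bot_iff.mp (h ▸ le_toggled U σ))
  by_cases h : toggled U σ ∈ σ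
  · have h1 : toggle U σ = σ \ {toggled U σ} := if_pos h
    rw [h1]
    exact ⟨hσ.chain.mono Set.sdiff_subset, fun P hP => hσ.isPGroup P hP.1,
      fun P hP => hσ.ne_bot P hP.1⟩
  · have h1 : toggle U σ = insert (toggled U σ) σ := if_neg h
    rw [h1]
    refine ⟨?_, ?_, ?_⟩
    · refine hσ.chain.insert fun P hP _ => ?_
      rcases comparable (U := U) hσ.chain hP with h2 | h2
      · exact Or.inr h2
      · exact Or.inl h2
    · rintro P (rfl | hP)
      · exact hTp
      · exact hσ.isPGroup P hP
    · rintro P (rfl | hP)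
      · exact hT1
      · exact hσ.ne_bot P hP

theorem toggle_stab {U : Subgroup G} (hUn : U.Normal) {σ : Set (Subgroup G)}
    (hσ : IsPChain p σ) : chainStabilizer (toggle U σ) = chainStabilizer σ := by
  have hconjU : ∀ x : G, conjSub x U = U := by
    intro x
    rw [conjSub_eq_iff, Subgroup.normalizer_eq_top_iff.mpr hUn]
    trivial
  have key : ∀ τ : Set (Subgroup G), IsChain (· ≤ ·) τ → ∀ x, (∀ P ∈ τ, P ≠ toggled U τ →
      conjSub x P = P) → conjSub x (toggled U τ) = toggled U τ := by
    intro τ hτ x hx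
    have h1 : conjSub x (lower U τ ⊔ U) = conjSub x (lower U τ) ⊔ conjSub x U :=
      Subgroup.map_sup _ _ _
    unfold toggled
    rw [h1, hconjU]
    congr 1
    rcases lower_cases hτ U with h | h
    · rw [h, Q90.WR.conjSub_bot]
    · refine hx _ h.1 fun he => h.2 ?_
      rw [he]
      exact le_toggled U τ
  ext x
  rw [mem_chainStabilizer, mem_chainStabilizer]
  by_cases h : toggled U σ ∈ σ
  · have h1 : toggle U σ = σ \ {toggled U σ} := if_pos h
    rw [h1]
    constructor
    · intro hx P hP
      by_cases hPT : P = toggled U σ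
      · rw [hPT]
        exact key σ hσ.chain x fun R hR hne => hx R ⟨hR, hne⟩
      · exact hx P ⟨hP, hPT⟩
    · intro hx P hP
      exact hx P hP.1
  · have h1 : toggle U σ = insert (toggled U σ) σ := if_neg h
    rw [h1]
    constructor
    · intro hx P hP
      exact hx P (Or.inr hP)
    · rintro hx P (rfl | hP)
      · exact key σ hσ.chain x fun R hR _ => hx R hR
      · exact hx P hP

theorem AA_normal {U : Subgroup G} (hUn : U.Normal) (hU : IsPGroup p U) (hU1 : U ≠ ⊥) :
    AA p G = 0 := by
  haveI : Fintype (Ch p G) := Fintype.ofFinite _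
  unfold AA
  rw [CS_eq]
  have hsgn : ∀ σ : Ch p G, (-1 : ℚ) ^ (toggle U σ.1).ncard = - (-1) ^ σ.1.ncard := by
    intro σ
    have := ncard_toggle U σ.1
    exact_mod_cast this
  refine Finset.sum_involution (fun σ _ => ⟨toggle U σ.1, toggle_chain hUn hU hU1 σ.2⟩)
    ?_ ?_ (fun σ _ => Finset.mem_univ _) ?_
  · intro σ _
    have h1 := toggle_stab hUn σ.2
    have h2 : (Nat.card (chainStabilizer (toggle U σ.1)) : ℚ) * kk (chainStabilizer (toggle U σ.1)) =
        (Nat.card (chainStabilizer σ.1) : ℚ) * kk (chainStabilizer σ.1) := by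
      have h3 : kk (chainStabilizer (toggle U σ.1)) = kk (chainStabilizer σ.1) :=
        wt_congr _ (MulEquiv.subgroupCongr h1)
      rw [h3, h1]
    simp only
    rw [hsgn, h2]
    ring
  · intro σ _ _ h
    have h1 : toggle U σ.1 = σ.1 := congrArg Subtype.val h
    have h2 := hsgn σ
    rw [h1] at h2
    have h3 : ((-1 : ℚ)) ^ σ.1.ncard ≠ 0 := pow_ne_zero _ (by norm_num)
    apply h3
    linarith
  · intro σ _
    apply Subtype.ext
    exact toggle_toggle U σ.1

theorem DD_normal {U : Subgroup G} (hUn : U.Normal) (hU : IsPGroup p U) (hU1 : U ≠ ⊥) :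
    DD p G = 0 := by
  haveI := Fintype.ofFinite G
  unfold DD
  rw [AA_normal hUn hU hU1, zz_eq, defectZero_normal hU hUn hU1]
  simp

end

end Pool.Agent.H93.KR
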