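import Pool.Agent.H93.KR.Inf

/-!
# The relative form over a character of a normal `p'`-subgroup
-/

set_option autoImplicit false
set_option linter.unusedSectionVars false
set_option linter.style.haveILetI false

open scoped Classical BigOperators

noncomputable section

namespace Pool.Agent.H93.KR

open Pool.Agent.Helper884 Pool.Agent.K3h3.KB Pool.Agent.K3h3.MK Pool.Agent.K3h83.IN
open Pool.Agent.H254R3.IN (IsIrr mem_Irr)
open Pool.Agent.Y63.AWC (numDefectZero)
open Pool.Agent.Y63.KR
open IC (Irr)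
open Pool.Agent.K3h18.IN (irr_infl B_infl irr_of_infl exists_prod lin)

/-- the number of irreducible characters over `θ` of a subgroup `X` which contains `L` -/
def koS {L G : Type} [Group L] [Finite L] [Group G] [Finite G] (j : L →* G) (θ : L → ℂ)
    (X : Subgroup G) : ℚ :=
  if h : ∀ l, j l ∈ X then ko (j.codRestrict X h) θ else 0

theorem koS_pos {L G : Type} [Group L] [Finite L] [Group G] [Finite G] (j : L →* G) (θ : L → ℂ)
    {X : Subgroup G} (h : ∀ l, j l ∈ X) : koS j θ X = ko (j.codRestrict X h) θ := dif_pos h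

/-- the alternating sum over the chains of the quotient -/
def RA (p : ℕ) {L T Q : Type} [Group L] [Finite L] [Group T] [Finite T] [Group Q] (r : T →* Q)
    (j : L →* T) (θ : L → ℂ) : ℚ :=
  CS p (fun τ : Set (Subgroup Q) => (Nat.card ((chainStabilizer τ).comap r) : ℚ) *
    koS j θ ((chainStabilizer τ).comap r))

/-- the relative conjecture over `θ` -/
def RK (p : ℕ) {L T Q : Type} [Group L] [Finite L] [Group T] [Finite T] [Group Q] (r : T →* Q)
    (j : L →* T) (θ : L → ℂ) : Prop :=
  (Nat.card T : ℚ) * zo p j θ = RA p r j θ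

/-- `|G|` times the alternating sum of the class numbers -/
def AA (p : ℕ) (G : Type) [Group G] [Finite G] : ℚ :=
  CS p (fun σ : Set (Subgroup G) => (Nat.card (chainStabilizer σ) : ℚ) * kk (chainStabilizer σ))

theorem krc_iff_AA {p : ℕ} [Fact p.Prime] (G : Type) [Group G] [Finite G] :
    KRC p G ↔ (Nat.card G : ℚ) * zz p G = AA p G := by
  haveI := Fintype.ofFinite G
  haveI : Fintype (Ch p G) := Fintype.ofFinite _
  rw [Q90.WR.krc_altK, zz_eq]
  have h1 : (Nat.card G : ℤ) * Q90.WR.altK p G = ∑ σ : Ch p G,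
      (-1) ^ σ.1.ncard * ((Nat.card (chainStabilizer σ.1) : ℤ) *
        (Nat.card (ConjClasses (chainStabilizer σ.1)) : ℤ)) := by
    unfold Q90.WR.altK
    refine card_mul_alternatingSum _ ?_
    rintro H K ⟨e⟩
    have := kk_eq H
    have h2 : kk H = kk K := wt_congr _ e
    rw [kk_eq, kk_eq] at h2
    change ((Nat.card (ConjClasses H) : ℕ) : ℤ) = ((Nat.card (ConjClasses K) : ℕ) : ℤ)
    exact_mod_cast h2
  have h2 : AA p G = (((Nat.card G : ℤ) * Q90.WR.altK p G : ℤ) : ℚ) := by
    rw [h1]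
    unfold AA
    rw [CS_eq]
    push_cast
    refine Finset.sum_congr rfl fun σ _ => ?_
    rw [kk_eq]
  have h0 : (Nat.card G : ℚ) ≠ 0 := by exact_mod_cast Nat.card_pos.ne'
  rw [h2]
  push_cast
  rw [mul_right_inj' h0, eq_comm]
  norm_cast

/-- isomorphisms -/
theorem ko_congr {L G L' G' : Type} [Group L] [Finite L] [Group G] [Finite G]
    [Group L'] [Finite L'] [Group G'] [Finite G'] (f : L ≃* L') (e : G ≃* G')
    (j : L →* G) (j' : L' →* G') (h : ∀ l, e (j l) = j' (f l)) (θ : L → ℂ) (θ' : L' → ℂ)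
    (hθ : ∀ l, θ l = θ' (f l)) : ko j θ = ko j' θ' :=
  wo_congr _ f e j j' h θ θ' hθ

/-- the Clifford correspondence -/
theorem ko_stb {L G : Type} [Group L] [Finite L] [Group G] [Finite G] (j : L →* G)
    (hj : Function.Injective j) (hn : j.range.Normal) {θ : L → ℂ} (hθ : IsIrr θ)
    (T : Subgroup G) (hT : ∀ x, x ∈ T ↔ fixes j θ x) (jT : L →* T) (hjT : ∀ l, (jT l : G) = j l) :
    ko j θ = ko jT θ := by
  have h1 := a_S1 ℚ (1 : ℕ →* ℚ) L G j hj hn θ hθ T hT jT hjT
  rw [MonoidHom.one_apply, one_mul] at h1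
  exact h1

theorem zo_stb {p : ℕ} {L G : Type} [Group L] [Finite L] [Group G] [Finite G] (j : L →* G)
    (hj : Function.Injective j) (hn : j.range.Normal) {θ : L → ℂ} (hθ : IsIrr θ)
    (T : Subgroup G) (hT : ∀ x, x ∈ T ↔ fixes j θ x) (jT : L →* T) (hjT : ∀ l, (jT l : G) = j l) :
    zo p j θ = zo p jT θ := by
  have h1 := a_S1 (Polynomial ℚ) (wp p) L G j hj hn θ hθ T hT jT hjT
  unfold zo
  have h0 : T.index ≠ 0 := Subgroup.FiniteIndex.index_ne_zero
  have h2 : (Nat.card G).factorization p =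
      (Nat.card T).factorization p + T.index.factorization p := by
    rw [← T.card_mul_index, Nat.factorization_mul Nat.card_pos.ne' h0, Finsupp.add_apply]
  rw [h1, h2, wp_pos h0, Polynomial.coeff_X_pow_mul]

/-- the number of characters over `θ` for `Y` and for the stabiliser in `Y` -/
theorem koS_inf {L G : Type} [Group L] [Finite L] [Group G] [Finite G] (j : L →* G)
    (hj : Function.Injective j) (hn : j.range.Normal) {θ : L → ℂ} (hθ : IsIrr θ)
    (Y : Subgroup G) (hY : ∀ l, j l ∈ Y) :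
    (Nat.card {x : Y // fixes (j.codRestrict Y hY) θ x} : ℚ) * ko (j.codRestrict Y hY) θ =
      (Nat.card (Y ⊓ stb j hj hn θ : Subgroup G) : ℚ) * koS j θ (Y ⊓ stb j hj hn θ) := by
  have hjY : Function.Injective (j.codRestrict Y hY) := by
    intro a b hab
    exact hj (congrArg Subtype.val hab)
  have hnY : (j.codRestrict Y hY).range.Normal := by
    constructor
    rintro _ ⟨l, rfl⟩ y
    obtain ⟨m, hm⟩ := hn.conj_mem (j l) ⟨l, rfl⟩ (y : G)
    exact ⟨m, Subtype.ext hm⟩
  have hfix : ∀ y : Y, fixes (j.codRestrict Y hY) θ y ↔ fixes j θ (y : G) := by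
    intro y
    constructor
    · intro h l l' hll
      exact h l l' (Subtype.ext hll)
    · intro h l l' hll
      exact h l l' (congrArg Subtype.val hll)
  haveI := Fintype.ofFinite L
  have hcl : IC.IsClass θ := IC.IsIrrChar.isClass hθ
  have hjT : ∀ l, j l ∈ Y ⊓ stb j hj hn θ := fun l => ⟨hY l, range_le_stb j hj hn hcl ⟨l, rfl⟩⟩
  rw [koS_pos j θ hjT]
  have hjT' : ∀ l, j.codRestrict Y hY l ∈ (stb j hj hn θ).subgroupOf Y := fun l => (hjT l).2
  rw [ko_stb (j.codRestrict Y hY) hjY hnY hθ ((stb j hj hn θ).subgroupOf Y)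
    (fun y => by rw [Subgroup.mem_subgroupOf, hfix]; rfl)
    ((j.codRestrict Y hY).codRestrict _ hjT') (fun l => rfl)]
  have e : (stb j hj hn θ).subgroupOf Y ≃* (Y ⊓ stb j hj hn θ : Subgroup G) :=
    { toFun := fun x => ⟨x.1.1, x.1.2, x.2⟩
      invFun := fun x => ⟨⟨x.1, x.2.1⟩, x.2.2⟩
      left_inv := fun _ => rfl
      right_inv := fun _ => rfl
      map_mul' := fun _ _ => rfl }
  congr 1
  · norm_cast
    refine Nat.card_congr
      { toFun := fun x => ⟨x.1.1, x.1.2, (hfix x.1).mp x.2⟩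
        invFun := fun x => ⟨⟨x.1, x.2.1⟩, (hfix _).mpr x.2.2⟩
        left_inv := fun _ => rfl
        right_inv := fun _ => rfl }
  · refine ko_congr (MulEquiv.refl L)
      { toFun := fun x => ⟨x.1.1, x.1.2, x.2⟩
        invFun := fun x => ⟨⟨x.1, x.2.1⟩, x.2.2⟩
        left_inv := fun _ => rfl
        right_inv := fun _ => rfl
        map_mul' := fun _ _ => rfl } _ _ (fun l => rfl) _ _ fun l => rfl

/-- restriction to a subgroup `T` -/
theorem koS_sub {L G : Type} [Group L] [Finite L] [Group G] [Finite G] (j : L →* G) (θ : L → ℂ)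
    (T : Subgroup G) (jT : L →* T) (hjT : ∀ l, (jT l : G) = j l) (X : Subgroup G) (hX : X ≤ T)  :
    koS jT θ (X.subgroupOf T) = koS j θ X := by
  by_cases h : ∀ l, j l ∈ X
  · have h' : ∀ l, jT l ∈ X.subgroupOf T := fun l => by
      rw [Subgroup.mem_subgroupOf, hjT]
      exact h l
    rw [koS_pos j θ h, koS_pos jT θ h']
    refine ko_congr (MulEquiv.refl L)
      { toFun := fun x => ⟨x.1.1, x.2⟩
        invFun := fun x => ⟨⟨x.1, hX x.2⟩, x.2⟩
        left_inv := fun _ => rfl
        right_inv := fun _ => rfl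
        map_mul' := fun _ _ => rfl } _ _ (fun l => ?_) _ _ fun l => rfl
    apply Subtype.ext
    exact hjT l
  · unfold koS
    rw [dif_neg h, dif_neg]
    intro h'
    apply h
    intro l
    have := h' l
    rw [Subgroup.mem_subgroupOf, hjT] at this
    exact this

/-- the part of the alternating sum over `θ` -/
def RT (p : ℕ) {L G Q : Type} [Group L] [Finite L] [Group G] [Finite G] [Group Q] (j : L →* G)
    (hj : Function.Injective j) (hn : j.range.Normal) (π : G →* Q) (θ : L → ℂ) : ℚ :=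
  CS p (fun τ : Set (Subgroup Q) => if ∀ P ∈ τ, P ≤ (stb j hj hn θ).map π then
    (Nat.card ((chainStabilizer τ).comap π ⊓ stb j hj hn θ : Subgroup G) : ℚ) *
      koS j θ ((chainStabilizer τ).comap π ⊓ stb j hj hn θ) else 0)

theorem CS_sum {p : ℕ} {G : Type} [Group G] [Finite G] {ι : Type} (s : Finset ι)
    (F : ι → Set (Subgroup G) → ℚ) : CS p (fun σ => ∑ i ∈ s, F i σ) = ∑ i ∈ s, CS p (F i) := by
  haveI : Fintype (Ch p G) := Fintype.ofFinite _
  simp_rw [CS_eq]
  rw [Finset.sum_comm]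
  exact Finset.sum_congr rfl fun σ _ => Finset.mul_sum _ _ _

/-- **The chains of `G` and the chains of the stabilisers.** -/
theorem AA_clifford {p : ℕ} [Fact p.Prime] {L G Q : Type} [Group L] [Fintype L] [Group G] [Finite G]
    [Group Q] (j : L →* G) (hj : Function.Injective j) (π : G →* Q) (hπ : Function.Surjective π)
    (hk : π.ker = j.range) (hn : j.range.Normal) (hp : ¬ p ∣ Nat.card L)
    (hLC : ∀ σ : Set (Subgroup G), IsPChain p σ →
      (Nat.card ((chainStabilizer (mapC π σ)).comap π) : ℚ) * kk (chainStabilizer σ) =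
        ∑ θ ∈ Irr L, if ∀ P ∈ mapC π σ, P ≤ (stb j hj hn θ).map π then
          (Nat.card ((chainStabilizer (mapC π σ)).comap π ⊓ stb j hj hn θ : Subgroup G) : ℚ) *
            koS j θ ((chainStabilizer (mapC π σ)).comap π ⊓ stb j hj hn θ) else 0) :
    AA p G = ∑ θ ∈ Irr L, RT p j hj hn π θ := by
  haveI : Finite Q := Finite.of_surjective π hπ
  have hkp : ¬ p ∣ Nat.card π.ker := by
    rw [hk, ← Nat.card_congr (MonoidHom.ofInjective hj).toEquiv]
    exact hp
  set F : Set (Subgroup Q) → ℚ := fun τ => ∑ θ ∈ Irr L,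
    if ∀ P ∈ τ, P ≤ (stb j hj hn θ).map π then
      (Nat.card ((chainStabilizer τ).comap π ⊓ stb j hj hn θ : Subgroup G) : ℚ) *
        koS j θ ((chainStabilizer τ).comap π ⊓ stb j hj hn θ) else 0 with hF
  have h1 : AA p G = CS p (fun σ : Set (Subgroup G) => (Nat.card (chainStabilizer σ) : ℚ) *
      ((Nat.card ((chainStabilizer (mapC π σ)).comap π) : ℚ)⁻¹ * F (mapC π σ))) := by
    unfold AA
    refine CS_congr fun σ hσ => ?_
    have h2 := hLC σ hσ
    have h0 : (Nat.card ((chainStabilizer (mapC π σ)).comap π) : ℚ) ≠ 0 := by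
      exact_mod_cast Nat.card_pos.ne'
    change _ = (Nat.card (chainStabilizer σ) : ℚ) *
      ((Nat.card ((chainStabilizer (mapC π σ)).comap π) : ℚ)⁻¹ * F (mapC π σ))
    rw [hF]
    simp only
    rw [← h2]
    field_simp
  rw [h1, CS_quot hπ hkp (fun τ => (Nat.card ((chainStabilizer τ).comap π) : ℚ)⁻¹ * F τ)]
  have h3 : CS p (fun τ : Set (Subgroup Q) => (Nat.card π.ker : ℚ) * Nat.card (chainStabilizer τ) *
      ((Nat.card ((chainStabilizer τ).comap π) : ℚ)⁻¹ * F τ)) = CS p F := by
    refine CS_congr fun τ _ => ?_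
    have h0 : (Nat.card ((chainStabilizer τ).comap π) : ℚ) ≠ 0 := by
      exact_mod_cast Nat.card_pos.ne'
    have h4 : (Nat.card ((chainStabilizer τ).comap π) : ℚ) =
        (Nat.card π.ker : ℚ) * Nat.card (chainStabilizer τ) := by
      rw [card_comap π hπ]
      push_cast
      rfl
    rw [← h4, ← mul_assoc, mul_inv_cancel₀ h0, one_mul]
  rw [h3, hF, CS_sum]
  rfl

/-- the part over `θ` is the alternating sum for the stabiliser of `θ` -/
theorem RT_eq {p : ℕ} {L G Q : Type} [Group L] [Finite L] [Group G] [Finite G]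
    [Group Q] (j : L →* G) (hj : Function.Injective j) (hn : j.range.Normal) (π : G →* Q)
    (hπ : Function.Surjective π) (θ : L → ℂ)
    (jT : L →* stb j hj hn θ) (hjT : ∀ l, (jT l : G) = j l) :
    RT p j hj hn π θ = RA p (π.subgroupMap (stb j hj hn θ)) jT θ := by
  haveI : Finite Q := Finite.of_surjective π hπ
  unfold RT RA
  rw [CS_sub (p := p) ((stb j hj hn θ).map π) (fun τ : Set (Subgroup Q) =>
    (Nat.card ((chainStabilizer τ).comap π ⊓ stb j hj hn θ : Subgroup G) : ℚ) *
      koS j θ ((chainStabilizer τ).comap π ⊓ stb j hj hn θ))]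
  refine CS_congr fun τ _ => ?_
  have h1 : (chainStabilizer τ).comap (π.subgroupMap (stb j hj hn θ)) =
      ((chainStabilizer (mapC ((stb j hj hn θ).map π).subtype τ)).comap π ⊓
        stb j hj hn θ).subgroupOf (stb j hj hn θ) := by
    ext x
    rw [Subgroup.mem_comap, stab_sub, Subgroup.mem_subgroupOf, Subgroup.mem_subgroupOf,
      Subgroup.mem_inf]
    exact ⟨fun h => ⟨h, x.2⟩, fun h => h.1⟩
  rw [h1, koS_sub j θ (stb j hj hn θ) jT hjT _ inf_le_right,
    Nat.card_congr (Subgroup.subgroupOfEquivOfLe inf_le_right).toEquiv]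

end Pool.Agent.H93.KR
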